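import Pool.Agent.Lib.H56G.Defs

/-!
# Chunk CNT: number of configurations, comparison of `ps` and `ph`
-/

open Finset

namespace Pool.Agent.Lib.H56G

variable {ι J : Type} [Fintype ι] [DecidableEq ι] [Fintype J] [DecidableEq J]

theorem cnt_sum_inv_sq (s : Sys ι J) (W : ℕ) (hW : 1 ≤ W) (hpr : ∀ i, W < s.pr i) :
    ∑ i, (((s.pr i : ℕ) : ℝ) ^ 2)⁻¹ ≤ (W : ℝ)⁻¹ := by
  classical
  have h1 : ∑ i, (((s.pr i : ℕ) : ℝ) ^ 2)⁻¹ =
      ∑ n ∈ (univ : Finset ι).image s.pr, ((n : ℝ) ^ 2)⁻¹ := by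
    rw [Finset.sum_image (fun a _ b _ h => s.inj h)]
  rw [h1]
  obtain ⟨N, hN⟩ : ∃ N, W ≤ N ∧ ∀ i, s.pr i ≤ N :=
    ⟨max W (univ.sup s.pr), le_max_left _ _, fun i =>
      (Finset.le_sup (f := s.pr) (mem_univ i)).trans (le_max_right _ _)⟩
  have hsub : (univ : Finset ι).image s.pr ⊆ Ioc W N := by
    intro n hn
    obtain ⟨i, _, rfl⟩ := Finset.mem_image.1 hn
    exact Finset.mem_Ioc.2 ⟨hpr i, hN.2 i⟩
  calc ∑ n ∈ (univ : Finset ι).image s.pr, ((n : ℝ) ^ 2)⁻¹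
      ≤ ∑ n ∈ Ioc W N, ((n : ℝ) ^ 2)⁻¹ :=
        Finset.sum_le_sum_of_subset_of_nonneg hsub (fun _ _ _ => by positivity)
    _ ≤ (W : ℝ)⁻¹ - (N : ℝ)⁻¹ := sum_Ioc_inv_sq_le_sub (by omega) hN.1
    _ ≤ (W : ℝ)⁻¹ := by
        have : (0 : ℝ) ≤ (N : ℝ)⁻¹ := by positivity
        linarith

theorem cnt_r_eq (s : Sys ι J) (κ : ι → Option J) :
    s.r κ = ∏ i, (κ i).elim (1 : ℝ) (fun _ => (s.pr i : ℝ)) := by
  unfold Sys.r Sys.rho supp
  rw [Finset.prod_filter]
  apply Finset.prod_congr rfl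
  intro i _
  cases h : κ i <;> simp

theorem cnt_r_pos (s : Sys ι J) (κ : ι → Option J) : 0 < s.r κ := by
  unfold Sys.r Sys.rho
  apply Finset.prod_pos
  intro i _
  exact_mod_cast (s.prime i).pos

/-- `#{κ : r κ ≤ D} ≤ Σ_κ (D / r κ)^2 = D^2 ∏_i (1 + |J| / p_i^2) ≤ D^2 exp (|J| Σ_i p_i^-2)`
(`Finset.prod_univ_sum`), and `Σ_i p_i^-2 ≤ Σ_{n > W} n^-2 ≤ 1/W` (distinct integers `> W`),
`exp 1 ≤ 3`. -/
theorem card_le (s : Sys ι J) (W : ℕ) (hW : 1 ≤ W) (hpr : ∀ i, W < s.pr i)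
    (hJ : Fintype.card J ≤ W) (D : ℝ) (hD : 1 ≤ D) :
    (((univ : Finset (ι → Option J)).filter (fun κ => s.r κ ≤ D)).card : ℝ) ≤ 3 * D ^ 2 := by
  have hprod : ∑ κ : ι → Option J, (D / s.r κ) ^ 2 =
      D ^ 2 * ∏ i, (1 + (Fintype.card J : ℝ) * (((s.pr i : ℕ) : ℝ) ^ 2)⁻¹) := by
    have h1 : ∀ κ : ι → Option J, (D / s.r κ) ^ 2 =
        D ^ 2 * ∏ i, (κ i).elim (1 : ℝ) (fun _ => (((s.pr i : ℕ) : ℝ) ^ 2)⁻¹) := by
      intro κ
      rw [div_pow, div_eq_mul_inv, cnt_r_eq, ← Finset.prod_pow, ← Finset.prod_inv_distrib]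
      congr 1
      apply Finset.prod_congr rfl
      intro i _
      cases h : κ i <;> simp
    rw [Finset.sum_congr rfl (fun κ _ => h1 κ), ← Finset.mul_sum]
    congr 1
    have h2 := Finset.prod_univ_sum (t := fun _ : ι => (univ : Finset (Option J)))
      (f := fun i (o : Option J) => o.elim (1 : ℝ) (fun _ => (((s.pr i : ℕ) : ℝ) ^ 2)⁻¹))
    rw [Fintype.piFinset_univ] at h2
    rw [← h2]
    apply Finset.prod_congr rfl
    intro i _
    rw [Fintype.sum_option]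
    simp
  have hle : (((univ : Finset (ι → Option J)).filter (fun κ => s.r κ ≤ D)).card : ℝ) ≤
      ∑ κ : ι → Option J, (D / s.r κ) ^ 2 := by
    rw [Finset.card_eq_sum_ones, Nat.cast_sum]
    calc ∑ κ ∈ (univ : Finset (ι → Option J)).filter (fun κ => s.r κ ≤ D), ((1 : ℕ) : ℝ)
        ≤ ∑ κ ∈ (univ : Finset (ι → Option J)).filter (fun κ => s.r κ ≤ D),
            (D / s.r κ) ^ 2 := by
          apply Finset.sum_le_sum
          intro κ hκ
          have h1 : s.r κ ≤ D := (Finset.mem_filter.1 hκ).2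
          have h2 : 1 ≤ D / s.r κ := by
            rw [le_div_iff₀ (cnt_r_pos s κ)]
            linarith
          push_cast
          nlinarith
      _ ≤ ∑ κ : ι → Option J, (D / s.r κ) ^ 2 :=
          Finset.sum_le_sum_of_subset_of_nonneg (Finset.filter_subset _ _)
            (fun _ _ _ => by positivity)
  refine hle.trans ?_
  rw [hprod]
  have hexp : ∏ i, (1 + (Fintype.card J : ℝ) * (((s.pr i : ℕ) : ℝ) ^ 2)⁻¹) ≤ 3 := by
    have h1 : ∏ i, (1 + (Fintype.card J : ℝ) * (((s.pr i : ℕ) : ℝ) ^ 2)⁻¹) ≤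
        ∏ i, Real.exp ((Fintype.card J : ℝ) * (((s.pr i : ℕ) : ℝ) ^ 2)⁻¹) := by
      apply Finset.prod_le_prod
      · intro i _
        positivity
      · intro i _
        have := Real.add_one_le_exp ((Fintype.card J : ℝ) * (((s.pr i : ℕ) : ℝ) ^ 2)⁻¹)
        linarith
    rw [← Real.exp_sum, ← Finset.mul_sum] at h1
    have h2 := cnt_sum_inv_sq s W hW hpr
    have hJ' : (Fintype.card J : ℝ) ≤ W := by exact_mod_cast hJ
    have hW' : (0 : ℝ) < W := by exact_mod_cast hW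
    have h3 : (Fintype.card J : ℝ) * ∑ i, (((s.pr i : ℕ) : ℝ) ^ 2)⁻¹ ≤ 1 := by
      calc (Fintype.card J : ℝ) * ∑ i, (((s.pr i : ℕ) : ℝ) ^ 2)⁻¹
          ≤ (W : ℝ) * (W : ℝ)⁻¹ := by
            apply mul_le_mul hJ' h2 (Finset.sum_nonneg (fun _ _ => by positivity)) hW'.le
        _ = 1 := mul_inv_cancel₀ hW'.ne'
    have h4 := Real.exp_le_exp.2 h3
    have h5 := Real.exp_one_lt_d9
    linarith
  have hD2 : 0 ≤ D ^ 2 := by positivity
  nlinarith [mul_le_mul_of_nonneg_left hexp hD2]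

/-- The number of primes in a configuration of level `≤ D` is at most `log D / log 2 ≤ 2 log D`. -/
theorem card_supp_le (s : Sys ι J) (κ : ι → Option J) (D : ℝ) (hD : s.r κ ≤ D) :
    ((supp κ).card : ℝ) ≤ 2 * Real.log D := by
  have h1 : (2 : ℝ) ^ (supp κ).card ≤ s.r κ := by
    unfold Sys.r Sys.rho
    rw [← Finset.prod_const]
    apply Finset.prod_le_prod
    · intro i _; norm_num
    · intro i _
      exact_mod_cast (s.prime i).two_le
  have h2 : ((supp κ).card : ℝ) * Real.log 2 ≤ Real.log D := by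
    rw [← Real.log_pow]
    exact Real.log_le_log (by positivity) (h1.trans hD)
  have h3 := Real.log_two_gt_d9
  have h4 : (0 : ℝ) ≤ (supp κ).card := by positivity
  nlinarith

/-- `ps κ / ph κ = ∏ (1 + (|J|+1)/(p-1)) ≤ exp ((|J|+1) |supp κ| / W)` as `p - 1 ≥ W`. -/
theorem ps_le (s : Sys ι J) (W : ℕ) (hW : 1 ≤ W) (hpr : ∀ i, W < s.pr i)
    (κ : ι → Option J) (D : ℝ) (hD : s.r κ ≤ D) :
    s.ps κ ≤ Real.exp (2 * (Fintype.card J + 1) * Real.log D / W) * s.ph κ := by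
  have hW' : (0 : ℝ) < W := by exact_mod_cast hW
  have hcard := card_supp_le s κ D hD
  have hp : ∀ i, (W : ℝ) ≤ (s.pr i : ℝ) - 1 := by
    intro i
    have : (W : ℝ) + 1 ≤ s.pr i := by exact_mod_cast hpr i
    linarith
  have h1 : s.ps κ ≤ ∏ i ∈ supp κ, (Real.exp (((Fintype.card J : ℝ) + 1) / W) *
      ((s.pr i : ℝ) - 1)) := by
    unfold Sys.ps
    apply Finset.prod_le_prod
    · intro i _; positivity
    · intro i _
      have h2 := hp i
      have h3 : 1 + ((Fintype.card J : ℝ) + 1) / W ≤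
          Real.exp (((Fintype.card J : ℝ) + 1) / W) := by
        have := Real.add_one_le_exp (((Fintype.card J : ℝ) + 1) / W)
        linarith
      have h4 : 0 ≤ (s.pr i : ℝ) - 1 := by linarith
      calc (s.pr i : ℝ) + Fintype.card J
          = ((s.pr i : ℝ) - 1) + ((Fintype.card J : ℝ) + 1) / W * W := by
            field_simp
            ring
        _ ≤ ((s.pr i : ℝ) - 1) + ((Fintype.card J : ℝ) + 1) / W * ((s.pr i : ℝ) - 1) := by
            gcongr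
        _ = (1 + ((Fintype.card J : ℝ) + 1) / W) * ((s.pr i : ℝ) - 1) := by ring
        _ ≤ Real.exp (((Fintype.card J : ℝ) + 1) / W) * ((s.pr i : ℝ) - 1) := by gcongr
  rw [Finset.prod_mul_distrib, Finset.prod_const, ← Real.exp_nat_mul] at h1
  have hph : (0 : ℝ) ≤ s.ph κ := by
    unfold Sys.ph Sys.phi
    exact Finset.prod_nonneg (fun i _ => by linarith [hp i])
  have h5 : ((supp κ).card : ℝ) * (((Fintype.card J : ℝ) + 1) / W) ≤
      2 * (Fintype.card J + 1) * Real.log D / W := by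
    calc ((supp κ).card : ℝ) * (((Fintype.card J : ℝ) + 1) / W)
        ≤ (2 * Real.log D) * (((Fintype.card J : ℝ) + 1) / W) := by gcongr
      _ = 2 * (Fintype.card J + 1) * Real.log D / W := by ring
  calc s.ps κ ≤ Real.exp (((supp κ).card : ℝ) * (((Fintype.card J : ℝ) + 1) / W)) * s.ph κ := h1
    _ ≤ Real.exp (2 * (Fintype.card J + 1) * Real.log D / W) * s.ph κ := by gcongr

end Pool.Agent.Lib.H56G
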