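import Pool.Agent.Lib.H56G.Off

/-!
# Chunk COEF1: the coefficients `cc`
-/

open Finset

namespace Pool.Agent.Lib.H56G

variable {ι J : Type} [Fintype ι] [DecidableEq ι] [Fintype J] [DecidableEq J]

theorem coef1_abs_gam_le (bb : Finset ι → ℝ) (h0 : ∀ A, 0 ≤ bb A)
    (h1 : ∀ A, bb A ≤ 1) (A : Finset ι) : |gam bb A| ≤ 1 := by
  unfold gam
  split_ifs
  · simp
  · rw [abs_neg, abs_of_nonneg (h0 A)]
    exact h1 A

theorem coef1_vv_nonneg (s : Sys ι J) (bb : Finset ι → ℝ) (A : Finset ι) : 0 ≤ vv s bb A := by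
  unfold vv
  have := one_le_phi s A
  positivity

/-- `|gam| ≤ 1`. -/
theorem abs_cc_le_one (s : Sys ι J) (bb : Finset ι → ℝ) (h0 : ∀ A, 0 ≤ bb A)
    (h1 : ∀ A, bb A ≤ 1) (D : ℝ) (κ : ι → Option J) : |cc s bb D κ| ≤ 1 := by
  unfold cc
  split_ifs
  · rw [Finset.abs_prod]
    exact Finset.prod_le_one (fun j _ => abs_nonneg _) fun j _ => coef1_abs_gam_le bb h0 h1 _
  · simp

/-- `(cc κ)^2 ph κ = wt κ` if `r κ ≤ D` (`ph_eq_prod_part`). -/
theorem cc_sq_mul_ph (s : Sys ι J) (bb : Finset ι → ℝ) (D : ℝ) (κ : ι → Option J)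
    (hκ : s.r κ ≤ D) : (cc s bb D κ) ^ 2 * s.ph κ = wt s bb κ := by
  unfold cc wt vv
  rw [if_pos hκ, ph_eq_prod_part, Finset.prod_mul_distrib, Finset.prod_pow]

theorem wt_nonneg (s : Sys ι J) (bb : Finset ι → ℝ) (κ : ι → Option J) : 0 ≤ wt s bb κ := by
  unfold wt
  exact Finset.prod_nonneg fun j _ => coef1_vv_nonneg s bb _

/-- The configuration `κ = none` has weight `1`, all weights are nonnegative. -/
theorem one_le_ZZ (s : Sys ι J) (bb : Finset ι → ℝ) : 1 ≤ ZZ s bb := by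
  have h : wt s bb (fun _ => none) = 1 := by
    unfold wt
    refine Finset.prod_eq_one fun j _ => ?_
    have h1 : part (fun _ : ι => (none : Option J)) j = ∅ := by
      unfold part
      ext i
      simp
    rw [h1]
    simp [vv, gam, Sys.phi]
  unfold ZZ
  rw [← h]
  exact Finset.single_le_sum (f := fun κ => wt s bb κ) (fun κ _ => wt_nonneg s bb κ)
    (Finset.mem_univ _)

end Pool.Agent.Lib.H56G
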