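import Pool.Agent.Lib.H56G.Wgt1

/-!
# Chunk WGT2: the weight of the sets which contain a given prime
-/

open Finset

namespace Pool.Agent.Lib.H56G

variable {ι J : Type} [Fintype ι] [DecidableEq ι] [Fintype J] [DecidableEq J]

theorem wgt2_rho_insert (s : Sys ι J) (i : ι) (A : Finset ι) (hi : i ∉ A) :
    s.rho (insert i A) = (s.pr i : ℝ) * s.rho A := by
  unfold Sys.rho
  rw [Finset.prod_insert hi]

theorem wgt2_phi_insert (s : Sys ι J) (i : ι) (A : Finset ι) (hi : i ∉ A) :
    s.phi (insert i A) = ((s.pr i : ℝ) - 1) * s.phi A := by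
  unfold Sys.phi
  rw [Finset.prod_insert hi]

theorem wgt2_sum (i : ι) (F : Finset ι → ℝ) :
    ∑ A ∈ univ.filter (fun A : Finset ι => i ∈ A), F A
      = ∑ A ∈ univ.filter (fun A : Finset ι => i ∉ A), F (insert i A) := by
  apply Finset.sum_nbij' (fun A => A.erase i) (fun A => insert i A)
  · intro A hA
    simp
  · intro A hA
    simp
  · intro A hA
    simp only [Finset.mem_filter, Finset.mem_univ, true_and] at hA
    exact Finset.insert_erase hA
  · intro A hA
    simp only [Finset.mem_filter, Finset.mem_univ, true_and] at hA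
    exact Finset.erase_insert hA
  · intro A hA
    simp only [Finset.mem_filter, Finset.mem_univ, true_and] at hA
    rw [Finset.insert_erase hA]

/-- For a fixed prime `i`: `Σ_{A ∋ i} bw A ≤ (1/(p_i - 1)) (1/(S log p_i) + 1)`: write
`A = insert i A'`; `φ(A) = (p_i - 1) φ(A')`; for `A' = ∅` the term is
`1/(S (p_i-1) log p_i)`; for `A' ≠ ∅` use `log ρ(A) ≥ log ρ(A')`, `ρ(A') ≤ z`, `bw_sum`.
With `W < p_i` and `log p_i ≥ log 2 ≥ 1/2` it is at most `(1/W) (2/S + 1)`. -/
theorem bw_through (s : Sys ι J) (W : ℕ) (hW : 1 ≤ W) (hpr : ∀ i, W < s.pr i) (z : ℝ)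
    (hS : 0 < SS s z) (i : ι) :
    ∑ A ∈ univ.filter (fun A : Finset ι => i ∈ A), bw s z A
      ≤ (2 / SS s z + 1) / W := by
  have hWp : (1 : ℝ) ≤ (W : ℝ) := by exact_mod_cast hW
  have hW0 : (0 : ℝ) < (W : ℝ) := by linarith
  have hp : (W : ℝ) ≤ (s.pr i : ℝ) - 1 := by
    have h1 : W + 1 ≤ s.pr i := hpr i
    have h2 : ((W + 1 : ℕ) : ℝ) ≤ (s.pr i : ℝ) := by exact_mod_cast h1
    push_cast at h2
    linarith
  have hp0 : (0 : ℝ) < (s.pr i : ℝ) - 1 := by linarith
  have hp2 : (2 : ℝ) ≤ (s.pr i : ℝ) := by exact_mod_cast (s.prime i).two_le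
  have hlog2 : (1 / 2 : ℝ) ≤ Real.log 2 := by
    have := Real.log_two_gt_d9
    linarith
  have hlogp : (1 / 2 : ℝ) ≤ Real.log (s.pr i : ℝ) :=
    hlog2.trans (Real.log_le_log (by norm_num) hp2)
  rw [wgt2_sum]
  have key : ∀ A ∈ univ.filter (fun A : Finset ι => i ∉ A),
      bw s z (insert i A) ≤ (if A = ∅ then (2 / SS s z) / W else 0)
        + (if A ≠ ∅ then bw s z A else 0) * (1 / W) := by
    intro A hA
    simp only [Finset.mem_filter, Finset.mem_univ, true_and] at hA
    by_cases hA0 : A = ∅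
    · rw [if_pos hA0, if_neg (fun h => h hA0), zero_mul, add_zero]
      by_cases hz : insert i A ≠ ∅ ∧ s.rho (insert i A) ≤ z
      · unfold bw
        rw [if_pos hz, wgt2_rho_insert s i A hA, wgt2_phi_insert s i A hA, hA0]
        have h1 : s.rho ∅ = 1 := by unfold Sys.rho; simp
        have h2 : s.phi ∅ = 1 := by unfold Sys.phi; simp
        rw [h1, h2, mul_one, mul_one, div_div]
        rw [div_le_div_iff₀ (by positivity) (by positivity)]
        have h3 : (W : ℝ) * (1 / 2) ≤ ((s.pr i : ℝ) - 1) * Real.log (s.pr i : ℝ) :=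
          mul_le_mul hp hlogp (by norm_num) hp0.le
        nlinarith
      · unfold bw
        rw [if_neg hz]
        positivity
    · rw [if_neg hA0, if_pos hA0, zero_add]
      by_cases hz : insert i A ≠ ∅ ∧ s.rho (insert i A) ≤ z
      · have hr := wgt1_one_lt_rho s A hA0
        have hr2 : s.rho A ≤ s.rho (insert i A) := by
          rw [wgt2_rho_insert s i A hA]
          nlinarith
        have hzA : A ≠ ∅ ∧ s.rho A ≤ z := ⟨hA0, hr2.trans hz.2⟩
        have hph : 0 < s.phi A := lt_of_lt_of_le zero_lt_one (one_le_phi s A)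
        have hl : 0 < Real.log (s.rho A) := Real.log_pos hr
        have hll : Real.log (s.rho A) ≤ Real.log (s.rho (insert i A)) :=
          Real.log_le_log (by linarith) hr2
        unfold bw
        rw [if_pos hz, if_pos hzA, wgt2_phi_insert s i A hA, one_div_mul_one_div]
        apply one_div_le_one_div_of_le (by positivity)
        calc SS s z * (s.phi A * Real.log (s.rho A)) * (W : ℝ)
            = SS s z * (((W : ℝ) * s.phi A) * Real.log (s.rho A)) := by ring
          _ ≤ SS s z * (((s.pr i : ℝ) - 1) * s.phi A * Real.log (s.rho (insert i A))) := by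
            apply mul_le_mul_of_nonneg_left _ hS.le
            apply mul_le_mul _ hll hl.le (by positivity)
            exact mul_le_mul_of_nonneg_right hp hph.le
      · have h0 : bw s z (insert i A) = 0 := by
          unfold bw
          rw [if_neg hz]
        rw [h0]
        exact mul_nonneg (bw_nonneg s z A) (by positivity)
  refine (Finset.sum_le_sum key).trans ?_
  rw [Finset.sum_add_distrib, ← Finset.sum_mul]
  have h1 : ∑ A ∈ univ.filter (fun A : Finset ι => i ∉ A),
      (if A = ∅ then (2 / SS s z) / (W : ℝ) else 0) ≤ (2 / SS s z) / (W : ℝ) := by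
    rw [Finset.sum_ite_eq']
    split_ifs
    · exact le_refl _
    · positivity
  have h2 : ∑ A ∈ univ.filter (fun A : Finset ι => i ∉ A),
      (if A ≠ ∅ then bw s z A else 0) ≤ 1 := by
    rw [← bw_sum s z hS, Finset.sum_filter (fun A : Finset ι => A ≠ ∅)]
    apply Finset.sum_le_sum_of_subset_of_nonneg (Finset.subset_univ _)
    intro A _ _
    split_ifs
    · exact bw_nonneg s z A
    · exact le_refl _
  calc _ ≤ (2 / SS s z) / (W : ℝ) + 1 * (1 / (W : ℝ)) := by
        apply add_le_add h1
        exact mul_le_mul_of_nonneg_right h2 (by positivity)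
    _ = (2 / SS s z + 1) / (W : ℝ) := by ring

end Pool.Agent.Lib.H56G
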