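import Pool.Agent.Lib.H56G.Defs

/-!
# Chunk SCH1: row sums of the Gram matrix
-/

open Finset

namespace Pool.Agent.Lib.H56G

variable {ι J : Type} [Fintype ι] [DecidableEq ι] [Fintype J] [DecidableEq J]

/-- Row sums of the Gram matrix: `Σ_{κ'} ∏ |gram| = ∏_i Σ_{a'} |gram i (κ i) a'|`
(`Finset.prod_univ_sum` / `Fintype.piFinset_univ`), and the one prime sum is `1` if `κ i = none`,
`(p - 1) + (|J| - 1) ≤ p + |J|` if `κ i = some j`. -/
theorem row_sum_le (s : Sys ι J) (κ : ι → Option J) :
    ∑ κ' : ι → Option J, ∏ i, |s.gram i (κ i) (κ' i)| ≤ s.ps κ := by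
  have h1 : ∑ κ' : ι → Option J, ∏ i, |s.gram i (κ i) (κ' i)| =
      ∏ i, ∑ a' : Option J, |s.gram i (κ i) a'| := by
    rw [Finset.prod_univ_sum, Fintype.piFinset_univ]
  have h2 : s.ps κ = ∏ i, if (κ i).isSome then ((s.pr i : ℝ) + Fintype.card J) else 1 := by
    unfold Sys.ps supp
    rw [prod_filter]
  rw [h1, h2]
  refine prod_le_prod (fun i _ => sum_nonneg fun _ _ => abs_nonneg _) fun i _ => ?_
  rw [Fintype.sum_option]
  rcases hκ : κ i with _ | j
  · simp [Sys.gram]
  · simp only [Sys.gram, abs_zero, zero_add, Option.isSome_some, if_true]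
    have hp : (2 : ℝ) ≤ s.pr i := by exact_mod_cast (s.prime i).two_le
    calc ∑ j' : J, |if j = j' then (s.pr i : ℝ) - 1 else -1|
        ≤ ∑ j' : J, ((if j = j' then (s.pr i : ℝ) - 1 else 0) + 1) := by
          refine sum_le_sum fun j' _ => ?_
          split_ifs
          · rw [abs_of_nonneg (by linarith)]; linarith
          · simp
      _ = ((s.pr i : ℝ) - 1) + Fintype.card J := by
          rw [sum_add_distrib, sum_ite_eq univ j (fun _ => (s.pr i : ℝ) - 1)]
          simp
      _ ≤ (s.pr i : ℝ) + Fintype.card J := by linarith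

end Pool.Agent.Lib.H56G
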