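import Pool.Agent.Lib.H56G.Gram2
import Pool.Agent.Lib.H56G.Schur1

/-!
# Chunk SCH3: lower bound for the mean square
-/

open Finset

namespace Pool.Agent.Lib.H56G

variable {ι J : Type} [Fintype ι] [DecidableEq ι] [Fintype J] [DecidableEq J]

theorem sch3_gram_symm (s : Sys ι J) (i : ι) (a b : Option J) : s.gram i a b = s.gram i b a := by
  cases a with
  | none => cases b <;> rfl
  | some j =>
    cases b with
    | none => rfl
    | some j' =>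
      simp only [Sys.gram]
      by_cases h : j = j'
      · subst h; rfl
      · rw [if_neg h, if_neg (fun h' => h h'.symm)]

theorem sch3_diag (s : Sys ι J) (κ : ι → Option J) : ∏ i, s.gram i (κ i) (κ i) = s.ph κ := by
  unfold Sys.ph Sys.phi supp
  rw [Finset.prod_filter]
  apply Finset.prod_congr rfl
  intro i _
  cases h : κ i with
  | none => simp [Sys.gram]
  | some j => simp [Sys.gram]

theorem sch3_ph_nonneg (s : Sys ι J) (κ : ι → Option J) : 0 ≤ s.ph κ := by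
  unfold Sys.ph Sys.phi
  apply Finset.prod_nonneg
  intro i _
  have h : (1 : ℝ) ≤ s.pr i := by exact_mod_cast (s.prime i).one_le
  linarith

theorem sch3_r_nonneg (s : Sys ι J) (κ : ι → Option J) : 0 ≤ s.r κ := by
  unfold Sys.r Sys.rho
  apply Finset.prod_nonneg
  intro i _
  positivity

theorem sch3_quad (s : Sys ι J) (c : (ι → Option J) → ℝ) :
    ∑ κ, (c κ) ^ 2 * (2 * s.ph κ - s.ps κ)
      ≤ ∑ κ, ∑ κ', c κ * c κ' * ∏ i, s.gram i (κ i) (κ' i) := by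
  set G : (ι → Option J) → (ι → Option J) → ℝ := fun κ κ' => ∏ i, s.gram i (κ i) (κ' i) with hG
  have hsymm : ∀ κ κ', G κ κ' = G κ' κ := fun κ κ' =>
    Finset.prod_congr rfl fun i _ => sch3_gram_symm s i _ _
  have hdiag : ∀ κ, G κ κ = s.ph κ := fun κ => sch3_diag s κ
  have hterm : ∀ κ κ', (if κ = κ' then 2 * (c κ) ^ 2 * s.ph κ else 0)
      - ((c κ) ^ 2 / 2 * |G κ κ'| + (c κ') ^ 2 / 2 * |G κ' κ|) ≤ c κ * c κ' * G κ κ' := by
    intro κ κ'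
    by_cases h : κ = κ'
    · subst h
      rw [if_pos rfl, hdiag, abs_of_nonneg (sch3_ph_nonneg s κ)]
      apply le_of_eq; ring
    · rw [if_neg h, hsymm κ' κ]
      have h1 := abs_nonneg (G κ κ')
      have h2 : -(|c κ * c κ'| * |G κ κ'|) ≤ c κ * c κ' * G κ κ' := by
        rw [← abs_mul]; exact neg_abs_le _
      have h3 : |c κ * c κ'| ≤ ((c κ) ^ 2 + (c κ') ^ 2) / 2 := by
        rw [abs_le]
        constructor
        · nlinarith [sq_nonneg (c κ + c κ')]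
        · nlinarith [sq_nonneg (c κ - c κ')]
      have h4 : |c κ * c κ'| * |G κ κ'| ≤ ((c κ) ^ 2 + (c κ') ^ 2) / 2 * |G κ κ'| :=
        mul_le_mul_of_nonneg_right h3 h1
      linarith
  have hrow : ∀ κ, ∑ κ', |G κ κ'| ≤ s.ps κ := by
    intro κ
    refine le_trans (le_of_eq ?_) (row_sum_le s κ)
    apply Finset.sum_congr rfl
    intro κ' _
    rw [hG, Finset.abs_prod]
  have hA : ∑ κ, ∑ κ', (if κ = κ' then 2 * (c κ) ^ 2 * s.ph κ else 0)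
      = ∑ κ, 2 * (c κ) ^ 2 * s.ph κ := by
    apply Finset.sum_congr rfl
    intro κ _
    simp
  have hB : ∑ κ, ∑ κ', (c κ) ^ 2 / 2 * |G κ κ'| ≤ ∑ κ, (c κ) ^ 2 / 2 * s.ps κ := by
    apply Finset.sum_le_sum
    intro κ _
    rw [← Finset.mul_sum]
    exact mul_le_mul_of_nonneg_left (hrow κ) (by positivity)
  have hC : ∑ κ, ∑ κ', (c κ') ^ 2 / 2 * |G κ' κ| ≤ ∑ κ, (c κ) ^ 2 / 2 * s.ps κ := by
    rw [Finset.sum_comm]
    exact hB
  have hsum : ∑ κ, ∑ κ', ((if κ = κ' then 2 * (c κ) ^ 2 * s.ph κ else 0)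
      - ((c κ) ^ 2 / 2 * |G κ κ'| + (c κ') ^ 2 / 2 * |G κ' κ|))
      ≤ ∑ κ, ∑ κ', c κ * c κ' * G κ κ' :=
    Finset.sum_le_sum fun κ _ => Finset.sum_le_sum fun κ' _ => hterm κ κ'
  have hsplit : ∑ κ, ∑ κ', ((if κ = κ' then 2 * (c κ) ^ 2 * s.ph κ else 0)
      - ((c κ) ^ 2 / 2 * |G κ κ'| + (c κ') ^ 2 / 2 * |G κ' κ|))
      = (∑ κ, ∑ κ', (if κ = κ' then 2 * (c κ) ^ 2 * s.ph κ else 0))
        - ((∑ κ, ∑ κ', (c κ) ^ 2 / 2 * |G κ κ'|) + ∑ κ, ∑ κ', (c κ') ^ 2 / 2 * |G κ' κ|) := by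
    simp only [Finset.sum_sub_distrib, Finset.sum_add_distrib]
  have hfin : ∑ κ, (c κ) ^ 2 * (2 * s.ph κ - s.ps κ)
      = ∑ κ, 2 * (c κ) ^ 2 * s.ph κ
        - (∑ κ, (c κ) ^ 2 / 2 * s.ps κ + ∑ κ, (c κ) ^ 2 / 2 * s.ps κ) := by
    rw [← Finset.sum_add_distrib, ← Finset.sum_sub_distrib]
    apply Finset.sum_congr rfl
    intro κ _
    ring
  rw [hfin]
  rw [hsplit, hA] at hsum
  linarith

/-- Lower bound. As before; the diagonal entry is `G κ κ = ph κ`, the sum of the absolute values of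
the off-diagonal entries of the row `κ` is at most `ps κ - ph κ`. -/
theorem le_sum_sq (s : Sys ι J) (c : (ι → Option J) → ℝ) (D : ℝ) (hD : 1 ≤ D)
    (hc : ∀ κ, c κ ≠ 0 → s.r κ ≤ D) (Y : ℕ) :
    Y * ∑ κ, (c κ) ^ 2 * (2 * s.ph κ - s.ps κ) - 2 * D ^ 4 * (∑ κ, |c κ|) ^ 2
      ≤ ∑ t ∈ Icc 1 Y, (∑ κ, c κ * s.U κ t) ^ 2 := by
  have hexp : ∑ t ∈ Icc 1 Y, (∑ κ, c κ * s.U κ t) ^ 2
      = ∑ κ, ∑ κ', c κ * c κ' * ∑ t ∈ Icc 1 Y, s.U κ t * s.U κ' t := by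
    have h1 : ∀ t, (∑ κ, c κ * s.U κ t) ^ 2
        = ∑ κ, ∑ κ', c κ * c κ' * (s.U κ t * s.U κ' t) := by
      intro t
      rw [sq, Finset.sum_mul_sum]
      apply Finset.sum_congr rfl; intro κ _
      apply Finset.sum_congr rfl; intro κ' _
      ring
    simp only [h1]
    rw [Finset.sum_comm]
    apply Finset.sum_congr rfl; intro κ _
    rw [Finset.sum_comm]
    apply Finset.sum_congr rfl; intro κ' _
    rw [Finset.mul_sum]
  rw [hexp]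
  have hterm : ∀ κ κ', (Y : ℝ) * (c κ * c κ' * ∏ i, s.gram i (κ i) (κ' i))
      - 2 * D ^ 4 * (|c κ| * |c κ'|) ≤ c κ * c κ' * ∑ t ∈ Icc 1 Y, s.U κ t * s.U κ' t := by
    intro κ κ'
    by_cases h1 : c κ = 0
    · simp [h1]
    by_cases h2 : c κ' = 0
    · simp [h2]
    have hr := hc κ h1
    have hr' := hc κ' h2
    have hb := abs_sum_U_mul_U_sub_le s κ κ' Y
    set T := ∑ t ∈ Icc 1 Y, s.U κ t * s.U κ' t
    set g := ∏ i, s.gram i (κ i) (κ' i)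
    have hrr : s.r κ * s.r κ' ≤ D * D :=
      mul_le_mul hr hr' (sch3_r_nonneg s κ') (by linarith)
    have hrr0 : 0 ≤ s.r κ * s.r κ' := mul_nonneg (sch3_r_nonneg s κ) (sch3_r_nonneg s κ')
    have hrr2 : (s.r κ * s.r κ') ^ 2 ≤ D ^ 4 := by
      calc (s.r κ * s.r κ') ^ 2 ≤ (D * D) ^ 2 := by gcongr
        _ = D ^ 4 := by ring
    have hb2 : |T - Y * g| ≤ 2 * D ^ 4 := by linarith
    have h3 : |c κ * c κ' * (T - Y * g)| ≤ |c κ| * |c κ'| * (2 * D ^ 4) := by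
      rw [abs_mul, abs_mul]
      exact mul_le_mul_of_nonneg_left hb2 (by positivity)
    have h4 := neg_abs_le (c κ * c κ' * (T - Y * g))
    nlinarith
  have hsum : ∑ κ, ∑ κ', ((Y : ℝ) * (c κ * c κ' * ∏ i, s.gram i (κ i) (κ' i))
      - 2 * D ^ 4 * (|c κ| * |c κ'|))
      ≤ ∑ κ, ∑ κ', c κ * c κ' * ∑ t ∈ Icc 1 Y, s.U κ t * s.U κ' t :=
    Finset.sum_le_sum fun κ _ => Finset.sum_le_sum fun κ' _ => hterm κ κ'
  have hsplit : ∑ κ, ∑ κ', ((Y : ℝ) * (c κ * c κ' * ∏ i, s.gram i (κ i) (κ' i))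
      - 2 * D ^ 4 * (|c κ| * |c κ'|))
      = Y * (∑ κ, ∑ κ', c κ * c κ' * ∏ i, s.gram i (κ i) (κ' i))
        - 2 * D ^ 4 * (∑ κ, |c κ|) ^ 2 := by
    rw [sq, Finset.sum_mul_sum]
    simp only [Finset.sum_sub_distrib, Finset.mul_sum]
  rw [hsplit] at hsum
  have hq := mul_le_mul_of_nonneg_left (sch3_quad s c) (Nat.cast_nonneg (α := ℝ) Y)
  linarith

end Pool.Agent.Lib.H56G
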