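import Pool.Agent.Lib.H56G.Cher1

/-!
# Chunk CHER2: exponential moment of the level (Chernoff bound)
-/

open Finset

namespace Pool.Agent.Lib.H56G

variable {ι J : Type} [Fintype ι] [DecidableEq ι] [Fintype J] [DecidableEq J]

theorem cher2_vv_nonneg (s : Sys ι J) (bb : Finset ι → ℝ) (A : Finset ι) : 0 ≤ vv s bb A :=
  mul_nonneg (sq_nonneg _) (zero_le_one.trans (one_le_phi s A))

theorem cher2_vv_empty (s : Sys ι J) (bb : Finset ι → ℝ) : vv s bb ∅ = 1 := by
  simp [vv, gam, Sys.phi]

theorem cher2_rho_empty (s : Sys ι J) : s.rho (∅ : Finset ι) = 1 := by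
  simp [Sys.rho]

theorem cher2_one_le_pow (s : Sys ι J) {σ : ℝ} (hσ : 0 ≤ σ) (A : Finset ι) :
    1 ≤ (s.rho A) ^ σ :=
  Real.one_le_rpow (one_le_rho s A) hσ

theorem cher2_m_nonneg (s : Sys ι J) (bb : Finset ι → ℝ) {σ : ℝ} (hσ : 0 ≤ σ) :
    0 ≤ ∑ A ∈ univ.filter (fun A : Finset ι => A ≠ ∅), vv s bb A * ((s.rho A) ^ σ - 1) :=
  Finset.sum_nonneg fun A _ =>
    mul_nonneg (cher2_vv_nonneg s bb A) (sub_nonneg.2 (cher2_one_le_pow s hσ A))

theorem cher2_wt_nonneg (s : Sys ι J) (bb : Finset ι → ℝ) (κ : ι → Option J) : 0 ≤ wt s bb κ :=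
  Finset.prod_nonneg fun _ _ => cher2_vv_nonneg s bb _

/-- All forms (induction over the forms which have been changed; `r κ = ∏ ρ(part κ j)`). -/
theorem cher_moment (s : Sys ι J) (bb : Finset ι → ℝ) (σ : ℝ) (hσ : 0 ≤ σ) :
    ∑ κ : ι → Option J, wt s bb κ * (s.r κ) ^ σ
      ≤ (1 + ∑ A ∈ univ.filter (fun A : Finset ι => A ≠ ∅),
          vv s bb A * ((s.rho A) ^ σ - 1)) ^ (Fintype.card J) * ZZ s bb := by
  have hm := cher2_m_nonneg s bb hσ
  set m : ℝ := ∑ A ∈ univ.filter (fun A : Finset ι => A ≠ ∅),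
    vv s bb A * ((s.rho A) ^ σ - 1) with hmdef
  have key : ∀ T : Finset J,
      ∑ κ : ι → Option J, ∏ j, (fun (j : J) (A : Finset ι) =>
        if j ∈ T then vv s bb A * (s.rho A) ^ σ else vv s bb A) j (part κ j)
        ≤ (1 + m) ^ T.card * ZZ s bb := by
    intro T
    induction T using Finset.induction_on with
    | empty => simp [ZZ, wt]
    | insert j0 T hj0 ih =>
      rw [Finset.card_insert_of_notMem hj0, pow_succ']
      have h1 := cher_step
        (fun (j : J) (A : Finset ι) => if j ∈ T then vv s bb A * (s.rho A) ^ σ else vv s bb A)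
        (fun (j : J) (A : Finset ι) =>
          if j ∈ insert j0 T then vv s bb A * (s.rho A) ^ σ else vv s bb A) j0
        (by
          intro j A
          split_ifs
          · exact mul_nonneg (cher2_vv_nonneg s bb A)
              (zero_le_one.trans (cher2_one_le_pow s hσ A))
          · exact cher2_vv_nonneg s bb A)
        (by
          intro j hj
          funext A
          simp [Finset.mem_insert, hj])
        (by
          intro A
          simp only [hj0, if_false, Finset.mem_insert_self, if_true]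
          exact le_mul_of_one_le_right (cher2_vv_nonneg s bb A) (cher2_one_le_pow s hσ A))
        (by simp [hj0, cher2_vv_empty])
        (by simp [cher2_vv_empty, cher2_rho_empty])
      refine h1.trans ?_
      have h2 : (∑ A ∈ univ.filter (fun A : Finset ι => A ≠ ∅),
          ((if j0 ∈ insert j0 T then vv s bb A * (s.rho A) ^ σ else vv s bb A) -
            (if j0 ∈ T then vv s bb A * (s.rho A) ^ σ else vv s bb A))) = m := by
        rw [hmdef]
        refine Finset.sum_congr rfl fun A _ => ?_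
        simp only [hj0, if_false, Finset.mem_insert_self, if_true]
        ring
      rw [h2, mul_assoc]
      exact mul_le_mul_of_nonneg_left ih (by linarith)
  have h3 := key univ
  rw [Finset.card_univ] at h3
  refine le_of_eq_of_le ?_ h3
  refine Finset.sum_congr rfl fun κ _ => ?_
  simp only [Finset.mem_univ, if_true, Finset.prod_mul_distrib]
  rw [r_eq_prod_part, wt, Real.finsetProd_rpow]
  intro j _
  exact zero_le_one.trans (one_le_rho s _)

/-- Chernoff bound. -/
theorem cher (s : Sys ι J) (bb : Finset ι → ℝ) (σ z D : ℝ) (hσ : 0 ≤ σ) (hz : 0 < z)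
    (hD : 0 < D) :
    ∑ κ ∈ univ.filter (fun κ : ι → Option J => D < s.r κ * z), wt s bb κ
      ≤ (z / D) ^ σ * (1 + ∑ A ∈ univ.filter (fun A : Finset ι => A ≠ ∅),
          vv s bb A * ((s.rho A) ^ σ - 1)) ^ (Fintype.card J) * ZZ s bb := by
  have h0 := cher_moment s bb σ hσ
  have hzD : 0 ≤ (z / D) ^ σ := (Real.rpow_pos_of_pos (div_pos hz hD) σ).le
  have hr : ∀ κ : ι → Option J, 0 ≤ s.r κ := fun κ => zero_le_one.trans (one_le_rho s _)
  calc ∑ κ ∈ univ.filter (fun κ : ι → Option J => D < s.r κ * z), wt s bb κ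
      ≤ ∑ κ ∈ univ.filter (fun κ : ι → Option J => D < s.r κ * z),
          (z / D) ^ σ * (wt s bb κ * (s.r κ) ^ σ) := by
        refine Finset.sum_le_sum fun κ hκ => ?_
        have hlt : D < s.r κ * z := (Finset.mem_filter.1 hκ).2
        have h1 : 1 ≤ (z / D) ^ σ * (s.r κ) ^ σ := by
          rw [← Real.mul_rpow (div_pos hz hD).le (hr κ)]
          refine Real.one_le_rpow ?_ hσ
          rw [div_mul_eq_mul_div, le_div_iff₀ hD]
          nlinarith
        calc wt s bb κ = wt s bb κ * 1 := (mul_one _).symm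
          _ ≤ wt s bb κ * ((z / D) ^ σ * (s.r κ) ^ σ) :=
            mul_le_mul_of_nonneg_left h1 (cher2_wt_nonneg s bb κ)
          _ = (z / D) ^ σ * (wt s bb κ * (s.r κ) ^ σ) := by ring
    _ ≤ ∑ κ : ι → Option J, (z / D) ^ σ * (wt s bb κ * (s.r κ) ^ σ) := by
        refine Finset.sum_le_univ_sum_of_nonneg fun κ => ?_
        exact mul_nonneg hzD (mul_nonneg (cher2_wt_nonneg s bb κ) (Real.rpow_nonneg (hr κ) σ))
    _ = (z / D) ^ σ * ∑ κ : ι → Option J, wt s bb κ * (s.r κ) ^ σ := by
        rw [Finset.mul_sum]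
    _ ≤ (z / D) ^ σ * ((1 + ∑ A ∈ univ.filter (fun A : Finset ι => A ≠ ∅),
          vv s bb A * ((s.rho A) ^ σ - 1)) ^ (Fintype.card J) * ZZ s bb) :=
        mul_le_mul_of_nonneg_left h0 hzD
    _ = _ := by ring

end Pool.Agent.Lib.H56G
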