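import Pool.Agent.Lib.H56G.Coef2

/-!
# Chunk COEF3: norms of `cp` and `cc`
-/

open Finset

namespace Pool.Agent.Lib.H56G

variable {ι J : Type} [Fintype ι] [DecidableEq ι] [Fintype J] [DecidableEq J]

/-- Conclusion: `Σ cp^2 ph ≤ τ^2 ZZ + (weight of the levels > D / z)`. (For `κ` with `r κ > D`
both `cc` and `cp` vanish.) -/
theorem sum_cp_sq_le (s : Sys ι J) (bb : Finset ι → ℝ) (h0 : ∀ A, 0 ≤ bb A)
    (hsum : ∑ A ∈ univ.filter (fun A : Finset ι => A ≠ ∅), bb A = 1) (z D τ : ℝ)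
    (hz1 : 1 ≤ z) (hz : ∀ A, bb A ≠ 0 → s.rho A ≤ z) (hτ0 : 0 ≤ τ)
    (hτ : ∀ κ : ι → Option J, s.r κ ≤ D →
      ∑ i ∈ supp κ, ∑ A ∈ univ.filter (fun A : Finset ι => i ∈ A), bb A ≤ τ) (j0 : J) :
    ∑ κ ∈ noJ j0, (cp j0 (cc s bb D) κ) ^ 2 * s.ph κ
      ≤ τ ^ 2 * ZZ s bb + ∑ κ ∈ univ.filter (fun κ : ι → Option J => D < s.r κ * z), wt s bb κ := by
  have hph : ∀ κ : ι → Option J, 0 ≤ s.ph κ := fun κ =>
    zero_le_one.trans (one_le_phi s (supp κ))
  have hterm : ∀ κ ∈ noJ j0, (cp j0 (cc s bb D) κ) ^ 2 * s.ph κ ≤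
      τ ^ 2 * wt s bb κ + if D < s.r κ * z then wt s bb κ else 0 := by
    intro κ hκ
    have hw := wt_nonneg s bb κ
    have h1 := abs_cp_le s bb h0 hsum D j0 κ hκ
    rcases lt_or_ge D (s.r κ) with hr | hr
    · have h2 : cc s bb D κ = 0 := by
        unfold cc
        rw [if_neg (not_le.2 hr)]
      rw [h2, abs_zero] at h1
      have h3 : cp j0 (cc s bb D) κ = 0 := abs_eq_zero.1 (le_antisymm h1 (abs_nonneg _))
      rw [h3]
      have h4 : 0 ≤ τ ^ 2 * wt s bb κ := by positivity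
      split_ifs
      · simp only [ne_eq, OfNat.ofNat_ne_zero, not_false_eq_true, zero_pow, zero_mul]
        linarith
      · simp only [ne_eq, OfNat.ofNat_ne_zero, not_false_eq_true, zero_pow, zero_mul]
        linarith
    · have h5 := cc_sq_mul_ph s bb D κ hr
      rcases lt_or_ge D (s.r κ * z) with hz2 | hz2
      · rw [if_pos hz2]
        have h6 : (cp j0 (cc s bb D) κ) ^ 2 ≤ (cc s bb D κ) ^ 2 := sq_le_sq.2 h1
        have h7 := mul_le_mul_of_nonneg_right h6 (hph κ)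
        have h4 : 0 ≤ τ ^ 2 * wt s bb κ := by positivity
        rw [h5] at h7
        linarith
      · rw [if_neg (not_lt.2 hz2), add_zero]
        have h8 := abs_cp_le_mul s bb h0 hsum z D hz j0 κ hκ hz2
        have h9 : |cp j0 (cc s bb D) κ| ≤ |cc s bb D κ| * τ :=
          h8.trans (mul_le_mul_of_nonneg_left (hτ κ hr) (abs_nonneg _))
        have h10 : (cp j0 (cc s bb D) κ) ^ 2 ≤ τ ^ 2 * (cc s bb D κ) ^ 2 := by
          have h11 : |cp j0 (cc s bb D) κ| ≤ |τ * cc s bb D κ| := by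
            rw [abs_mul, abs_of_nonneg hτ0, mul_comm]
            exact h9
          have h12 := sq_le_sq.2 h11
          rwa [mul_pow] at h12
        have h7 := mul_le_mul_of_nonneg_right h10 (hph κ)
        rw [mul_assoc, h5] at h7
        exact h7
  have hnn : ∀ κ : ι → Option J, 0 ≤
      τ ^ 2 * wt s bb κ + if D < s.r κ * z then wt s bb κ else 0 := by
    intro κ
    have hw := wt_nonneg s bb κ
    have h4 : 0 ≤ τ ^ 2 * wt s bb κ := by positivity
    split_ifs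
    · linarith
    · linarith
  calc ∑ κ ∈ noJ j0, (cp j0 (cc s bb D) κ) ^ 2 * s.ph κ
      ≤ ∑ κ ∈ noJ j0, (τ ^ 2 * wt s bb κ + if D < s.r κ * z then wt s bb κ else 0) :=
        Finset.sum_le_sum hterm
    _ ≤ ∑ κ, (τ ^ 2 * wt s bb κ + if D < s.r κ * z then wt s bb κ else 0) :=
        Finset.sum_le_sum_of_subset_of_nonneg (Finset.subset_univ _) fun κ _ _ => hnn κ
    _ = τ ^ 2 * ZZ s bb +
        ∑ κ ∈ univ.filter (fun κ : ι → Option J => D < s.r κ * z), wt s bb κ := by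
        rw [Finset.sum_add_distrib, ← Finset.mul_sum, Finset.sum_filter]
        rfl

/-- Lower bound for the norm. -/
theorem le_sum_cc_sq (s : Sys ι J) (bb : Finset ι → ℝ) (z D : ℝ) (hz1 : 1 ≤ z) :
    ZZ s bb - ∑ κ ∈ univ.filter (fun κ : ι → Option J => D < s.r κ * z), wt s bb κ
      ≤ ∑ κ, (cc s bb D κ) ^ 2 * s.ph κ := by
  have hph : ∀ κ : ι → Option J, 0 ≤ s.ph κ := fun κ =>
    zero_le_one.trans (one_le_phi s (supp κ))
  unfold ZZ
  rw [Finset.sum_filter, ← Finset.sum_sub_distrib]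
  refine Finset.sum_le_sum fun κ _ => ?_
  split_ifs with h
  · rw [sub_self]
    exact mul_nonneg (sq_nonneg _) (hph κ)
  · rw [sub_zero]
    have h1 : 1 ≤ s.r κ := one_le_rho s (supp κ)
    have h2 : s.r κ ≤ D := by
      have h3 : s.r κ * 1 ≤ s.r κ * z := mul_le_mul_of_nonneg_left hz1 (by linarith)
      linarith [not_lt.1 h]
    rw [cc_sq_mul_ph s bb D κ h2]

end Pool.Agent.Lib.H56G
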