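import Pool.Agent.Lib.H56G.Gram2
import Pool.Agent.Lib.H56G.Schur1

/-!
# Chunk SCH2: upper bound for the mean square
-/

open Finset

namespace Pool.Agent.Lib.H56G

variable {ι J : Type} [Fintype ι] [DecidableEq ι] [Fintype J] [DecidableEq J]

omit [Fintype ι] [DecidableEq ι] [Fintype J] in
theorem sch2_gram_symm (s : Sys ι J) (i : ι) (a a' : Option J) :
    s.gram i a a' = s.gram i a' a := by
  rcases a with _ | j <;> rcases a' with _ | j' <;> simp only [Sys.gram]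
  exact if_congr eq_comm rfl rfl

/-- the error term of one pair -/
theorem sch2_pair (s : Sys ι J) (c : (ι → Option J) → ℝ) (D : ℝ) (hD : 1 ≤ D)
    (hc : ∀ κ, c κ ≠ 0 → s.r κ ≤ D) (Y : ℕ) (κ κ' : ι → Option J) :
    c κ * c κ' * ∑ t ∈ Icc 1 Y, s.U κ t * s.U κ' t ≤
      Y * (((c κ) ^ 2 + (c κ') ^ 2) / 2 * ∏ i, |s.gram i (κ i) (κ' i)|) +
        2 * D ^ 4 * (|c κ| * |c κ'|) := by
  have hr : ∀ κ, 0 ≤ s.r κ := fun κ => prod_nonneg fun i _ => Nat.cast_nonneg _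
  have h1 := abs_sum_U_mul_U_sub_le s κ κ' Y
  set S := ∑ t ∈ Icc 1 Y, s.U κ t * s.U κ' t
  set G := ∏ i, s.gram i (κ i) (κ' i) with hG
  have hG' : ∏ i, |s.gram i (κ i) (κ' i)| = |G| := by rw [hG, abs_prod]
  rw [hG']
  have h2 : c κ * c κ' * S = Y * (c κ * c κ' * G) + c κ * c κ' * (S - Y * G) := by ring
  have h3 : c κ * c κ' * G ≤ ((c κ) ^ 2 + (c κ') ^ 2) / 2 * |G| := by
    have h4 : c κ * c κ' * G ≤ |c κ * c κ'| * |G| := by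
      rw [← abs_mul]; exact le_abs_self _
    have h5 : |c κ * c κ'| ≤ ((c κ) ^ 2 + (c κ') ^ 2) / 2 := by
      rw [abs_mul]
      nlinarith [sq_nonneg (|c κ| - |c κ'|), sq_abs (c κ), sq_abs (c κ')]
    exact h4.trans (mul_le_mul_of_nonneg_right h5 (abs_nonneg _))
  have h6 : c κ * c κ' * (S - Y * G) ≤ 2 * D ^ 4 * (|c κ| * |c κ'|) := by
    by_cases h7 : c κ = 0
    · rw [h7]; simp
    by_cases h8 : c κ' = 0
    · rw [h8]; simp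
    have h9 : |S - Y * G| ≤ 2 * D ^ 4 := by
      refine h1.trans ?_
      have h10 : s.r κ * s.r κ' ≤ D * D :=
        mul_le_mul (hc κ h7) (hc κ' h8) (hr κ') (by linarith)
      have h11 : (s.r κ * s.r κ') ^ 2 ≤ (D * D) ^ 2 :=
        pow_le_pow_left₀ (mul_nonneg (hr κ) (hr κ')) h10 2
      have h12 : (D * D) ^ 2 = D ^ 4 := by ring
      linarith
    calc c κ * c κ' * (S - Y * G) ≤ |c κ * c κ' * (S - Y * G)| := le_abs_self _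
      _ = |c κ| * |c κ'| * |S - Y * G| := by rw [abs_mul, abs_mul]
      _ ≤ |c κ| * |c κ'| * (2 * D ^ 4) := by gcongr
      _ = _ := by ring
  rw [h2]
  have hY : (0 : ℝ) ≤ Y := Nat.cast_nonneg Y
  exact add_le_add (mul_le_mul_of_nonneg_left h3 hY) h6

/-- Upper bound. `Σ_t (Σ c U)^2 = Σ_{κ,κ'} c c' Σ_t U U'`; by `abs_sum_U_mul_U_sub_le` this is
`Y Σ c c' G + error`, `|error| ≤ Σ |c||c'| 2 (r r')^2 ≤ 2 D^4 (Σ|c|)^2`; and
`|c c' G| ≤ (c^2 + c'^2)/2 |G|`, `G` symmetric, `row_sum_le`. -/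
theorem sum_sq_le (s : Sys ι J) (c : (ι → Option J) → ℝ) (D : ℝ) (hD : 1 ≤ D)
    (hc : ∀ κ, c κ ≠ 0 → s.r κ ≤ D) (Y : ℕ) :
    ∑ t ∈ Icc 1 Y, (∑ κ, c κ * s.U κ t) ^ 2
      ≤ Y * ∑ κ, (c κ) ^ 2 * s.ps κ + 2 * D ^ 4 * (∑ κ, |c κ|) ^ 2 := by
  have hY : (0 : ℝ) ≤ Y := Nat.cast_nonneg Y
  have e1 : ∑ t ∈ Icc 1 Y, (∑ κ, c κ * s.U κ t) ^ 2 =
      ∑ κ, ∑ κ', c κ * c κ' * ∑ t ∈ Icc 1 Y, s.U κ t * s.U κ' t := by
    have : ∀ t, (∑ κ, c κ * s.U κ t) ^ 2 = ∑ κ, ∑ κ', c κ * c κ' * (s.U κ t * s.U κ' t) := by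
      intro t
      rw [sq, sum_mul_sum]
      refine sum_congr rfl fun κ _ => sum_congr rfl fun κ' _ => by ring
    rw [sum_congr rfl fun t _ => this t, sum_comm]
    refine sum_congr rfl fun κ _ => ?_
    rw [sum_comm]
    refine sum_congr rfl fun κ' _ => ?_
    rw [mul_sum]
  have e2 : ∑ κ : ι → Option J, ∑ κ' : ι → Option J, ((c κ) ^ 2 + (c κ') ^ 2) / 2 * ∏ i, |s.gram i (κ i) (κ' i)| =
      ∑ κ, ∑ κ' : ι → Option J, (c κ) ^ 2 * ∏ i, |s.gram i (κ i) (κ' i)| := by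
    have e3 : ∑ κ : ι → Option J, ∑ κ' : ι → Option J, (c κ') ^ 2 * ∏ i, |s.gram i (κ i) (κ' i)| =
        ∑ κ, ∑ κ' : ι → Option J, (c κ) ^ 2 * ∏ i, |s.gram i (κ i) (κ' i)| := by
      rw [sum_comm]
      refine sum_congr rfl fun κ _ => sum_congr rfl fun κ' _ => ?_
      congr 1
      refine prod_congr rfl fun i _ => ?_
      rw [sch2_gram_symm]
    have e4 : ∀ κ κ' : ι → Option J, ((c κ) ^ 2 + (c κ') ^ 2) / 2 * ∏ i, |s.gram i (κ i) (κ' i)| =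
        (c κ) ^ 2 * (∏ i, |s.gram i (κ i) (κ' i)|) / 2 +
          (c κ') ^ 2 * (∏ i, |s.gram i (κ i) (κ' i)|) / 2 := fun κ κ' => by ring
    simp only [e4, sum_add_distrib, ← sum_div]
    rw [e3]
    ring
  have e5 : ∑ κ, ∑ κ' : ι → Option J, (c κ) ^ 2 * ∏ i, |s.gram i (κ i) (κ' i)| ≤
      ∑ κ, (c κ) ^ 2 * s.ps κ := by
    refine sum_le_sum fun κ _ => ?_
    rw [← mul_sum]
    exact mul_le_mul_of_nonneg_left (row_sum_le s κ) (sq_nonneg _)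
  have e6 : (∑ κ, |c κ|) ^ 2 = ∑ κ, ∑ κ', |c κ| * |c κ'| := by
    rw [sq, sum_mul_sum]
  rw [e1]
  calc ∑ κ, ∑ κ', c κ * c κ' * ∑ t ∈ Icc 1 Y, s.U κ t * s.U κ' t
      ≤ ∑ κ, ∑ κ', (Y * (((c κ) ^ 2 + (c κ') ^ 2) / 2 * ∏ i, |s.gram i (κ i) (κ' i)|) +
        2 * D ^ 4 * (|c κ| * |c κ'|)) :=
        sum_le_sum fun κ _ => sum_le_sum fun κ' _ => sch2_pair s c D hD hc Y κ κ'
    _ = Y * (∑ κ, ∑ κ', ((c κ) ^ 2 + (c κ') ^ 2) / 2 * ∏ i, |s.gram i (κ i) (κ' i)|) +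
        2 * D ^ 4 * (∑ κ, ∑ κ', |c κ| * |c κ'|) := by
        simp only [sum_add_distrib, mul_sum]
    _ ≤ _ := by
        rw [e2, e6]
        exact add_le_add (mul_le_mul_of_nonneg_left e5 hY) le_rfl

end Pool.Agent.Lib.H56G
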