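import Pool.Agent.Lib.H56G.Maj2
import Pool.Agent.Lib.H56G.Schur2
import Pool.Agent.Lib.H56G.Cnt

/-!
# Chunk MAJ3: the majorant inequality
-/

open Finset

namespace Pool.Agent.Lib.H56G

variable {ι J : Type} [Fintype ι] [DecidableEq ι] [Fintype J] [DecidableEq J]

theorem maj3_exists_ins (j0 : J) (κ : ι → Option J) :
    ∃ κ' ∈ noJ j0, ∃ A : Finset ι, A ⊆ free κ' ∧ κ = ins κ' j0 A := by
  refine ⟨fun i => if κ i = some j0 then none else κ i, ?_, part κ j0, ?_, ?_⟩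
  · rw [off_mem_noJ]
    intro i
    by_cases h : κ i = some j0
    · simp [h]
    · simp [h]
  · intro i hi
    rw [off_mem_part] at hi
    rw [off_mem_free]
    simp [hi]
  · funext i
    simp only [ins, off_mem_part]
    by_cases h : κ i = some j0
    · simp [h]
    · simp [h]

theorem maj3_r_le (s : Sys ι J) (c : (ι → Option J) → ℝ) (D1 D2 : ℝ) (j0 : J)
    (hc : ∀ κ, c κ ≠ 0 → s.r κ ≤ D1) (κ : ι → Option J) (h : cmaj s c D2 j0 κ ≠ 0) :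
    s.r κ ≤ D1 * D2 := by
  obtain ⟨κ', hκ', A, hA, rfl⟩ := maj3_exists_ins j0 κ
  rw [cmaj_ins s c D2 j0 κ' hκ' A hA] at h
  by_cases h3 : s.rho A ≤ D2
  · rw [if_pos h3] at h
    have h0 : cp j0 c κ' ≠ 0 := by
      intro h4
      rw [h4] at h
      simp at h
    have hr := maj1_r_le_of_cp_ne s c D1 j0 hc κ' h0
    have hr1 : 1 ≤ s.r κ' := one_le_rho s (supp κ')
    rw [r_ins s κ' j0 A hA]
    have h5 := one_le_rho s A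
    have h6 : 0 ≤ D1 := by linarith
    exact mul_le_mul hr h3 (by linarith) h6
  · rw [if_neg h3] at h
    exact absurd rfl h

theorem maj3_abs_le (s : Sys ι J) (c : (ι → Option J) → ℝ) (D1 D2 V0 : ℝ) (j0 : J)
    (hV0 : 1 ≤ V0)
    (hc : ∀ κ, c κ ≠ 0 → s.r κ ≤ D1)
    (hcp : ∀ κ ∈ noJ j0, |cp j0 c κ| ≤ 1)
    (hV : ∀ κ ∈ noJ j0, s.r κ ≤ D1 → V0 ≤ s.VV D2 κ) (κ : ι → Option J) :
    |cmaj s c D2 j0 κ| ≤ 1 := by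
  obtain ⟨κ', hκ', A, hA, rfl⟩ := maj3_exists_ins j0 κ
  rw [cmaj_ins s c D2 j0 κ' hκ' A hA]
  by_cases h3 : s.rho A ≤ D2
  · rw [if_pos h3]
    by_cases h0 : cp j0 c κ' = 0
    · rw [h0]
      simp
    · have hr := maj1_r_le_of_cp_ne s c D1 j0 hc κ' h0
      have hVV := hV κ' hκ' hr
      have h5 := one_le_phi s A
      have h6 : 1 ≤ s.VV D2 κ' * s.phi A := by nlinarith
      rw [abs_div, abs_of_pos (by linarith : 0 < s.VV D2 κ' * s.phi A)]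
      rw [div_le_one (by linarith)]
      exact (hcp κ' hκ').trans h6
  · rw [if_neg h3]
    simp

theorem maj3_sum_abs_le (s : Sys ι J) (W : ℕ) (hW1 : 1 ≤ W) (hpr : ∀ i, W < s.pr i)
    (hJ : Fintype.card J ≤ W) (c : (ι → Option J) → ℝ) (D1 D2 V0 : ℝ) (hD1 : 1 ≤ D1)
    (hD2 : 1 ≤ D2) (j0 : J)
    (hV0 : 1 ≤ V0)
    (hc : ∀ κ, c κ ≠ 0 → s.r κ ≤ D1)
    (hcp : ∀ κ ∈ noJ j0, |cp j0 c κ| ≤ 1)
    (hV : ∀ κ ∈ noJ j0, s.r κ ≤ D1 → V0 ≤ s.VV D2 κ) :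
    ∑ κ, |cmaj s c D2 j0 κ| ≤ 3 * (D1 * D2) ^ 2 := by
  have h1 : ∑ κ, |cmaj s c D2 j0 κ| ≤
      ∑ κ : ι → Option J, if s.r κ ≤ D1 * D2 then (1 : ℝ) else 0 := by
    refine Finset.sum_le_sum ?_
    intro κ _
    by_cases h : s.r κ ≤ D1 * D2
    · rw [if_pos h]
      exact maj3_abs_le s c D1 D2 V0 j0 hV0 hc hcp hV κ
    · rw [if_neg h]
      by_cases h0 : cmaj s c D2 j0 κ = 0
      · rw [h0]
        simp
      · exact absurd (maj3_r_le s c D1 D2 j0 hc κ h0) h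
  refine h1.trans ?_
  rw [Finset.sum_boole]
  have h2 : 1 ≤ D1 * D2 := by nlinarith
  exact card_le s W hW1 hpr hJ (D1 * D2) h2

/-- The majorant inequality: the left side is `≤ Σ_{t ≤ Y} (Σ_κ cmaj κ U κ t)^2`, which is bounded
by `sum_sq_le` (level `D1 D2`), with `Σ |cmaj| ≤ #{κ : r κ ≤ D1 D2} ≤ 3 (D1 D2)^2` (`card_le`,
`|cmaj| ≤ 1` since `|cp| ≤ 1`, `V ≥ 1`, `φ ≥ 1`). -/
theorem maj (s : Sys ι J) (W : ℕ) (hW1 : 1 ≤ W) (hpr : ∀ i, W < s.pr i)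
    (hJ : Fintype.card J ≤ W) (c : (ι → Option J) → ℝ) (D1 D2 V0 K : ℝ) (hD1 : 1 ≤ D1)
    (hD2 : 1 ≤ D2) (hV0 : 1 ≤ V0) (hK0 : 0 ≤ K) (j0 : J)
    (hc : ∀ κ, c κ ≠ 0 → s.r κ ≤ D1)
    (hcp : ∀ κ ∈ noJ j0, |cp j0 c κ| ≤ 1)
    (hV : ∀ κ ∈ noJ j0, s.r κ ≤ D1 → V0 ≤ s.VV D2 κ)
    (hK : ∀ κ, s.r κ ≤ D1 * D2 → s.ps κ ≤ K * s.ph κ) (Y : ℕ) :
    ∑ t ∈ (Icc 1 Y).filter (fun t => ∀ i, ¬ s.pr i ∣ s.b j0 + s.M * t),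
        (∑ κ, c κ * s.U κ t) ^ 2
      ≤ Y * (K / V0) * ∑ κ ∈ noJ j0, (cp j0 c κ) ^ 2 * s.ph κ + 18 * (D1 * D2) ^ 8 := by
  have h12 : 1 ≤ D1 * D2 := by nlinarith
  have h1 : ∑ t ∈ (Icc 1 Y).filter (fun t => ∀ i, ¬ s.pr i ∣ s.b j0 + s.M * t),
        (∑ κ, c κ * s.U κ t) ^ 2 =
      ∑ t ∈ (Icc 1 Y).filter (fun t => ∀ i, ¬ s.pr i ∣ s.b j0 + s.M * t),
        (∑ κ, cmaj s c D2 j0 κ * s.U κ t) ^ 2 := by
    refine Finset.sum_congr rfl ?_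
    intro t ht
    rw [Finset.mem_filter] at ht
    rw [sum_cmaj_eq s c D1 D2 V0 j0 hV0 hc hV t ht.2]
  have h2 : ∑ t ∈ (Icc 1 Y).filter (fun t => ∀ i, ¬ s.pr i ∣ s.b j0 + s.M * t),
        (∑ κ, cmaj s c D2 j0 κ * s.U κ t) ^ 2 ≤
      ∑ t ∈ Icc 1 Y, (∑ κ, cmaj s c D2 j0 κ * s.U κ t) ^ 2 :=
    Finset.sum_le_sum_of_subset_of_nonneg (Finset.filter_subset _ _)
      (fun _ _ _ => sq_nonneg _)
  have h3 := sum_sq_le s (cmaj s c D2 j0) (D1 * D2) h12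
    (maj3_r_le s c D1 D2 j0 hc) Y
  have h4 := norm_cmaj_le s c D1 D2 V0 K j0 hV0 hK0 hc hV hK
  have h5 := maj3_sum_abs_le s W hW1 hpr hJ c D1 D2 V0 hD1 hD2 j0 hV0 hc hcp hV
  have h6 : 0 ≤ ∑ κ, |cmaj s c D2 j0 κ| := Finset.sum_nonneg (fun _ _ => abs_nonneg _)
  have h7 : (∑ κ, |cmaj s c D2 j0 κ|) ^ 2 ≤ (3 * (D1 * D2) ^ 2) ^ 2 :=
    pow_le_pow_left₀ h6 h5 2
  have hY : (0 : ℝ) ≤ (Y : ℝ) := Nat.cast_nonneg Y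
  rw [h1]
  refine h2.trans (h3.trans ?_)
  have h8 : (Y : ℝ) * ∑ κ, (cmaj s c D2 j0 κ) ^ 2 * s.ps κ ≤
      Y * (K / V0) * ∑ κ ∈ noJ j0, (cp j0 c κ) ^ 2 * s.ph κ := by
    rw [mul_assoc]
    exact mul_le_mul_of_nonneg_left h4 hY
  have h9 : 2 * (D1 * D2) ^ 4 * (∑ κ, |cmaj s c D2 j0 κ|) ^ 2 ≤ 18 * (D1 * D2) ^ 8 := by
    have h10 : 0 ≤ 2 * (D1 * D2) ^ 4 := by positivity
    calc 2 * (D1 * D2) ^ 4 * (∑ κ, |cmaj s c D2 j0 κ|) ^ 2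
        ≤ 2 * (D1 * D2) ^ 4 * (3 * (D1 * D2) ^ 2) ^ 2 :=
          mul_le_mul_of_nonneg_left h7 h10
      _ = 18 * (D1 * D2) ^ 8 := by ring
  linarith

end Pool.Agent.Lib.H56G
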