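import Pool.Agent.Lib.H56G.Off

/-!
# Chunk VVGE: the sum `V(κ)` over the free primes
-/

open Finset

namespace Pool.Agent.Lib.H56G

variable {ι J : Type} [Fintype ι] [DecidableEq ι] [Fintype J] [DecidableEq J]

theorem vvge_rho_insert (s : Sys ι J) (i : ι) (A : Finset ι) (hi : i ∉ A) :
    s.rho (insert i A) = (s.pr i : ℝ) * s.rho A := by
  unfold Sys.rho
  rw [Finset.prod_insert hi]

theorem vvge_phi_insert (s : Sys ι J) (i : ι) (A : Finset ι) (hi : i ∉ A) :
    s.phi (insert i A) = ((s.pr i : ℝ) - 1) * s.phi A := by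
  unfold Sys.phi
  rw [Finset.prod_insert hi]

theorem vvge_sum (i : ι) (F : Finset ι → ℝ) :
    ∑ A : Finset ι, (if i ∈ A then F A else 0)
      = ∑ A : Finset ι, (if i ∉ A then F (insert i A) else 0) := by
  rw [← Finset.sum_filter, ← Finset.sum_filter]
  apply Finset.sum_nbij' (fun A => A.erase i) (fun A => insert i A)
  · intro A hA
    simp
  · intro A hA
    simp
  · intro A hA
    simp only [Finset.mem_filter, Finset.mem_univ, true_and] at hA
    exact Finset.insert_erase hA
  · intro A hA
    simp only [Finset.mem_filter, Finset.mem_univ, true_and] at hA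
    exact Finset.erase_insert hA
  · intro A hA
    simp only [Finset.mem_filter, Finset.mem_univ, true_and] at hA
    rw [Finset.insert_erase hA]

/-- the summand -/
noncomputable def vvge_g (s : Sys ι J) (D : ℝ) (A : Finset ι) : ℝ :=
  if s.rho A ≤ D then 1 / s.phi A else 0

theorem vvge_g_nonneg (s : Sys ι J) (D : ℝ) (A : Finset ι) : 0 ≤ vvge_g s D A := by
  unfold vvge_g
  split_ifs
  · exact div_nonneg zero_le_one (zero_le_one.trans (one_le_phi s A))
  · exact le_refl _

theorem vvge_one (s : Sys ι J) (W : ℕ) (hW : 1 ≤ W) (hpr : ∀ i, W < s.pr i) (D : ℝ) (i : ι) :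
    ∑ A : Finset ι, (if i ∈ A then vvge_g s D A else 0)
      ≤ (1 / W) * ∑ A : Finset ι, vvge_g s D A := by
  have hWp : (1 : ℝ) ≤ (W : ℝ) := by exact_mod_cast hW
  have hW0 : (0 : ℝ) < (W : ℝ) := by linarith
  have hp : (W : ℝ) ≤ (s.pr i : ℝ) - 1 := by
    have h1 : W + 1 ≤ s.pr i := hpr i
    have h2 : ((W + 1 : ℕ) : ℝ) ≤ (s.pr i : ℝ) := by exact_mod_cast h1
    push_cast at h2
    linarith
  have hp0 : (0 : ℝ) < (s.pr i : ℝ) - 1 := by linarith
  rw [vvge_sum, Finset.mul_sum]
  apply Finset.sum_le_sum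
  intro A _
  have hg := vvge_g_nonneg s D A
  by_cases hi : i ∉ A
  · rw [if_pos hi]
    by_cases hD : s.rho (insert i A) ≤ D
    · have hrA := one_le_rho s A
      have hD2 : s.rho A ≤ D := by
        rw [vvge_rho_insert s i A hi] at hD
        nlinarith
      have hph : 0 < s.phi A := lt_of_lt_of_le zero_lt_one (one_le_phi s A)
      unfold vvge_g
      rw [if_pos hD, if_pos hD2, vvge_phi_insert s i A hi, one_div_mul_one_div]
      apply one_div_le_one_div_of_le (by positivity)
      exact mul_le_mul_of_nonneg_right hp hph.le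
    · have h0 : vvge_g s D (insert i A) = 0 := by
        unfold vvge_g
        rw [if_neg hD]
      rw [h0]
      positivity
  · rw [if_neg hi]
    positivity

/-- `V(κ) ≥ (1 - |supp κ| / W) V(none)` for `V(none) = Σ_{ρ(A) ≤ D} 1/φ(A)`: the sum over the `A`
containing a given prime `i` is at most `V(none)/(p_i - 1)` (`A = insert i A'`). -/
theorem VV_ge (s : Sys ι J) (W : ℕ) (hW : 1 ≤ W) (hpr : ∀ i, W < s.pr i) (D : ℝ)
    (κ : ι → Option J) :
    (1 - ((supp κ).card : ℝ) / W) * ∑ A ∈ univ.filter (fun A : Finset ι => s.rho A ≤ D),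
      1 / s.phi A ≤ s.VV D κ := by
  have h1 : ∑ A ∈ univ.filter (fun A : Finset ι => s.rho A ≤ D), 1 / s.phi A
      = ∑ A : Finset ι, vvge_g s D A := by
    rw [Finset.sum_filter]
    rfl
  have h2 : s.VV D κ = ∑ A : Finset ι, (if A ⊆ free κ then vvge_g s D A else 0) := by
    have h3 : (univ : Finset (Finset ι)).filter (fun A => A ⊆ free κ) = (free κ).powerset := by
      ext A
      simp
    rw [← Finset.sum_filter, h3]
    unfold Sys.VV
    rw [Finset.sum_filter]
    rfl
  rw [h1, h2]
  have h4 : ∑ A : Finset ι, vvge_g s D A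
      ≤ ∑ A : Finset ι, (if A ⊆ free κ then vvge_g s D A else 0)
        + ∑ i ∈ supp κ, ∑ A : Finset ι, (if i ∈ A then vvge_g s D A else 0) := by
    rw [Finset.sum_comm, ← Finset.sum_add_distrib]
    apply Finset.sum_le_sum
    intro A _
    have hg := vvge_g_nonneg s D A
    by_cases hA : A ⊆ free κ
    · rw [if_pos hA]
      have : 0 ≤ ∑ i ∈ supp κ, (if i ∈ A then vvge_g s D A else 0) := by
        apply Finset.sum_nonneg
        intro i _
        split_ifs
        · exact hg
        · exact le_refl _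
      linarith
    · rw [if_neg hA, zero_add]
      rw [Finset.not_subset] at hA
      obtain ⟨i, hi, hi2⟩ := hA
      have hi3 : i ∈ supp κ := by
        unfold free at hi2
        unfold supp
        rw [Finset.mem_filter] at hi2 ⊢
        refine ⟨Finset.mem_univ _, ?_⟩
        have h5 : κ i ≠ none := fun h => hi2 ⟨Finset.mem_univ _, h⟩
        exact Option.isSome_iff_ne_none.mpr h5
      have h6 : (if i ∈ A then vvge_g s D A else 0) = vvge_g s D A := by rw [if_pos hi]
      refine h6.symm.le.trans ?_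
      apply Finset.single_le_sum (f := fun i => (if i ∈ A then vvge_g s D A else 0)) _ hi3
      intro j _
      change 0 ≤ (if j ∈ A then vvge_g s D A else 0)
      split_ifs
      · exact hg
      · exact le_refl _
  have h7 : ∑ i ∈ supp κ, ∑ A : Finset ι, (if i ∈ A then vvge_g s D A else 0)
      ≤ ∑ i ∈ supp κ, (1 / (W : ℝ)) * ∑ A : Finset ι, vvge_g s D A :=
    Finset.sum_le_sum (fun i _ => vvge_one s W hW hpr D i)
  rw [Finset.sum_const, nsmul_eq_mul] at h7
  have h8 : (1 - ((supp κ).card : ℝ) / W) * ∑ A : Finset ι, vvge_g s D A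
      = ∑ A : Finset ι, vvge_g s D A
        - ((supp κ).card : ℝ) * ((1 / (W : ℝ)) * ∑ A : Finset ι, vvge_g s D A) := by ring
  rw [h8]
  linarith

end Pool.Agent.Lib.H56G
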