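import Pool.Agent.Lib.H56G.Defs

/-!
# Chunk CRT: sums of periodic functions with coprime periods
-/

open Finset

namespace Pool.Agent.Lib.H56G

/-- Chinese remainder theorem. Proof: `t ↦ (t mod m, t mod n)` is a bijection from `range (m*n)`
to `range m ×ˢ range n` (`Nat.chineseRemainder`, or injectivity + cardinality); `f t = f (t % m)`,
`g t = g (t % n)` (`Function.Periodic.map_mod_nat`); then `Finset.sum_mul_sum`. -/
theorem sum_range_mul {m n : ℕ} (hmn : Nat.Coprime m n) (hm : 0 < m) (hn : 0 < n)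
    (f g : ℕ → ℝ) (hf : Function.Periodic f m) (hg : Function.Periodic g n) :
    ∑ t ∈ range (m * n), f t * g t = (∑ t ∈ range m, f t) * ∑ t ∈ range n, g t := by
  rw [Finset.sum_mul_sum, ← Finset.sum_product']
  refine Finset.sum_bij' (fun t _ => (t % m, t % n))
    (fun x _ => (Nat.chineseRemainder hmn x.1 x.2 : ℕ)) ?_ ?_ ?_ ?_ ?_
  · intro t _
    simp only [Finset.mem_product, Finset.mem_range]
    exact ⟨Nat.mod_lt _ hm, Nat.mod_lt _ hn⟩
  · intro x _
    simp only [Finset.mem_range]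
    exact Nat.chineseRemainder_lt_mul hmn x.1 x.2 hm.ne' hn.ne'
  · intro t ht
    simp only [Finset.mem_range] at ht
    have h := (Nat.chineseRemainder hmn (t % m) (t % n)).2
    have h1 : (Nat.chineseRemainder hmn (t % m) (t % n) : ℕ) ≡ t [MOD m] :=
      h.1.trans (Nat.mod_modEq t m)
    have h2 : (Nat.chineseRemainder hmn (t % m) (t % n) : ℕ) ≡ t [MOD n] :=
      h.2.trans (Nat.mod_modEq t n)
    have h3 := (Nat.modEq_and_modEq_iff_modEq_mul hmn).1 ⟨h1, h2⟩
    exact Nat.ModEq.eq_of_lt_of_lt h3 (Nat.chineseRemainder_lt_mul hmn _ _ hm.ne' hn.ne') ht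
  · intro x hx
    simp only [Finset.mem_product, Finset.mem_range] at hx
    have h := (Nat.chineseRemainder hmn x.1 x.2).2
    apply Prod.ext
    · have := h.1
      rw [Nat.ModEq, Nat.mod_eq_of_lt hx.1] at this
      exact this
    · have := h.2
      rw [Nat.ModEq, Nat.mod_eq_of_lt hx.2] at this
      exact this
  · intro t _
    simp only
    rw [hf.map_mod_nat, hg.map_mod_nat]

/-- Product version. Induction on `A` with `sum_range_mul` (the product over `A` is periodic with
period `∏ p i`; coprimality: distinct primes, `Nat.Coprime.prod_right`). -/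
theorem sum_range_prod {ι : Type} [DecidableEq ι] (p : ι → ℕ) (hp : ∀ i, (p i).Prime)
    (hinj : Function.Injective p) (A : Finset ι) (F : ι → ℕ → ℝ)
    (hF : ∀ i, Function.Periodic (F i) (p i)) :
    ∑ t ∈ range (∏ i ∈ A, p i), ∏ i ∈ A, F i t = ∏ i ∈ A, ∑ t ∈ range (p i), F i t := by
  induction A using Finset.induction_on with
  | empty => simp
  | insert a A ha ih =>
    rw [Finset.prod_insert ha, Finset.prod_insert ha, ← ih]
    have hcop : Nat.Coprime (p a) (∏ i ∈ A, p i) := by
      apply Nat.Coprime.prod_right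
      intro i hi
      rw [Nat.coprime_primes (hp a) (hp i)]
      intro h
      exact ha (hinj h ▸ hi)
    have hper : Function.Periodic (fun t => ∏ i ∈ A, F i t) (∏ i ∈ A, p i) := by
      intro t
      apply Finset.prod_congr rfl
      intro i hi
      obtain ⟨k, hk⟩ := Finset.dvd_prod_of_mem p hi
      rw [hk]
      have := (hF i).nat_mul k
      have h2 := this t
      simpa [mul_comm] using h2
    rw [← sum_range_mul hcop (hp a).pos (Finset.prod_pos fun i _ => (hp i).pos) (F a)
      (fun t => ∏ i ∈ A, F i t) (hF a) hper]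
    apply Finset.sum_congr rfl
    intro t _
    rw [Finset.prod_insert ha]

theorem crt_sum_Icc_period (q : ℕ) (F : ℕ → ℝ) (hF : Function.Periodic F q) (a : ℕ) :
    ∑ t ∈ Ico a (a + q), F t = ∑ t ∈ range q, F t := by
  induction a with
  | zero => simp [Nat.Ico_zero_eq_range]
  | succ a ih =>
    rcases Nat.eq_zero_or_pos q with hq | hq
    · subst hq; simp
    · have h1 : ∑ t ∈ Ico a (a + 1 + q), F t = F a + ∑ t ∈ Ico (a + 1) (a + 1 + q), F t :=
        Finset.sum_eq_sum_Ico_succ_bot (by omega) F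
      have h2 : ∑ t ∈ Ico a (a + q + 1), F t = ∑ t ∈ Ico a (a + q), F t + F (a + q) :=
        Finset.sum_Ico_succ_top (by omega) F
      have h3 : a + 1 + q = a + q + 1 := by omega
      have h4 : F (a + q) = F a := hF a
      rw [h3] at h1
      rw [h3]
      linarith

theorem crt_sum_Icc_mul (q : ℕ) (F : ℕ → ℝ) (hF : Function.Periodic F q) (k : ℕ) :
    ∑ t ∈ Ico 1 (1 + k * q), F t = k * ∑ t ∈ range q, F t := by
  induction k with
  | zero => simp
  | succ k ih =>
    have h1 : 1 + (k + 1) * q = (1 + k * q) + q := by ring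
    rw [h1, ← Finset.sum_Ico_consecutive F (by omega : 1 ≤ 1 + k * q) (by omega), ih,
      crt_sum_Icc_period q F hF]
    push_cast
    ring

/-- Incomplete sums of a periodic function. Proof: write `Y = k q + l`, `l < q`; the sum over
`Icc 1 (k q)` is `k` times the full period sum `Σ` (`|Σ| ≤ q K`), the remaining `l` terms are
at most `l K`; `|Y/q - k| ≤ 1`. -/
theorem abs_sum_Icc_sub_le (q : ℕ) (hq : 0 < q) (F : ℕ → ℝ) (hF : Function.Periodic F q)
    (K : ℝ) (hK : ∀ t, |F t| ≤ K) (Y : ℕ) :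
    |∑ t ∈ Icc 1 Y, F t - Y * ((∑ t ∈ range q, F t) / q)| ≤ 2 * q * K := by
  have hq' : (0 : ℝ) < q := by exact_mod_cast hq
  have hK0 : 0 ≤ K := le_trans (abs_nonneg _) (hK 0)
  obtain ⟨k, l, hl, hY⟩ : ∃ k l, l < q ∧ Y = k * q + l :=
    ⟨Y / q, Y % q, Nat.mod_lt _ hq, by rw [mul_comm]; exact (Nat.div_add_mod Y q).symm⟩
  have hI : Icc 1 Y = Ico 1 (1 + Y) := by
    ext t; simp only [Finset.mem_Icc, Finset.mem_Ico]; omega
  have hS : |∑ t ∈ range q, F t| ≤ q * K := by
    calc |∑ t ∈ range q, F t| ≤ ∑ t ∈ range q, |F t| := Finset.abs_sum_le_sum_abs _ _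
      _ ≤ ∑ t ∈ range q, K := Finset.sum_le_sum fun t _ => hK t
      _ = q * K := by simp
  have hR : |∑ t ∈ Ico (1 + k * q) (1 + Y), F t| ≤ l * K := by
    calc |∑ t ∈ Ico (1 + k * q) (1 + Y), F t| ≤ ∑ t ∈ Ico (1 + k * q) (1 + Y), |F t| :=
          Finset.abs_sum_le_sum_abs _ _
      _ ≤ ∑ t ∈ Ico (1 + k * q) (1 + Y), K := Finset.sum_le_sum fun t _ => hK t
      _ = l * K := by
        rw [Finset.sum_const, Nat.card_Ico, nsmul_eq_mul]
        congr 2
        omega
  have hsum : ∑ t ∈ Icc 1 Y, F t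
      = k * ∑ t ∈ range q, F t + ∑ t ∈ Ico (1 + k * q) (1 + Y), F t := by
    rw [hI, ← Finset.sum_Ico_consecutive F (by omega : 1 ≤ 1 + k * q) (by omega),
      crt_sum_Icc_mul q F hF]
  have hYr : (Y : ℝ) = k * q + l := by rw [hY]; push_cast; ring
  have hlq : (l : ℝ) ≤ q := by exact_mod_cast hl.le
  have hl0 : (0 : ℝ) ≤ l := by positivity
  set S := ∑ t ∈ range q, F t with hSdef
  set R := ∑ t ∈ Ico (1 + k * q) (1 + Y), F t with hRdef
  have hid : k * S + R - Y * (S / q) = R - (l / q) * S := by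
    rw [hYr]
    field_simp
    ring
  rw [hsum, hid]
  calc |R - (l / q) * S| ≤ |R| + |(l / q) * S| := abs_sub _ _
    _ = |R| + (l / q) * |S| := by rw [abs_mul, abs_of_nonneg (by positivity : (0:ℝ) ≤ l / q)]
    _ ≤ l * K + (l / q) * (q * K) := by gcongr
    _ = 2 * (l * K) := by field_simp; ring
    _ ≤ 2 * (q * K) := by gcongr
    _ = 2 * q * K := by ring

end Pool.Agent.Lib.H56G
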