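import Pool.Agent.Lib.H10.LPF.Count

/-!
# Chunk ERL: the numbers up to `H` with a prime factor `> y`
-/

open Finset Real

namespace Pool.Agent.Lib.H56G

/-- Chebyshev: `π(n) ≤ C n / log n`. (`Chebyshev.pi_le_log4_mul_div` in Mathlib.) -/
theorem exists_pi_le : ∃ C : ℝ, 0 < C ∧ ∀ n : ℕ, 2 ≤ n →
    (Nat.primeCounting n : ℝ) ≤ C * (n / log n) := by
  obtain ⟨N, hN2, hN⟩ := H10.LPF.exists_pi_le
  have hlogN : 0 ≤ log N := Real.log_nonneg (by exact_mod_cast (show 1 ≤ N by omega))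
  refine ⟨2 + log N, by linarith, fun n hn => ?_⟩
  have hn' : (2 : ℝ) ≤ n := by exact_mod_cast hn
  have hlog : 0 < log n := Real.log_pos (by linarith)
  have h0 : 0 ≤ (n : ℝ) / log n := by positivity
  by_cases h : N ≤ n
  · have h1 := hN n h
    rw [H10.LPF.card_primesUpTo] at h1
    calc (Nat.primeCounting n : ℝ) ≤ 2 * n / log n := h1
      _ = 2 * (n / log n) := by ring
      _ ≤ (2 + log N) * (n / log n) := mul_le_mul_of_nonneg_right (by linarith) h0
  · push Not at h
    have h1 : Nat.primeCounting n ≤ n := by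
      rw [← H10.LPF.card_primesUpTo]
      have hsub : Pool.Agent.Lib.Sieve.primesUpTo n ⊆ Icc 1 n := by
        intro p hp
        have := Pool.Agent.Lib.Sieve.mem_primesUpTo.mp hp
        exact Finset.mem_Icc.mpr ⟨this.1.one_le, this.2⟩
      have := Finset.card_le_card hsub
      rwa [Nat.card_Icc, Nat.add_sub_cancel] at this
    have h1' : (Nat.primeCounting n : ℝ) ≤ n := by exact_mod_cast h1
    have h2 : log n ≤ log N := Real.log_le_log (by linarith) (by exact_mod_cast h.le)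
    have h3 : (n : ℝ) = log n * (n / log n) := by field_simp
    calc (Nat.primeCounting n : ℝ) ≤ n := h1'
      _ = log n * (n / log n) := h3
      _ ≤ (2 + log N) * (n / log n) := mul_le_mul_of_nonneg_right (by linarith) h0

/-- `h = q m`, `q > y` prime, `m ≤ H / y`: at most `Σ_{m ≤ H/y} π(H/m) ≤ Σ_m C (H/m)/log (H/m)
≤ (C H/log y) Σ_{m ≤ H/y} 1/m` (`H/m ≥ y`, natural division: `y ≤ H/m` for `m ≤ H/y`), and
`Σ_{m ≤ k} 1/m ≤ 1 + log k`. -/
theorem er_large : ∃ C : ℝ, 0 < C ∧ ∀ H y : ℕ, 2 ≤ y → y ≤ H →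
    (((Icc 1 H).filter (fun h => ∃ q ∈ h.primeFactors, y < q)).card : ℝ)
      ≤ C * (H / log y) * (1 + log ((H : ℝ) / y)) := by
  obtain ⟨C, hC, hpi⟩ := exists_pi_le
  refine ⟨C, hC, fun U h hh hU => ?_⟩
  have hh2 : (2 : ℝ) ≤ h := by exact_mod_cast hh
  have hlogh : 0 < Real.log h := Real.log_pos (by linarith)
  have hh0 : (0 : ℝ) < h := by linarith
  have hU0 : (0 : ℝ) < U := by
    have : 0 < U := by omega
    exact_mod_cast this
  have hUh : (1 : ℝ) ≤ (U : ℝ) / h := by
    rw [le_div_iff₀ hh0, one_mul]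
    exact_mod_cast hU
  have hlogUh : 0 ≤ log ((U : ℝ) / h) := Real.log_nonneg hUh
  have h1 : (((Finset.Icc 1 U).filter (fun n => ∃ q ∈ n.primeFactors, h < q)).card : ℝ)
      ≤ ∑ m ∈ Finset.Icc 1 (U / (h + 1)),
        ((Pool.Agent.Lib.Sieve.primesUpTo (U / m)).card : ℝ) := by
    exact_mod_cast H10.LPF.large_le U h
  refine h1.trans ?_
  have h2 : ∀ m ∈ Finset.Icc 1 (U / (h + 1)),
      ((Pool.Agent.Lib.Sieve.primesUpTo (U / m)).card : ℝ) ≤ C * (U / Real.log h) * ((m : ℝ)⁻¹) := by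
    intro m hm
    rw [Finset.mem_Icc] at hm
    have hm0 : (0 : ℝ) < m := by
      have : 0 < m := by omega
      exact_mod_cast this
    have h3 : h + 1 ≤ U / m := by
      rw [Nat.le_div_iff_mul_le (by omega)]
      have := (Nat.le_div_iff_mul_le (show 0 < h + 1 by omega)).mp hm.2
      linarith [mul_comm m (h + 1)]
    have h4 := hpi (U / m) (by omega)
    have h5 : (h : ℝ) ≤ ((U / m : ℕ) : ℝ) := by
      have : h ≤ U / m := by omega
      exact_mod_cast this
    have h6 : Real.log h ≤ Real.log ((U / m : ℕ) : ℝ) := Real.log_le_log hh0 h5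
    have h7 : ((U / m : ℕ) : ℝ) ≤ U / m := Nat.cast_div_le
    rw [H10.LPF.card_primesUpTo]
    calc (Nat.primeCounting (U / m) : ℝ)
        ≤ C * (((U / m : ℕ) : ℝ) / Real.log ((U / m : ℕ) : ℝ)) := h4
      _ ≤ C * ((U / m) / Real.log h) := by
          apply mul_le_mul_of_nonneg_left _ hC.le
          apply div_le_div₀ (by positivity) h7 hlogh h6
      _ = C * (U / Real.log h) * ((m : ℝ)⁻¹) := by
          field_simp
  refine (Finset.sum_le_sum h2).trans ?_
  rw [← Finset.mul_sum]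
  apply mul_le_mul_of_nonneg_left _ (by positivity)
  rcases Nat.eq_zero_or_pos (U / (h + 1)) with h0 | hM
  · rw [h0]
    simp only [show Finset.Icc 1 0 = (∅ : Finset ℕ) from rfl, Finset.sum_empty]
    linarith
  have h8 := harmonic_le_one_add_log (U / (h + 1))
  rw [harmonic_eq_sum_Icc] at h8
  push_cast at h8
  refine h8.trans ?_
  have h9 : ((U / (h + 1) : ℕ) : ℝ) ≤ (U : ℝ) / h := by
    calc ((U / (h + 1) : ℕ) : ℝ) ≤ (U : ℝ) / ((h + 1 : ℕ) : ℝ) := Nat.cast_div_le
      _ ≤ (U : ℝ) / h := by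
          apply div_le_div_of_nonneg_left (by positivity) hh0
          push_cast
          linarith
  have h10 : (0 : ℝ) < ((U / (h + 1) : ℕ) : ℝ) := by exact_mod_cast hM
  have h11 := Real.log_le_log h10 h9
  linarith

end Pool.Agent.Lib.H56G
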