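import Pool.Agent.Lib.H56G.ErComb1

/-!
# Chunk ERC2: choice of the residue class (Erdős, Rankin)
-/

open Finset Real

namespace Pool.Agent.Lib.H56G

/-- the product of the primes in `(z, y]` -/
def erc2_Q (z y : ℕ) : ℕ := ∏ p ∈ (Ioc z y).filter Nat.Prime, p

theorem erc2_mul (z y : ℕ) (hzy : z ≤ y) : primorial z * erc2_Q z y = primorial y := by
  rw [erc2_Q, primorial, primorial, ← Finset.prod_union]
  · congr 1
    ext p
    simp only [Finset.mem_union, Finset.mem_filter, Finset.mem_range, Finset.mem_Ioc]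
    constructor
    · rintro (⟨h1, h2⟩ | ⟨⟨h1, h2⟩, h3⟩)
      · exact ⟨by omega, h2⟩
      · exact ⟨by omega, h3⟩
    · rintro ⟨h1, h2⟩
      by_cases h : p < z + 1
      · exact Or.inl ⟨h, h2⟩
      · exact Or.inr ⟨⟨by omega, by omega⟩, h2⟩
  · rw [Finset.disjoint_left]
    intro p hp hp'
    rw [Finset.mem_filter, Finset.mem_range] at hp
    rw [Finset.mem_filter, Finset.mem_Ioc] at hp'
    omega

theorem erc2_coprime (z y : ℕ) : Nat.Coprime (primorial z) (erc2_Q z y) := by
  rw [erc2_Q]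
  apply Nat.Coprime.prod_right
  intro p hp
  rw [Finset.mem_filter, Finset.mem_Ioc] at hp
  apply Nat.Coprime.symm
  rw [hp.2.coprime_iff_not_dvd, hp.2.dvd_primorial_iff]
  omega

/-- `a ≡ 0 mod p` for `z < p ≤ y` and `a ≡ a1 mod primorial z` with the `a1` of `er_small` for
`T = {h ≤ H : no prime p ∈ (z, y] divides h}`. If `(a + h, primorial y) = 1` then no `p ∈ (z, y]`
divides `h`, i.e. `h ∈ T`, and `(a1 + h, primorial z) = 1`. A number `h ∈ T` has only prime
factors `≤ z`, or has a prime factor `> y`. -/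
theorem er_combine (z y H : ℕ) (hz : 2 ≤ z) (hzy : z ≤ y) :
    ∃ a < primorial y, (((Icc 1 H).filter
        (fun h => Nat.Coprime (a + h) (primorial y))).card : ℝ)
      ≤ ((((Icc 1 H).filter (fun h => ∀ p ∈ h.primeFactors, p ≤ z)).card : ℝ)
        + (((Icc 1 H).filter (fun h => ∃ q ∈ h.primeFactors, y < q)).card : ℝ)) / log z := by
  classical
  set T := (Icc 1 H).filter (fun h => ∀ p : ℕ, p.Prime → z < p → p ≤ y → ¬ p ∣ h) with hT
  obtain ⟨a1, ha1, hcard⟩ := er_small z hz T
  have hco := erc2_coprime z y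
  have hmul := erc2_mul z y hzy
  set c := Nat.chineseRemainder hco a1 0 with hc
  have hQ0 : erc2_Q z y ≠ 0 := by
    intro h
    rw [h, mul_zero] at hmul
    exact (primorial_pos y).ne' hmul.symm
  have hlt : (c : ℕ) < primorial y := by
    rw [← hmul]
    exact Nat.chineseRemainder_lt_mul hco a1 0 (primorial_pos z).ne' hQ0
  have hc1 : (c : ℕ) ≡ a1 [MOD primorial z] := c.2.1
  have hc2 : (c : ℕ) ≡ 0 [MOD erc2_Q z y] := c.2.2
  have hlog : 0 ≤ log z := Real.log_nonneg (by exact_mod_cast (show 1 ≤ z by omega))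
  refine ⟨c, hlt, ?_⟩
  have hsub : (Icc 1 H).filter (fun h => Nat.Coprime ((c : ℕ) + h) (primorial y))
      ⊆ T.filter (fun h => Nat.Coprime (a1 + h) (primorial z)) := by
    intro h hh
    rw [Finset.mem_filter] at hh
    rw [Finset.mem_filter, hT, Finset.mem_filter]
    refine ⟨⟨hh.1, fun p hp hzp hpy hd => ?_⟩, ?_⟩
    · have h1 : p ∣ erc2_Q z y := by
        rw [erc2_Q]
        exact Finset.dvd_prod_of_mem _ (Finset.mem_filter.mpr
          ⟨Finset.mem_Ioc.mpr ⟨hzp, hpy⟩, hp⟩)
      have h2 : p ∣ (c : ℕ) := h1.trans ((Nat.modEq_zero_iff_dvd).mp hc2)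
      have h3 : p ∣ (c : ℕ) + h := dvd_add h2 hd
      have h4 : p ∣ primorial y := (hp.dvd_primorial_iff).mpr hpy
      exact Nat.not_coprime_of_dvd_of_dvd hp.one_lt h3 h4 hh.2
    · have h1 : Nat.Coprime ((c : ℕ) + h) (primorial z) :=
        Nat.Coprime.coprime_dvd_right (Dvd.intro _ hmul) hh.2
      have h2 : (c : ℕ) + h ≡ a1 + h [MOD primorial z] := hc1.add_right h
      have h3 := h2.gcd_eq
      rw [Nat.coprime_iff_gcd_eq_one] at h1 ⊢
      rw [← h3]
      exact h1
  have hT' : T ⊆ (Icc 1 H).filter (fun h => ∀ p ∈ h.primeFactors, p ≤ z)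
      ∪ (Icc 1 H).filter (fun h => ∃ q ∈ h.primeFactors, y < q) := by
    intro h hh
    rw [hT, Finset.mem_filter] at hh
    rw [Finset.mem_union, Finset.mem_filter, Finset.mem_filter]
    by_cases hq : ∃ q ∈ h.primeFactors, y < q
    · exact Or.inr ⟨hh.1, hq⟩
    · left
      refine ⟨hh.1, fun p hp => ?_⟩
      push Not at hq
      have h1 := hq p hp
      by_contra hcon
      push Not at hcon
      have hp' := Nat.mem_primeFactors.mp hp
      exact hh.2 p hp'.1 hcon h1 hp'.2.1
  calc (((Icc 1 H).filter (fun h => Nat.Coprime ((c : ℕ) + h) (primorial y))).card : ℝ)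
      ≤ ((T.filter (fun h => Nat.Coprime (a1 + h) (primorial z))).card : ℝ) := by
        exact_mod_cast Finset.card_le_card hsub
    _ ≤ T.card / log z := hcard
    _ ≤ _ := by
        apply div_le_div_of_nonneg_right _ hlog
        exact_mod_cast (Finset.card_le_card hT').trans (Finset.card_union_le _ _)

end Pool.Agent.Lib.H56G
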