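import Pool.Agent.Lib.H20R.Euler

/-!
# Chunk ERS: smooth numbers (Rankin's bound)
-/

open Finset Real

namespace Pool.Agent.Lib.H56G

/-- Variant of `H10.LPF.euler_le` and `smooth_le` (which are the case `B = 1`; copy the proof).
`H10.LPF.rankin` with `s = 1 - η`, and for `p ≤ z`:
`p^(-(1-η)) = p^η / p ≤ 1/p + η e^B (log p)/p` (as `e^u - 1 ≤ u e^u`, `u = η log p ≤ B`), so
`Σ_{p ≤ z} p^(-(1-η)) ≤ loglog z + 4 + η e^B (log z + log 4) ≤ loglog z + 4 + 3 B e^B`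
(`Helper57.sum_inv_primes_le`, `Sieve.sum_log_div_le`; `η ≤ 1/10`, `B ≥ 1`), and
`-log (1 - v) ≤ v + v^2/(1-v)`, `Σ p^(-2(1-η)) ≤ Σ p^(-1.8) < ∞`. -/
theorem er_smooth : ∃ C : ℝ, 0 < C ∧ ∀ (z H : ℕ) (η B : ℝ), 2 ≤ z → 0 < η → η ≤ 1 / 10 →
    1 ≤ B → η * log z ≤ B →
    (((Icc 1 H).filter (fun h => ∀ p ∈ h.primeFactors, p ≤ z)).card : ℝ)
      ≤ (H : ℝ) ^ (1 - η) * (exp (C * B * exp B) * log z) := by
  have hK : 0 ≤ H20R.K0 := tsum_nonneg fun n => by positivity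
  refine ⟨7 + 3 * H20R.K0, by positivity, fun z H η B hz h0 h1 hB hv => ?_⟩
  refine (H20R.smooth_le z H hz η h0 h1).trans ?_
  have hlogz : 0 ≤ log z := Real.log_nonneg (by exact_mod_cast (show 1 ≤ z by omega))
  apply mul_le_mul_of_nonneg_left _ (by positivity)
  apply mul_le_mul_of_nonneg_right _ hlogz
  apply Real.exp_le_exp.mpr
  have h2 : exp (η * log z) ≤ exp B := Real.exp_le_exp.mpr hv
  have h3 : 1 ≤ exp B := Real.one_le_exp (by linarith)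
  have h4 : exp B ≤ B * exp B := by nlinarith
  have h5 : 1 ≤ B * exp B := h3.trans h4
  have h6 : 3 * H20R.K0 * 1 ≤ 3 * H20R.K0 * (B * exp B) :=
    mul_le_mul_of_nonneg_left h5 (by positivity)
  calc 4 + 3 * H20R.K0 + 3 * exp (η * log z)
      ≤ 4 * (B * exp B) + 3 * H20R.K0 * (B * exp B) + 3 * (B * exp B) := by linarith
    _ = (7 + 3 * H20R.K0) * B * exp B := by ring

end Pool.Agent.Lib.H56G
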