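import Pool.Agent.Lib.H56G.Suppress
import Pool.Agent.Lib.H56G.ErMain

/-!
# Chunk FIN1: a long interval of composite numbers
-/

open Finset Real

namespace Pool.Agent.Lib.H56G

/-- `ff x ≤ (log x)^3` for large `x` -/
theorem fin1_ff_le : ∀ᶠ x : ℝ in Filter.atTop, ff x ≤ (log x) ^ 3 := by
  have h1 : ∀ᶠ x : ℝ in Filter.atTop, 1 ≤ log (log (log x)) :=
    (tendsto_log_atTop.comp (tendsto_log_atTop.comp tendsto_log_atTop)).eventually_ge_atTop 1
  have h2 : ∀ᶠ x : ℝ in Filter.atTop, 1 ≤ log (log x) :=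
    (tendsto_log_atTop.comp tendsto_log_atTop).eventually_ge_atTop 1
  have h3 : ∀ᶠ x : ℝ in Filter.atTop, 1 ≤ log x := tendsto_log_atTop.eventually_ge_atTop 1
  filter_upwards [h1, h2, h3] with x h1 h2 h3
  unfold ff
  have h4 : log (log (log (log x))) ≤ (log (log (log x))) ^ 2 := by
    have := Real.log_le_sub_one_of_pos (show 0 < log (log (log x)) by linarith)
    nlinarith
  have h5 : 0 ≤ log (log (log (log x))) := Real.log_nonneg h1
  have h6 : log (log x) ≤ log x := by
    have := Real.log_le_sub_one_of_pos (show 0 < log x by linarith)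
    linarith
  have h7 : 0 < (log (log (log x))) ^ 2 := by positivity
  calc log x * (log (log x)) ^ 2 * log (log (log (log x))) / (log (log (log x))) ^ 2
      ≤ log x * (log (log x)) ^ 2 * (log (log (log x))) ^ 2 / (log (log (log x))) ^ 2 := by
        gcongr
    _ = log x * (log (log x)) ^ 2 := by field_simp
    _ ≤ log x * (log x) ^ 2 := by gcongr
    _ = (log x) ^ 3 := by ring

/-- From `suppress` and `er_main`. `M = primorial y`, `y = ⌊log x/8⌋` (`M ≤ 4^y ≤ x^(1/4)`,
`primorial_le_4_pow`; a prime `p > WW x ≥ y` does not divide `M`), `n0 = ⌊x^(1/40)⌋ + 1`,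
`B = {a + h + M n0 : h ≤ H, (a + h, M) = 1}`; the differences are `≤ H ≤ WW x`. With the `t` of
`suppress` put `m = a + M (n0 + t)`. For `1 ≤ h ≤ H`: if `(a + h, M) = 1` then `m + h` is not prime
by `suppress`; if not, a prime `p ≤ y < m + h` divides `m + h`. -/
theorem exists_long : ∃ c : ℝ, 0 < c ∧ ∃ x0 : ℝ, ∀ x : ℝ, x0 ≤ x →
    ∃ m : ℕ, 2 ≤ m ∧ (m : ℝ) ≤ x ∧ ∀ h ∈ Icc 1 ⌊c * ff x⌋₊, ¬ (m + h).Prime := by
  classical
  obtain ⟨c0, hc0, x1, hsup⟩ := suppress
  obtain ⟨c, hc, x2, her⟩ := er_main c0 hc0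
  obtain ⟨x3, hff⟩ := Filter.eventually_atTop.1 fin1_ff_le
  obtain ⟨x4, hlogc⟩ := Filter.eventually_atTop.1
    (tendsto_log_atTop.eventually_ge_atTop (max c 1))
  refine ⟨c, hc, max (max x1 x2) (max (max x3 x4) 256), fun x hx => ?_⟩
  have hx1 : x1 ≤ x := ((le_max_left _ _).trans (le_max_left _ _)).trans hx
  have hx2 : x2 ≤ x := ((le_max_right _ _).trans (le_max_left _ _)).trans hx
  have hx3 : x3 ≤ x := (((le_max_left _ _).trans (le_max_left _ _)).trans
    (le_max_right _ _)).trans hx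
  have hx4 : x4 ≤ x := (((le_max_right _ _).trans (le_max_left _ _)).trans
    (le_max_right _ _)).trans hx
  have hx256 : 256 ≤ x := ((le_max_right _ _).trans (le_max_right _ _)).trans hx
  have hxpos : 0 < x := by linarith
  obtain ⟨a, ha, hcard⟩ := her x hx2
  have hffx := hff x hx3
  have hlog := hlogc x hx4
  have hlogc' : c ≤ log x := (le_max_left _ _).trans hlog
  have hlog1 : 1 ≤ log x := (le_max_right _ _).trans hlog
  set y := ⌊log x / 8⌋₊ with hy
  set M := primorial y with hM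
  set H := ⌊c * ff x⌋₊ with hH
  set n0 := ⌊x ^ (1 / 40 : ℝ)⌋₊ + 1 with hn0
  have hMpos : 0 < M := primorial_pos y
  have hWge : (log x) ^ 4 ≤ (WW x : ℝ) := Nat.le_ceil _
  have hHW : H ≤ WW x := by
    have h1 : (H : ℝ) ≤ WW x := by
      rcases le_or_gt 0 (c * ff x) with h0 | h0
      · calc (H : ℝ) ≤ c * ff x := Nat.floor_le h0
          _ ≤ log x * (log x) ^ 3 := by
            apply mul_le_mul hlogc' hffx _ (by linarith)
            by_contra hneg
            push Not at hneg
            nlinarith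
          _ = (log x) ^ 4 := by ring
          _ ≤ WW x := hWge
      · have : H = 0 := Nat.floor_of_nonpos h0.le
        rw [this]
        simp
    exact_mod_cast h1
  have hyW : y ≤ WW x := by
    have h1 : (y : ℝ) ≤ WW x := by
      calc (y : ℝ) ≤ log x / 8 := Nat.floor_le (by linarith)
        _ ≤ log x := by linarith
        _ ≤ (log x) ^ 4 := by
          calc log x = log x * 1 := by ring
            _ ≤ log x * (log x) ^ 3 := by
              apply mul_le_mul_of_nonneg_left (one_le_pow₀ hlog1) (by linarith)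
            _ = (log x) ^ 4 := by ring
        _ ≤ WW x := hWge
    exact_mod_cast h1
  set S := (Icc 1 H).filter (fun h => Nat.Coprime (a + h) M) with hS
  set B : Finset ℕ := S.image (fun h => a + h + M * n0) with hB
  have hn0x : x ^ (1 / 40 : ℝ) < n0 := by
    rw [hn0]
    push_cast
    exact Nat.lt_floor_add_one _
  obtain ⟨t, ht, htp⟩ := hsup x hx1 M B
    (by
      intro p hp hWp hdvd
      rw [hM, hp.dvd_primorial_iff] at hdvd
      omega)
    (by
      refine le_trans ?_ hcard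
      exact_mod_cast Finset.card_image_le)
    (by
      intro b hb
      obtain ⟨h, _, rfl⟩ := Finset.mem_image.1 hb
      have h1 : (n0 : ℝ) ≤ ((a + h + M * n0 : ℕ) : ℝ) := by
        have : n0 ≤ a + h + M * n0 := by
          have := Nat.le_mul_of_pos_left n0 hMpos
          omega
        exact_mod_cast this
      linarith)
    (by
      intro b hb b' hb'
      obtain ⟨h, hh, rfl⟩ := Finset.mem_image.1 hb
      obtain ⟨h', hh', rfl⟩ := Finset.mem_image.1 hb'
      have h1 := Finset.mem_Icc.1 (Finset.mem_filter.1 hh).1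
      have h2 := Finset.mem_Icc.1 (Finset.mem_filter.1 hh').1
      omega)
  have ht1 := Finset.mem_Icc.1 ht
  have hn01 : 1 ≤ n0 := by omega
  refine ⟨a + M * (n0 + t), ?_, ?_, ?_⟩
  · have := Nat.le_mul_of_pos_left (n0 + t) hMpos
    omega
  · -- the size
    have hM4 : (M : ℝ) ≤ x ^ (1 / 4 : ℝ) := by
      have h1 : (M : ℝ) ≤ (4 : ℝ) ^ y := by exact_mod_cast primorial_le_four_pow y
      refine h1.trans ?_
      have h2 : (4 : ℝ) ^ y = exp (y * log 4) := by
        rw [mul_comm, Real.exp_mul, Real.exp_log (by norm_num), Real.rpow_natCast]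
      rw [h2, Real.rpow_def_of_pos hxpos]
      apply Real.exp_le_exp.2
      have h3 : (y : ℝ) ≤ log x / 8 := Nat.floor_le (by linarith)
      have h4 : log 4 ≤ 2 := by
        have : log 4 = 2 * log 2 := by
          rw [show (4 : ℝ) = 2 ^ 2 by norm_num, Real.log_pow]
          push_cast
          ring
        have h5 := Real.log_two_lt_d9
        linarith
      have h6 : 0 ≤ log 4 := Real.log_nonneg (by norm_num)
      calc (y : ℝ) * log 4 ≤ (log x / 8) * 2 := by
            apply mul_le_mul h3 h4 h6 (by linarith)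
        _ = log x * (1 / 4) := by ring
    have hx1' : (1 : ℝ) ≤ x := by linarith
    have hsq1 : (1 : ℝ) ≤ x ^ (1 / 2 : ℝ) := Real.one_le_rpow hx1' (by norm_num)
    have h40 : x ^ (1 / 40 : ℝ) ≤ x ^ (1 / 2 : ℝ) :=
      Real.rpow_le_rpow_of_exponent_le hx1' (by norm_num)
    have hn0le : (n0 : ℝ) ≤ 2 * x ^ (1 / 2 : ℝ) := by
      rw [hn0]
      push_cast
      have := Nat.floor_le (show 0 ≤ x ^ (1 / 40 : ℝ) by positivity)
      linarith
    have htle : (t : ℝ) ≤ x ^ (1 / 2 : ℝ) := by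
      calc (t : ℝ) ≤ (⌊x ^ (1 / 2 : ℝ)⌋₊ : ℝ) := by exact_mod_cast ht1.2
        _ ≤ x ^ (1 / 2 : ℝ) := Nat.floor_le (by positivity)
    have hale : (a : ℝ) ≤ x ^ (1 / 4 : ℝ) := by
      have : (a : ℝ) ≤ M := by exact_mod_cast ha.le
      exact this.trans hM4
    have h14 : 0 ≤ x ^ (1 / 4 : ℝ) := by positivity
    have h4x : (4 : ℝ) ≤ x ^ (1 / 4 : ℝ) := by
      have h1 : (4 : ℝ) = (256 : ℝ) ^ (1 / 4 : ℝ) := by
        have h0 : (256 : ℝ) = (4 : ℝ) ^ (4 : ℝ) := by
          rw [show (4 : ℝ) = ((4 : ℕ) : ℝ) by norm_num, Real.rpow_natCast]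
          norm_num
        rw [h0, ← Real.rpow_mul (by norm_num)]
        norm_num
      exact h1.le.trans (Real.rpow_le_rpow (by norm_num) hx256 (by norm_num))
    have hprod : x ^ (1 / 4 : ℝ) * x ^ (1 / 4 : ℝ) * x ^ (1 / 2 : ℝ) = x := by
      rw [← Real.rpow_add hxpos, ← Real.rpow_add hxpos,
        show (1 / 4 : ℝ) + 1 / 4 + 1 / 2 = 1 by norm_num, Real.rpow_one]
    push_cast
    calc (a : ℝ) + M * (n0 + t)
        ≤ x ^ (1 / 4 : ℝ) + x ^ (1 / 4 : ℝ) * (2 * x ^ (1 / 2 : ℝ) + x ^ (1 / 2 : ℝ)) := by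
          gcongr
      _ ≤ x ^ (1 / 4 : ℝ) * (4 * x ^ (1 / 2 : ℝ)) := by nlinarith
      _ ≤ x ^ (1 / 4 : ℝ) * (x ^ (1 / 4 : ℝ) * x ^ (1 / 2 : ℝ)) := by gcongr
      _ = x := by rw [← mul_assoc]; exact hprod
  · intro h hh hprime
    rw [Finset.mem_Icc] at hh
    by_cases hcop : Nat.Coprime (a + h) M
    · have hmem : a + h + M * n0 ∈ B := by
        rw [hB, Finset.mem_image]
        refine ⟨h, ?_, rfl⟩
        rw [hS, Finset.mem_filter, Finset.mem_Icc]
        exact ⟨hh, hcop⟩
      apply htp _ hmem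
      have : a + h + M * n0 + M * t = a + M * (n0 + t) + h := by ring
      rw [this]
      exact hprime
    · obtain ⟨p, hp, hpa, hpM⟩ := Nat.Prime.not_coprime_iff_dvd.1 hcop
      have hdvd : p ∣ a + M * (n0 + t) + h := by
        have h1 : a + M * (n0 + t) + h = (a + h) + M * (n0 + t) := by ring
        rw [h1]
        exact dvd_add hpa (hpM.mul_right _)
      have hpeq : p = a + M * (n0 + t) + h := (Nat.prime_dvd_prime_iff_eq hp hprime).1 hdvd
      have hpleM : p ≤ M := Nat.le_of_dvd hMpos hpM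
      have h2 : M * 2 ≤ M * (n0 + t) := Nat.mul_le_mul_left _ (by omega)
      omega

end Pool.Agent.Lib.H56G
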