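import Pool.Agent.Lib.H56G.Vlow

/-!
# Chunk SLOW: lower bound for `S = Σ 1/(φ(A) log ρ(A))`
-/

open Finset

namespace Pool.Agent.Lib.H56G

variable {ι J : Type} [Fintype ι] [DecidableEq ι] [Fintype J] [DecidableEq J]

theorem slow_geo1 (m n : ℕ) :
    ∑ k ∈ Finset.Ico m (m + n), ((1 : ℝ) / 2) ^ k = 2 * (1 / 2) ^ m - 2 * (1 / 2) ^ (m + n) := by
  induction n with
  | zero => simp
  | succ n ih =>
    rw [← Nat.add_assoc, Finset.sum_Ico_succ_top (by omega), ih, pow_succ]
    ring

theorem slow_geo (K : Finset ℕ) (x : ℝ) (hx : 0 < x) (hK : ∀ k ∈ K, x ≤ (2 : ℝ) ^ k) :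
    ∑ k ∈ K, ((1 : ℝ) / 2) ^ k ≤ 2 / x := by
  rcases K.eq_empty_or_nonempty with h | h
  · subst h
    simp only [Finset.sum_empty]
    positivity
  · have hmin := K.min'_mem h
    have hsub : K ⊆ Finset.Ico (K.min' h) (K.min' h + (K.max' h + 1 - K.min' h)) := by
      intro k hk
      have h1 := K.min'_le k hk
      have h2 := K.le_max' k hk
      rw [Finset.mem_Ico]
      omega
    calc ∑ k ∈ K, ((1 : ℝ) / 2) ^ k
        ≤ ∑ k ∈ Finset.Ico (K.min' h) (K.min' h + (K.max' h + 1 - K.min' h)), ((1 : ℝ) / 2) ^ k :=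
          Finset.sum_le_sum_of_subset_of_nonneg hsub (fun k _ _ => by positivity)
      _ ≤ 2 * (1 / 2) ^ (K.min' h) := by
          rw [slow_geo1]
          have : (0 : ℝ) ≤ 2 * (1 / 2) ^ (K.min' h + (K.max' h + 1 - K.min' h)) := by positivity
          linarith
      _ ≤ 2 / x := by
          have h2 := hK _ hmin
          rw [div_pow, one_pow, ← div_eq_mul_one_div]
          exact div_le_div_of_nonneg_left (by norm_num) hx h2

/-- Let `K` be the set of the `k : ℕ` with `1000 log W ≤ 2^k ≤ log z`;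
`|K| ≥ log_2 (log z/(1000 log W)) - 1 = log_2 (log z/(2000 log W)) ≥ log (log z/(2000 log W))`.
For `A ≠ ∅`, `ρ = ρ(A)`: `Σ_{k ∈ K, log ρ ≤ 2^k} 2^-k ≤ 2/log ρ` (geometric series). Hence
`S ≥ (1/2) Σ_{k ∈ K} 2^-k (V(e^(2^k)) - 1)`, `V(D) = Σ_{ρ(A) ≤ D} 1/φ(A)` (the `1` is the term
`A = ∅`; `e^(2^k) ≤ z`), and by `vlow` `V(e^(2^k)) ≥ 2^k/(500 log W) ≥ 2`, so
`V - 1 ≥ 2^k/(1000 log W)`. Together `S ≥ |K|/(2000 log W)`. -/
theorem slow (s : Sys ι J) (W N : ℕ) (hW : 2 ≤ W) (hpr : ∀ i, W < s.pr i)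
    (hall : ∀ p, p.Prime → W < p → p ≤ N → ∃ i, s.pr i = p) (z : ℝ) (hzN : z ≤ N)
    (hz0 : 0 < z) (hz : 2000 * Real.log W ≤ Real.log z) :
    Real.log (Real.log z / (2000 * Real.log W)) / (2000 * Real.log W) ≤ SS s z := by
  have hWr : (2 : ℝ) ≤ W := by exact_mod_cast hW
  have hlW : Real.log 2 ≤ Real.log W := Real.log_le_log (by norm_num) hWr
  have hl2 := Real.log_two_gt_d9
  have hl2' := Real.log_two_lt_d9
  set L := Real.log W with hL
  set Z := Real.log z with hZ
  have hLpos : 0 < L := by linarith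
  have hZpos : 0 < Z := by linarith
  -- bounds on phi
  have hphi1 : ∀ A : Finset ι, 0 < s.phi A := by
    intro A
    unfold Sys.phi
    apply Finset.prod_pos
    intro i _
    have : W < s.pr i := hpr i
    have : (2 : ℝ) < s.pr i := by
      have : 2 < s.pr i := by omega
      exact_mod_cast this
    linarith
  have hrho1 : ∀ A : Finset ι, 1 ≤ s.rho A := by
    intro A
    unfold Sys.rho
    have h0 : ∏ i ∈ A, (1 : ℝ) ≤ ∏ i ∈ A, (s.pr i : ℝ) := by
      apply Finset.prod_le_prod (fun _ _ => by norm_num)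
      intro i _
      have : 1 ≤ s.pr i := by have := hpr i; omega
      exact_mod_cast this
    simpa using h0
  have hrho2 : ∀ A : Finset ι, A ≠ ∅ → 1 < s.rho A := by
    intro A hA
    obtain ⟨i, hi⟩ := Finset.nonempty_iff_ne_empty.mpr hA
    have h1 : s.rho A = (s.pr i : ℝ) * s.rho (A.erase i) := by
      unfold Sys.rho
      rw [Finset.mul_prod_erase A (fun i => (s.pr i : ℝ)) hi]
    rw [h1]
    have h2 := hrho1 (A.erase i)
    have : (2 : ℝ) < s.pr i := by
      have : 2 < s.pr i := by have := hpr i; omega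
      exact_mod_cast this
    nlinarith
  -- the set K
  set a := ⌈Real.logb 2 (1000 * L)⌉₊ with ha
  set b := ⌊Real.logb 2 Z⌋₊ with hb
  have h1000 : 1 < 1000 * L := by linarith
  have hloga : 0 ≤ Real.logb 2 (1000 * L) := Real.logb_nonneg (by norm_num) h1000.le
  have hZ1 : 1 < Z := by linarith
  have hlogb : 0 ≤ Real.logb 2 Z := Real.logb_nonneg (by norm_num) hZ1.le
  have hK1 : ∀ k ∈ Finset.Icc a b, 1000 * L ≤ (2 : ℝ) ^ k := by
    intro k hk
    rw [Finset.mem_Icc] at hk
    have h1 : Real.logb 2 (1000 * L) ≤ k := by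
      calc Real.logb 2 (1000 * L) ≤ (a : ℝ) := Nat.le_ceil _
        _ ≤ k := by exact_mod_cast hk.1
    rw [Real.logb_le_iff_le_rpow (by norm_num) (by linarith)] at h1
    rwa [Real.rpow_natCast] at h1
  have hK2 : ∀ k ∈ Finset.Icc a b, (2 : ℝ) ^ k ≤ Z := by
    intro k hk
    rw [Finset.mem_Icc] at hk
    have h1 : (k : ℝ) ≤ Real.logb 2 Z := by
      calc (k : ℝ) ≤ (b : ℝ) := by exact_mod_cast hk.2
        _ ≤ Real.logb 2 Z := Nat.floor_le hlogb
    rw [Real.le_logb_iff_rpow_le (by norm_num) hZpos] at h1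
    rwa [Real.rpow_natCast] at h1
  have hcard : Real.log (Z / (2000 * L)) ≤ ((Finset.Icc a b).card : ℝ) := by
    rw [Nat.card_Icc]
    have h1 : Real.logb 2 Z < b + 1 := Nat.lt_floor_add_one _
    have h2 : (a : ℝ) < Real.logb 2 (1000 * L) + 1 := Nat.ceil_lt_add_one hloga
    have h3 : ((b : ℝ) + 1 - a) ≤ ((b + 1 - a : ℕ) : ℝ) := by
      have := Nat.le_sub_iff_add_le (k := 0) (m := 0) (n := 0)
      by_cases h : a ≤ b + 1
      · rw [Nat.cast_sub h]; push_cast; linarith
      · have h4 : b + 1 < a := by omega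
        have h5 : ((b : ℝ) + 1) < a := by exact_mod_cast h4
        have h6 : (0 : ℝ) ≤ ((b + 1 - a : ℕ) : ℝ) := Nat.cast_nonneg _
        linarith
    refine le_trans ?_ h3
    have h4 : Real.logb 2 (Z / (2000 * L)) ≤ (b : ℝ) + 1 - a := by
      have h5 : Real.logb 2 (Z / (2000 * L)) = Real.logb 2 Z - Real.logb 2 (1000 * L) - 1 := by
        have h6 : Z / (2000 * L) = Z / (1000 * L) / 2 := by
          field_simp
          norm_num
        rw [h6, Real.logb_div (by positivity) (by norm_num), Real.logb_div (by positivity)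
          (by positivity), Real.logb_self_eq_one (by norm_num)]
      rw [h5]
      linarith
    refine le_trans ?_ h4
    have h7 : 0 ≤ Real.log (Z / (2000 * L)) := by
      apply Real.log_nonneg
      rw [le_div_iff₀ (by positivity)]
      linarith
    unfold Real.logb
    rw [le_div_iff₀ (by linarith)]
    nlinarith
  -- main estimate
  have hmain : ∀ k ∈ Finset.Icc a b, 1 / (1000 * L) ≤ (1 / 2) ^ k *
      ∑ A ∈ (univ : Finset (Finset ι)).filter (fun A => A ≠ ∅ ∧ s.rho A ≤ z),
        (if Real.log (s.rho A) ≤ 2 ^ k then 1 / s.phi A else 0) := by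
    intro k hk
    have hk1 := hK1 k hk
    have hk2 := hK2 k hk
    have hD1 : 1 ≤ Real.exp ((2 : ℝ) ^ k) := Real.one_le_exp (by positivity)
    have hDz : Real.exp ((2 : ℝ) ^ k) ≤ z := by
      rw [← Real.exp_log hz0]
      exact Real.exp_le_exp.mpr hk2
    have hv := vlow s W N hW hpr hall (Real.exp ((2 : ℝ) ^ k)) hD1 (hDz.trans hzN)
    rw [Real.log_exp] at hv
    have hV : ∑ A ∈ univ.filter (fun A : Finset ι => s.rho A ≤ Real.exp ((2 : ℝ) ^ k)), 1 / s.phi A
        = 1 + ∑ A ∈ (univ : Finset (Finset ι)).filter (fun A => A ≠ ∅ ∧ s.rho A ≤ z),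
        (if Real.log (s.rho A) ≤ 2 ^ k then 1 / s.phi A else 0) := by
      rw [← Finset.sum_filter, Finset.filter_filter]
      have h1 : (univ.filter (fun A : Finset ι => s.rho A ≤ Real.exp ((2 : ℝ) ^ k)))
          = insert ∅ ((univ : Finset (Finset ι)).filter
            (fun A => (A ≠ ∅ ∧ s.rho A ≤ z) ∧ Real.log (s.rho A) ≤ 2 ^ k)) := by
        ext A
        simp only [Finset.mem_filter, Finset.mem_univ, true_and, Finset.mem_insert]
        constructor
        · intro h
          by_cases hA : A = ∅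
          · left; exact hA
          · right
            refine ⟨⟨hA, h.trans hDz⟩, ?_⟩
            rw [Real.log_le_iff_le_exp (by have := hrho1 A; linarith)]
            exact h
        · rintro (h | h)
          · subst h
            have : s.rho (∅ : Finset ι) = 1 := by simp [Sys.rho]
            rw [this]; exact hD1
          · rw [← Real.log_le_iff_le_exp (by have := hrho1 A; linarith)]
            exact h.2
      rw [h1, Finset.sum_insert (by simp)]
      congr 1
      simp [Sys.phi]
    rw [hV] at hv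
    set T := ∑ A ∈ (univ : Finset (Finset ι)).filter (fun A => A ≠ ∅ ∧ s.rho A ≤ z),
        (if Real.log (s.rho A) ≤ 2 ^ k then 1 / s.phi A else 0) with hT
    rw [← hL] at hv
    have h2k : (0 : ℝ) < 2 ^ k := by positivity
    rw [div_pow, one_pow, one_div_mul_eq_div, div_le_div_iff₀ (by positivity) h2k]
    nlinarith
  have hS : ((Finset.Icc a b).card : ℝ) * (1 / (1000 * L)) ≤ 2 * SS s z := by
    calc ((Finset.Icc a b).card : ℝ) * (1 / (1000 * L))
        = ∑ k ∈ Finset.Icc a b, 1 / (1000 * L) := by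
          rw [Finset.sum_const, nsmul_eq_mul]
      _ ≤ ∑ k ∈ Finset.Icc a b, (1 / 2) ^ k *
        ∑ A ∈ (univ : Finset (Finset ι)).filter (fun A => A ≠ ∅ ∧ s.rho A ≤ z),
        (if Real.log (s.rho A) ≤ 2 ^ k then 1 / s.phi A else 0) := Finset.sum_le_sum hmain
      _ = ∑ A ∈ (univ : Finset (Finset ι)).filter (fun A => A ≠ ∅ ∧ s.rho A ≤ z),
          (∑ k ∈ (Finset.Icc a b).filter (fun k => Real.log (s.rho A) ≤ 2 ^ k), (1 / 2 : ℝ) ^ k) *
            (1 / s.phi A) := by
          simp_rw [Finset.mul_sum]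
          rw [Finset.sum_comm]
          apply Finset.sum_congr rfl
          intro A _
          rw [Finset.sum_filter, Finset.sum_mul]
          apply Finset.sum_congr rfl
          intro k _
          split_ifs <;> simp
      _ ≤ ∑ A ∈ (univ : Finset (Finset ι)).filter (fun A => A ≠ ∅ ∧ s.rho A ≤ z),
          2 * (1 / (s.phi A * Real.log (s.rho A))) := by
          apply Finset.sum_le_sum
          intro A hA
          simp only [Finset.mem_filter, Finset.mem_univ, true_and] at hA
          have hlog : 0 < Real.log (s.rho A) := Real.log_pos (hrho2 A hA.1)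
          have h1 := slow_geo ((Finset.Icc a b).filter (fun k => Real.log (s.rho A) ≤ 2 ^ k))
            (Real.log (s.rho A)) hlog (fun k hk => (Finset.mem_filter.mp hk).2)
          have h2 := hphi1 A
          calc _ ≤ (2 / Real.log (s.rho A)) * (1 / s.phi A) :=
                mul_le_mul_of_nonneg_right h1 (by positivity)
            _ = 2 * (1 / (s.phi A * Real.log (s.rho A))) := by
                field_simp
      _ = 2 * SS s z := by
          unfold SS
          rw [Finset.mul_sum]
  rw [div_le_iff₀ (by positivity)]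
  have h1 : ((Finset.Icc a b).card : ℝ) ≤ 2 * SS s z * (1000 * L) := by
    have h2 : ((Finset.Icc a b).card : ℝ) = ((Finset.Icc a b).card : ℝ) * (1 / (1000 * L)) *
      (1000 * L) := by
      field_simp
    rw [h2]
    exact mul_le_mul_of_nonneg_right hS (by positivity)
  linarith

end Pool.Agent.Lib.H56G
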