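import Pool.Agent.Lib.H56G.Defs

/-!
# Chunk GRAM1: correlations at one prime
-/

open Finset

namespace Pool.Agent.Lib.H56G

variable {ι J : Type} [Fintype ι] [DecidableEq ι] [Fintype J] [DecidableEq J]

omit [Fintype ι] [DecidableEq ι] [Fintype J] [DecidableEq J] in
theorem gram1_T (s : Sys ι J) (i : ι) (j : J) : ∃ T, T < s.pr i ∧
    ∀ t < s.pr i, (s.pr i ∣ s.b j + s.M * t ↔ t = T) := by
  have : Fact (s.pr i).Prime := ⟨s.prime i⟩
  have hM : (s.M : ZMod (s.pr i)) ≠ 0 := by
    rw [Ne, ZMod.natCast_eq_zero_iff]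
    exact s.copM i
  refine ⟨(-(s.b j : ZMod (s.pr i)) * (s.M : ZMod (s.pr i))⁻¹).val, ZMod.val_lt _, fun t ht => ?_⟩
  rw [← ZMod.natCast_eq_zero_iff]
  push_cast
  constructor
  · intro h
    have h1 : (t : ZMod (s.pr i)) = -(s.b j : ZMod (s.pr i)) * (s.M : ZMod (s.pr i))⁻¹ := by
      field_simp
      linear_combination h
    rw [← h1, ZMod.val_cast_of_lt ht]
  · intro h
    have h1 : (t : ZMod (s.pr i)) = -(s.b j : ZMod (s.pr i)) * (s.M : ZMod (s.pr i))⁻¹ := by
      rw [h, ZMod.natCast_zmod_val]
    rw [h1]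
    field_simp
    ring

/-- One prime. Exactly one residue class `t mod p` has `p ∣ b j + M t` (as `p ∤ M`), and for
`j ≠ j'` the two classes are different (`dist`). The values of the product
`(κ i).elim 1 u * (κ' i).elim 1 u` on a period are therefore: `1` always (`none, none`);
`1` except once `1 - p` (one `none`): sum `0`; `1` except once `(1-p)^2` (same `j`):
sum `(p-1) + (p-1)^2 = p (p-1)`; `1` except twice `1-p`: sum `(p-2) + 2(1-p) = -p`. -/
theorem sum_range_one (s : Sys ι J) (i : ι) (a a' : Option J) :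
    ∑ t ∈ range (s.pr i), (a.elim 1 (fun j => s.u i j t)) * (a'.elim 1 (fun j => s.u i j t))
      = (s.pr i : ℝ) * s.gram i a a' := by
  choose T hT hT' using gram1_T s i
  have hu : ∀ j, ∀ t ∈ range (s.pr i), s.u i j t = 1 - (s.pr i : ℝ) * (if t = T j then 1 else 0) := by
    intro j t ht
    unfold Sys.u
    rw [if_congr (hT' j t (mem_range.1 ht)) rfl rfl]
    split_ifs <;> ring
  have hs1 : ∀ j, ∑ t ∈ range (s.pr i), (if t = T j then (1 : ℝ) else 0) = 1 := by
    intro j
    rw [sum_ite_eq' (range (s.pr i)) (T j) (fun _ => (1 : ℝ)), if_pos (mem_range.2 (hT j))]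
  have hone : ∀ j, ∑ t ∈ range (s.pr i), s.u i j t = 0 := by
    intro j
    rw [sum_congr rfl (hu j), sum_sub_distrib, ← mul_sum, hs1]
    simp
  rcases a with _ | j <;> rcases a' with _ | j'
  · simp [Sys.gram]
  · simp only [Option.elim_none, Option.elim_some, one_mul, Sys.gram, mul_zero]
    exact hone j'
  · simp only [Option.elim_none, Option.elim_some, mul_one, Sys.gram, mul_zero]
    exact hone j
  · simp only [Option.elim_some]
    have e : ∑ t ∈ range (s.pr i), s.u i j t * s.u i j' t =
        ∑ t ∈ range (s.pr i), (1 - (s.pr i : ℝ) * (if t = T j then 1 else 0)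
          - (s.pr i : ℝ) * (if t = T j' then 1 else 0)
          + (s.pr i : ℝ) ^ 2 * (if t = T j then (if T j = T j' then 1 else 0) else 0)) := by
      refine sum_congr rfl fun t ht => ?_
      rw [hu j t ht, hu j' t ht]
      by_cases h1 : t = T j
      · subst h1
        by_cases h2 : T j = T j'
        · simp only [h2, if_true]; ring
        · simp only [h2, if_true, if_false]; ring
      · simp only [h1, if_false]; ring
    rw [e, sum_add_distrib, sum_sub_distrib, sum_sub_distrib, ← mul_sum, ← mul_sum, ← mul_sum,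
      hs1, hs1, sum_ite_eq' (range (s.pr i)) (T j) (fun _ => if T j = T j' then (1 : ℝ) else 0),
      if_pos (mem_range.2 (hT j))]
    by_cases hjj : j = j'
    · subst hjj
      simp only [if_true, Sys.gram, sum_const, card_range, nsmul_eq_mul]
      ring
    · have hne : T j ≠ T j' := by
        intro h
        apply s.dist i j j' hjj
        have h1 := (hT' j (T j) (hT j)).2 rfl
        have h2 := (hT' j' (T j') (hT j')).2 rfl
        rw [← h] at h2
        have h3 : s.b j + s.M * T j ≡ s.b j' + s.M * T j [MOD s.pr i] :=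
          ((Nat.modEq_zero_iff_dvd.2 h1).trans (Nat.modEq_zero_iff_dvd.2 h2).symm)
        exact Nat.ModEq.add_right_cancel' _ h3
      simp only [Sys.gram, if_neg hjj, if_neg hne, sum_const, card_range, nsmul_eq_mul]
      ring

end Pool.Agent.Lib.H56G
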