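import Pool.Agent.Lib.H56G.Crt
import Pool.Agent.Lib.H56G.Gram1

/-!
# Chunk GRAM2: correlations of the `U κ`
-/

open Finset

namespace Pool.Agent.Lib.H56G

variable {ι J : Type} [Fintype ι] [DecidableEq ι] [Fintype J] [DecidableEq J]

/-- the factor of one prime -/
noncomputable def gram2_F (s : Sys ι J) (κ κ' : ι → Option J) (i : ι) (t : ℕ) : ℝ :=
  ((κ i).elim 1 (fun j => s.u i j t)) * ((κ' i).elim 1 (fun j => s.u i j t))

omit [Fintype ι] [DecidableEq ι] [Fintype J] [DecidableEq J] in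
theorem gram2_u_periodic (s : Sys ι J) (i : ι) (j : J) (t : ℕ) :
    s.u i j (t + s.pr i) = s.u i j t := by
  unfold Sys.u
  have : s.b j + s.M * (t + s.pr i) = s.b j + s.M * t + s.pr i * s.M := by ring
  rw [this]
  exact if_congr (Nat.dvd_add_left (Nat.dvd_mul_right _ _)) rfl rfl

omit [Fintype ι] [DecidableEq ι] [Fintype J] [DecidableEq J] in
theorem gram2_periodic (s : Sys ι J) (κ κ' : ι → Option J) (i : ι) :
    Function.Periodic (gram2_F s κ κ' i) (s.pr i) := by
  intro t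
  unfold gram2_F
  rcases κ i with _ | j <;> rcases κ' i with _ | j' <;>
    simp only [Option.elim_none, Option.elim_some, gram2_u_periodic]

omit [Fintype ι] [DecidableEq ι] [Fintype J] [DecidableEq J] in
theorem gram2_u_abs (s : Sys ι J) (i : ι) (j : J) (t : ℕ) : |s.u i j t| ≤ s.pr i := by
  have hp : (2 : ℝ) ≤ s.pr i := by exact_mod_cast (s.prime i).two_le
  unfold Sys.u
  split_ifs
  · rw [abs_le]; constructor <;> linarith
  · rw [abs_one]; linarith

omit [DecidableEq ι] [Fintype J] [DecidableEq J] in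
theorem gram2_r (s : Sys ι J) (κ : ι → Option J) :
    s.r κ = ∏ i, if (κ i).isSome then (s.pr i : ℝ) else 1 := by
  unfold Sys.r Sys.rho supp
  rw [prod_filter]

omit [Fintype ι] [DecidableEq ι] [Fintype J] [DecidableEq J] in
theorem gram2_elim_abs (s : Sys ι J) (i : ι) (a : Option J) (t : ℕ) :
    |a.elim 1 (fun j => s.u i j t)| ≤ if a.isSome then (s.pr i : ℝ) else 1 := by
  rcases a with _ | j
  · simp
  · simpa using gram2_u_abs s i j t

/-- Correlations. `U κ t * U κ' t = ∏_{i ∈ A} F i t` with `A = supp κ ∪ supp κ'` (outside `A` the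
factors are `1`), `F i` periodic mod `pr i`. By `sum_range_prod` and `sum_range_one` the mean value
over a period `q = ∏_{i ∈ A} pr i` is `∏_i gram` (for `i ∉ A` the entry is `gram none none = 1`).
`|F i t| ≤ pr i` if `i` is in only one of the two supports, `≤ (pr i)^2` if in both; so
`|U κ t * U κ' t| ≤ r κ * r κ'`, and `q ≤ r κ * r κ'`. Now `abs_sum_Icc_sub_le`. -/
theorem abs_sum_U_mul_U_sub_le (s : Sys ι J) (κ κ' : ι → Option J) (Y : ℕ) :
    |∑ t ∈ Icc 1 Y, s.U κ t * s.U κ' t - Y * ∏ i, s.gram i (κ i) (κ' i)|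
      ≤ 2 * (s.r κ * s.r κ') ^ 2 := by
  have hp1 : ∀ i, (1 : ℝ) ≤ s.pr i := fun i => by exact_mod_cast (s.prime i).one_lt.le
  have hA : ∀ i, i ∉ supp κ ∪ supp κ' → κ i = none ∧ κ' i = none := by
    intro i hi
    simpa [supp] using hi
  -- product form
  have h1 : ∀ t, s.U κ t * s.U κ' t = ∏ i ∈ supp κ ∪ supp κ', gram2_F s κ κ' i t := by
    intro t
    have e : s.U κ t * s.U κ' t = ∏ i, gram2_F s κ κ' i t := by
      unfold Sys.U gram2_F
      rw [prod_mul_distrib]
    rw [e]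
    symm
    refine prod_subset (subset_univ _) fun i _ hi => ?_
    obtain ⟨h2, h3⟩ := hA i hi
    simp [gram2_F, h2, h3]
  have hq : 0 < ∏ i ∈ supp κ ∪ supp κ', s.pr i :=
    prod_pos fun i _ => (s.prime i).pos
  have hper : Function.Periodic (fun t => ∏ i ∈ supp κ ∪ supp κ', gram2_F s κ κ' i t)
      (∏ i ∈ supp κ ∪ supp κ', s.pr i) := by
    intro t
    refine prod_congr rfl fun i hi => ?_
    obtain ⟨c, hc⟩ := dvd_prod_of_mem s.pr hi
    rw [hc, mul_comm]
    have := (gram2_periodic s κ κ' i).nat_mul c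
    simpa using this t
  have hK : ∀ t, |∏ i ∈ supp κ ∪ supp κ', gram2_F s κ κ' i t| ≤ s.r κ * s.r κ' := by
    intro t
    rw [← h1 t, abs_mul]
    have hU : ∀ κ : ι → Option J, |s.U κ t| ≤ s.r κ := by
      intro κ
      rw [gram2_r]
      unfold Sys.U
      rw [abs_prod]
      exact prod_le_prod (fun i _ => abs_nonneg _) fun i _ => gram2_elim_abs s i (κ i) t
    exact mul_le_mul (hU κ) (hU κ') (abs_nonneg _) ((abs_nonneg _).trans (hU κ))
  have hmean : (∑ t ∈ range (∏ i ∈ supp κ ∪ supp κ', s.pr i),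
      ∏ i ∈ supp κ ∪ supp κ', gram2_F s κ κ' i t) / ((∏ i ∈ supp κ ∪ supp κ', s.pr i : ℕ) : ℝ) =
      ∏ i, s.gram i (κ i) (κ' i) := by
    rw [sum_range_prod s.pr s.prime s.inj _ _ (gram2_periodic s κ κ')]
    have e : ∏ i ∈ supp κ ∪ supp κ', ∑ t ∈ range (s.pr i), gram2_F s κ κ' i t =
        ∏ i ∈ supp κ ∪ supp κ', ((s.pr i : ℝ) * s.gram i (κ i) (κ' i)) :=
      prod_congr rfl fun i _ => sum_range_one s i (κ i) (κ' i)
    rw [e, prod_mul_distrib, Nat.cast_prod]
    rw [mul_div_assoc, mul_comm, div_mul_cancel₀]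
    · refine prod_subset (subset_univ _) fun i _ hi => ?_
      obtain ⟨h2, h3⟩ := hA i hi
      simp [Sys.gram, h2, h3]
    · exact prod_ne_zero_iff.2 fun i _ => by have := hp1 i; linarith
  have hqK : ((∏ i ∈ supp κ ∪ supp κ', s.pr i : ℕ) : ℝ) ≤ s.r κ * s.r κ' := by
    rw [gram2_r, gram2_r, ← prod_mul_distrib, Nat.cast_prod]
    have e : ∏ i ∈ supp κ ∪ supp κ', (s.pr i : ℝ) =
        ∏ i, if i ∈ supp κ ∪ supp κ' then (s.pr i : ℝ) else 1 := by
      rw [prod_ite_mem, univ_inter]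
    rw [e]
    refine prod_le_prod (fun i _ => ?_) fun i _ => ?_
    · split_ifs
      · linarith [hp1 i]
      · norm_num
    · have h2 := hp1 i
      by_cases ha : (κ i).isSome <;> by_cases hb : (κ' i).isSome <;>
        simp only [ha, hb, supp, mem_union, mem_filter, mem_univ, true_and, or_true, true_or,
          or_self, if_true, if_false, Bool.false_eq_true] <;> nlinarith
  have h2 := abs_sum_Icc_sub_le _ hq _ hper _ hK Y
  rw [hmean] at h2
  have e : ∑ t ∈ Icc 1 Y, s.U κ t * s.U κ' t =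
      ∑ t ∈ Icc 1 Y, ∏ i ∈ supp κ ∪ supp κ', gram2_F s κ κ' i t :=
    sum_congr rfl fun t _ => h1 t
  rw [e]
  refine h2.trans ?_
  have h3 : 0 ≤ s.r κ * s.r κ' := (Nat.cast_nonneg _).trans hqK
  nlinarith

end Pool.Agent.Lib.H56G
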