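import Pool.Agent.Lib.H56G.Off

/-!
# Chunk CHER1: changing the weight of one form
-/

open Finset

namespace Pool.Agent.Lib.H56G

variable {ι J : Type} [Fintype ι] [DecidableEq ι] [Fintype J] [DecidableEq J]

/-- One form at a time. For a list of general nonnegative weights `v j A` with `v j ∅ = 1`:
replacing `v j0` by `v' j0 ≥ v j0` (`v' j0 ∅ = 1`) multiplies the sum
`Σ_κ ∏_j v j (part κ j)` at most by `1 + Σ_{A ≠ ∅} (v' j0 A - v j0 A)`: by `sum_off`, for fixed
`κ' ∈ noJ j0` the inner sum is `Σ_{A ⊆ free κ'} v' A = Σ_{A ⊆ free κ'} v A + Σ (v' A - v A)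
≤ (1 + m) Σ_{A ⊆ free κ'} v A` since the term `A = ∅` gives `1`. -/
theorem cher_step (v v' : J → Finset ι → ℝ) (j0 : J) (h0 : ∀ j A, 0 ≤ v j A)
    (hj : ∀ j, j ≠ j0 → v' j = v j) (hle : ∀ A, v j0 A ≤ v' j0 A)
    (h1 : v j0 ∅ = 1) (h1' : v' j0 ∅ = 1) :
    ∑ κ : ι → Option J, ∏ j, v' j (part κ j)
      ≤ (1 + ∑ A ∈ univ.filter (fun A : Finset ι => A ≠ ∅), (v' j0 A - v j0 A)) *
        ∑ κ : ι → Option J, ∏ j, v j (part κ j) := by
  set m := ∑ A ∈ univ.filter (fun A : Finset ι => A ≠ ∅), (v' j0 A - v j0 A) with hm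
  have hm0 : ∀ A, 0 ≤ v' j0 A - v j0 A := fun A => sub_nonneg.2 (hle A)
  have hfac : ∀ w : J → Finset ι → ℝ, ∀ κ ∈ noJ j0 (ι := ι), ∀ A ∈ (free κ).powerset,
      ∏ j, w j (part (ins κ j0 A) j) =
        w j0 A * ∏ j ∈ univ.erase j0, w j (part κ j) := by
    intro w κ hκ A hA
    rw [mem_powerset] at hA
    rw [← mul_prod_erase univ _ (mem_univ j0), part_ins_same κ j0 hκ A hA]
    congr 1
    refine prod_congr rfl fun j hj => ?_
    rw [part_ins_other κ j0 j (ne_of_mem_erase hj) A hA]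
  rw [sum_off j0, sum_off j0 (fun κ => ∏ j, v j (part κ j)), mul_sum]
  refine sum_le_sum fun κ hκ => ?_
  rw [sum_congr rfl (hfac v' κ hκ), sum_congr rfl (hfac v κ hκ), ← sum_mul, ← sum_mul, ← mul_assoc]
  have hother : ∏ j ∈ univ.erase j0, v' j (part κ j) = ∏ j ∈ univ.erase j0, v j (part κ j) :=
    prod_congr rfl fun j hj' => by rw [hj j (ne_of_mem_erase hj')]
  rw [hother]
  refine mul_le_mul_of_nonneg_right ?_ (prod_nonneg fun j _ => h0 j _)
  have h2 : ∑ A ∈ (free κ).powerset, v' j0 A =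
      ∑ A ∈ (free κ).powerset, v j0 A + ∑ A ∈ (free κ).powerset, (v' j0 A - v j0 A) := by
    rw [← sum_add_distrib]
    exact sum_congr rfl fun A _ => by ring
  have h3 : ∑ A ∈ (free κ).powerset, (v' j0 A - v j0 A) ≤ m := by
    have h4 : ∑ A ∈ (free κ).powerset, (v' j0 A - v j0 A) ≤
        ∑ A : Finset ι, (v' j0 A - v j0 A) :=
      sum_le_sum_of_subset_of_nonneg (subset_univ _) fun A _ _ => hm0 A
    have h5 : ∑ A : Finset ι, (v' j0 A - v j0 A) = m := by
      rw [hm, sum_filter]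
      refine sum_congr rfl fun A _ => ?_
      by_cases hA : A = ∅
      · subst hA
        rw [h1, h1']
        simp
      · rw [if_pos hA]
    linarith
  have h6 : 1 ≤ ∑ A ∈ (free κ).powerset, v j0 A := by
    rw [← h1]
    exact single_le_sum (f := fun A => v j0 A) (fun A _ => h0 j0 A)
      (mem_powerset.2 (empty_subset _))
  have h7 : 0 ≤ m := by
    rw [hm]; exact sum_nonneg fun A _ => hm0 A
  rw [h2]
  nlinarith

end Pool.Agent.Lib.H56G
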