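import Pool.Agent.Lib.H56G.Coef1

/-!
# Chunk COEF2: the restricted coefficients `cp`
-/

open Finset

namespace Pool.Agent.Lib.H56G

variable {ι J : Type} [Fintype ι] [DecidableEq ι] [Fintype J] [DecidableEq J]

/-- value of `cc` at `ins κ j0 A` -/
theorem coef2_cc_ins (s : Sys ι J) (bb : Finset ι → ℝ) (D : ℝ) (j0 : J) (κ : ι → Option J)
    (hκ : κ ∈ noJ j0) (A : Finset ι) (hA : A ⊆ free κ) :
    cc s bb D (ins κ j0 A) =
      if s.r κ * s.rho A ≤ D then gam bb A * ∏ j, gam bb (part κ j) else 0 := by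
  unfold cc
  rw [r_ins s κ j0 A hA]
  have h1 : ∏ j, gam bb (part (ins κ j0 A) j) = gam bb A * ∏ j, gam bb (part κ j) := by
    rw [← Finset.mul_prod_erase univ _ (mem_univ j0), part_ins_same κ j0 hκ A hA]
    rw [← Finset.mul_prod_erase univ (fun j => gam bb (part κ j)) (mem_univ j0),
      part_noJ κ j0 hκ]
    have h2 : ∏ j ∈ univ.erase j0, gam bb (part (ins κ j0 A) j)
        = ∏ j ∈ univ.erase j0, gam bb (part κ j) := by
      refine Finset.prod_congr rfl fun j hj => ?_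
      rw [part_ins_other κ j0 j (Finset.ne_of_mem_erase hj) A hA]
    rw [h2]
    simp [gam]
  rw [h1]

/-- For `κ ∈ noJ j0`: `gam` of the part `j0` of `ins κ j0 A` is `gam A`, the other parts do not
change, and the part `j0` of `κ` is empty with `gam ∅ = 1`; the term `A = ∅` gives `cc κ`. -/
theorem cp_cc (s : Sys ι J) (bb : Finset ι → ℝ) (D : ℝ) (j0 : J) (κ : ι → Option J)
    (hκ : κ ∈ noJ j0) :
    cp j0 (cc s bb D) κ = cc s bb D κ *
      (1 - ∑ A ∈ (free κ).powerset.filter (fun A => A ≠ ∅ ∧ s.r κ * s.rho A ≤ D), bb A) := by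
  have hr0 : 0 ≤ s.r κ := le_trans zero_le_one (one_le_rho s _)
  unfold cp
  have h1 : ∀ A ∈ (free κ).powerset, cc s bb D (ins κ j0 A) =
      cc s bb D κ * (if A = ∅ then 1 else if s.r κ * s.rho A ≤ D then - bb A else 0) := by
    intro A hA
    rw [coef2_cc_ins s bb D j0 κ hκ A (mem_powerset.mp hA)]
    unfold cc
    by_cases hE : A = ∅
    · subst hE
      have : s.rho ∅ = 1 := by simp [Sys.rho]
      rw [this, mul_one]
      simp [gam]
    · simp only [hE, if_false]
      by_cases hD : s.r κ * s.rho A ≤ D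
      · have hD2 : s.r κ ≤ D := le_trans (le_mul_of_one_le_right hr0 (one_le_rho s A)) hD
        rw [if_pos hD, if_pos hD2]
        simp only [gam, hE, if_false, hD, if_true]
        ring
      · simp [hD]
  rw [Finset.sum_congr rfl h1, ← Finset.mul_sum]
  congr 1
  rw [← Finset.sum_erase_add _ _ (empty_mem_powerset (free κ))]
  simp only [if_true]
  rw [add_comm, sub_eq_add_neg]
  congr 1
  rw [← Finset.sum_neg_distrib, Finset.sum_filter]
  rw [← Finset.sum_erase_add (free κ).powerset _ (empty_mem_powerset (free κ))]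
  simp only [ne_eq, not_true_eq_false, false_and, if_false, add_zero]
  refine Finset.sum_congr rfl fun A hA => ?_
  have hE : A ≠ ∅ := Finset.ne_of_mem_erase hA
  simp [hE]

omit [Fintype ι] in
theorem coef2_union_le (f : Finset ι → ℝ) (h0 : ∀ A, 0 ≤ f A) (P Q : Finset (Finset ι)) :
    ∑ A ∈ P ∪ Q, f A ≤ ∑ A ∈ P, f A + ∑ A ∈ Q, f A := by
  rw [← Finset.sum_union_inter]
  have := Finset.sum_nonneg (fun A (_ : A ∈ P ∩ Q) => h0 A)
  linarith

omit [Fintype ι] in
theorem coef2_biUnion_le (f : Finset ι → ℝ) (h0 : ∀ A, 0 ≤ f A) (S : Finset ι)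
    (t : ι → Finset (Finset ι)) :
    ∑ A ∈ S.biUnion t, f A ≤ ∑ i ∈ S, ∑ A ∈ t i, f A := by
  induction S using Finset.induction_on with
  | empty => simp
  | insert a S ha ih =>
    rw [Finset.biUnion_insert, Finset.sum_insert ha]
    exact le_trans (coef2_union_le f h0 _ _) (by linarith)

omit [Fintype J] [DecidableEq J] in
/-- the bracket -/
theorem coef2_bracket (s : Sys ι J) (bb : Finset ι → ℝ) (h0 : ∀ A, 0 ≤ bb A)
    (hsum : ∑ A ∈ univ.filter (fun A : Finset ι => A ≠ ∅), bb A = 1) (D : ℝ)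
    (κ : ι → Option J) :
    0 ≤ 1 - ∑ A ∈ (free κ).powerset.filter (fun A => A ≠ ∅ ∧ s.r κ * s.rho A ≤ D), bb A ∧
    1 - ∑ A ∈ (free κ).powerset.filter (fun A => A ≠ ∅ ∧ s.r κ * s.rho A ≤ D), bb A ≤ 1 := by
  constructor
  · rw [← hsum, sub_nonneg]
    refine Finset.sum_le_sum_of_subset_of_nonneg ?_ fun A _ _ => h0 A
    intro A hA
    rw [mem_filter] at hA ⊢
    exact ⟨mem_univ _, hA.2.1⟩
  · have := Finset.sum_nonneg (fun A (_ : A ∈ (free κ).powerset.filter
      (fun A => A ≠ ∅ ∧ s.r κ * s.rho A ≤ D)) => h0 A)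
    linarith

/-- The bracket is in `[0, 1]`. -/
theorem abs_cp_le (s : Sys ι J) (bb : Finset ι → ℝ) (h0 : ∀ A, 0 ≤ bb A)
    (hsum : ∑ A ∈ univ.filter (fun A : Finset ι => A ≠ ∅), bb A = 1) (D : ℝ) (j0 : J)
    (κ : ι → Option J) (hκ : κ ∈ noJ j0) :
    |cp j0 (cc s bb D) κ| ≤ |cc s bb D κ| := by
  rw [cp_cc s bb D j0 κ hκ, abs_mul]
  obtain ⟨h1, h2⟩ := coef2_bracket s bb h0 hsum D κ
  rw [abs_of_nonneg h1]
  exact mul_le_of_le_one_right (abs_nonneg _) h2

/-- If `r κ * z ≤ D` the bracket is the sum of `bb A` over the nonempty `A` which meet `supp κ`. -/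
theorem abs_cp_le_mul (s : Sys ι J) (bb : Finset ι → ℝ) (h0 : ∀ A, 0 ≤ bb A)
    (hsum : ∑ A ∈ univ.filter (fun A : Finset ι => A ≠ ∅), bb A = 1) (z D : ℝ)
    (hz : ∀ A, bb A ≠ 0 → s.rho A ≤ z) (j0 : J)
    (κ : ι → Option J) (hκ : κ ∈ noJ j0) (hr : s.r κ * z ≤ D) :
    |cp j0 (cc s bb D) κ| ≤ |cc s bb D κ| *
      ∑ i ∈ supp κ, ∑ A ∈ univ.filter (fun A : Finset ι => i ∈ A), bb A := by
  rw [cp_cc s bb D j0 κ hκ, abs_mul]
  obtain ⟨h1, h2⟩ := coef2_bracket s bb h0 hsum D κ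
  rw [abs_of_nonneg h1]
  refine mul_le_mul_of_nonneg_left ?_ (abs_nonneg _)
  have hr0 : 0 ≤ s.r κ := le_trans zero_le_one (one_le_rho s _)
  rw [← hsum, sub_le_iff_le_add]
  -- every nonempty A is either in the filter set or meets the support (or has bb A = 0)
  have h3 : ∑ A ∈ univ.filter (fun A : Finset ι => A ≠ ∅), bb A ≤
      ∑ A ∈ (supp κ).biUnion (fun i => univ.filter (fun A : Finset ι => i ∈ A)) ∪
        (free κ).powerset.filter (fun A => A ≠ ∅ ∧ s.r κ * s.rho A ≤ D), bb A := by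
    rw [← Finset.sum_filter_add_sum_filter_not (univ.filter (fun A : Finset ι => A ≠ ∅))
      (fun A => bb A ≠ 0)]
    have h4 : ∑ A ∈ (univ.filter (fun A : Finset ι => A ≠ ∅)).filter (fun A => ¬ bb A ≠ 0),
        bb A = 0 := by
      refine Finset.sum_eq_zero fun A hA => ?_
      rw [mem_filter] at hA
      exact not_not.mp hA.2
    rw [h4, add_zero]
    refine Finset.sum_le_sum_of_subset_of_nonneg ?_ fun A _ _ => h0 A
    intro A hA
    rw [mem_filter, mem_filter] at hA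
    obtain ⟨⟨_, hE⟩, hb⟩ := hA
    rw [mem_union]
    by_cases hf : A ⊆ free κ
    · right
      rw [mem_filter, mem_powerset]
      exact ⟨hf, hE, le_trans (mul_le_mul_of_nonneg_left (hz A hb) hr0) hr⟩
    · left
      rw [Finset.not_subset] at hf
      obtain ⟨i, hi, hi2⟩ := hf
      rw [mem_biUnion]
      refine ⟨i, ?_, by rw [mem_filter]; exact ⟨mem_univ _, hi⟩⟩
      unfold supp
      rw [mem_filter]
      refine ⟨mem_univ _, ?_⟩
      unfold free at hi2
      rw [mem_filter] at hi2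
      push Not at hi2
      exact Option.isSome_iff_ne_none.mpr (hi2 (mem_univ _))
  refine le_trans h3 (le_trans (coef2_union_le bb h0 _ _) ?_)
  have h5 := coef2_biUnion_le bb h0 (supp κ) (fun i => univ.filter (fun A : Finset ι => i ∈ A))
  linarith

end Pool.Agent.Lib.H56G
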