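import Mathlib

/-!
# H56G: definitions (linear forms `b j + M t`, `t = 1, 2, ..`, and divisor-type functions of them)

`ι` = (index type of) a finite set of primes `pr i`; `J` = index type of the linear forms.
A configuration `κ : ι → Option J` gives to a form `j` the primes `i` with `κ i = some j`;
`κ i = none` means that the prime `i` is not used.
-/

open Finset

namespace Pool.Agent.Lib.H56G

/-- Distinct primes `pr i` and linear forms `b j + M * t` such that no `pr i` divides `M` or
one of the differences `b j - b j'`. -/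
structure Sys (ι J : Type) where
  pr : ι → ℕ
  prime : ∀ i, (pr i).Prime
  inj : Function.Injective pr
  M : ℕ
  b : J → ℕ
  copM : ∀ i, ¬ pr i ∣ M
  dist : ∀ i j j', j ≠ j' → ¬ (b j ≡ b j' [MOD pr i])

variable {ι J : Type} [Fintype ι] [DecidableEq ι] [Fintype J] [DecidableEq J]

/-- the primes which are used -/
def supp (κ : ι → Option J) : Finset ι := univ.filter (fun i => (κ i).isSome)

/-- the primes which are not used -/
def free (κ : ι → Option J) : Finset ι := univ.filter (fun i => κ i = none)

/-- the primes given to the form `j` -/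
def part (κ : ι → Option J) (j : J) : Finset ι := univ.filter (fun i => κ i = some j)

/-- the configurations which do not use the form `j` -/
def noJ (j : J) : Finset (ι → Option J) := univ.filter (fun κ => ∀ i, κ i ≠ some j)

/-- give the primes of `A` to the form `j` -/
def ins (κ : ι → Option J) (j : J) (A : Finset ι) : ι → Option J :=
  fun i => if i ∈ A then some j else κ i

namespace Sys

variable (s : Sys ι J)

/-- `u_p^j(t) = 1 - p [p ∣ f_j(t)]` -/
noncomputable def u (i : ι) (j : J) (t : ℕ) : ℝ :=
  if s.pr i ∣ s.b j + s.M * t then 1 - (s.pr i : ℝ) else 1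

/-- product of the `u_p^j` over the used primes -/
noncomputable def U (κ : ι → Option J) (t : ℕ) : ℝ :=
  ∏ i, (κ i).elim 1 (fun j => s.u i j t)

/-- product of a set of primes -/
noncomputable def rho (A : Finset ι) : ℝ := ∏ i ∈ A, (s.pr i : ℝ)

/-- Euler function of a product of primes -/
noncomputable def phi (A : Finset ι) : ℝ := ∏ i ∈ A, ((s.pr i : ℝ) - 1)

/-- level of a configuration -/
noncomputable def r (κ : ι → Option J) : ℝ := s.rho (supp κ)

/-- Euler function of the level -/
noncomputable def ph (κ : ι → Option J) : ℝ := s.phi (supp κ)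

/-- `∏ (p + |J|)` -/
noncomputable def ps (κ : ι → Option J) : ℝ :=
  ∏ i ∈ supp κ, ((s.pr i : ℝ) + Fintype.card J)

/-- the Gram matrix at the prime `i` -/
noncomputable def gram (i : ι) : Option J → Option J → ℝ
  | none, none => 1
  | some j, some j' => if j = j' then (s.pr i : ℝ) - 1 else -1
  | _, _ => 0

/-- `Σ_A 1/φ(A)` over the sets of free primes with product at most `D` -/
noncomputable def VV (D : ℝ) (κ : ι → Option J) : ℝ :=
  ∑ A ∈ (free κ).powerset.filter (fun A => s.rho A ≤ D), 1 / s.phi A

end Sys

/-- coefficient of the restriction of `Σ c(κ) U_κ` to the `t` such that no prime divides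
the form `j0` -/
noncomputable def cp (j0 : J) (c : (ι → Option J) → ℝ) (κ : ι → Option J) : ℝ :=
  ∑ A ∈ (free κ).powerset, c (ins κ j0 A)

/-- one form part of the coefficients -/
noncomputable def gam (bb : Finset ι → ℝ) (A : Finset ι) : ℝ := if A = ∅ then 1 else - bb A

/-- the coefficients -/
noncomputable def cc (s : Sys ι J) (bb : Finset ι → ℝ) (D : ℝ) (κ : ι → Option J) : ℝ :=
  if s.r κ ≤ D then ∏ j, gam bb (part κ j) else 0

/-- weight of one part -/
noncomputable def vv (s : Sys ι J) (bb : Finset ι → ℝ) (A : Finset ι) : ℝ :=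
  (gam bb A) ^ 2 * s.phi A

/-- weight of a configuration -/
noncomputable def wt (s : Sys ι J) (bb : Finset ι → ℝ) (κ : ι → Option J) : ℝ :=
  ∏ j, vv s bb (part κ j)

/-- total weight -/
noncomputable def ZZ (s : Sys ι J) (bb : Finset ι → ℝ) : ℝ := ∑ κ, wt s bb κ

/-- `Σ 1/(φ(A) log ρ(A))` over the nonempty sets of primes with product at most `z` -/
noncomputable def SS (s : Sys ι J) (z : ℝ) : ℝ :=
  ∑ A ∈ (univ : Finset (Finset ι)).filter (fun A => A ≠ ∅ ∧ s.rho A ≤ z),
    1 / (s.phi A * Real.log (s.rho A))

/-- the weight `1/(S φ(A) log ρ(A))` -/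
noncomputable def bw (s : Sys ι J) (z : ℝ) (A : Finset ι) : ℝ :=
  if A ≠ ∅ ∧ s.rho A ≤ z then 1 / (SS s z * (s.phi A * Real.log (s.rho A))) else 0

end Pool.Agent.Lib.H56G
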