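import Pool.Agent.Lib.Sieve.Averages

/-!
# Chunk ERC1: choice of the residue classes of the small primes (average)
-/

open Finset Real

namespace Pool.Agent.Lib.H56G

theorem erc1_primeFactors (z : ℕ) :
    (primorial z).primeFactors = Pool.Agent.Lib.Sieve.primesUpTo z := by
  ext p
  rw [Nat.mem_primeFactors, Pool.Agent.Lib.Sieve.mem_primesUpTo]
  constructor
  · rintro ⟨hp, hd, -⟩
    exact ⟨hp, (hp.dvd_primorial_iff).mp hd⟩
  · rintro ⟨hp, hz⟩
    exact ⟨hp, (hp.dvd_primorial_iff).mpr hz, (primorial_pos z).ne'⟩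

theorem erc1_totient (z : ℕ) (hz : 2 ≤ z) :
    ((primorial z).totient : ℝ) ≤ (primorial z : ℝ) / log z := by
  have h1 := Nat.totient_eq_mul_prod_factors (primorial z)
  have h2 : ((primorial z).totient : ℝ)
      = (primorial z : ℝ) * ∏ p ∈ (primorial z).primeFactors, (1 - (p : ℝ)⁻¹) := by
    have := congrArg (fun q : ℚ => (q : ℝ)) h1
    push_cast at this
    exact this
  rw [h2, erc1_primeFactors]
  have h3 := Pool.Agent.Lib.Sieve.prod_one_sub_inv_le z hz
  simp only [one_div] at h3
  rw [div_eq_mul_inv]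
  exact mul_le_mul_of_nonneg_left h3 (by positivity)

/-- Average over `a mod primorial z`: `Σ_{a < P} #{h ∈ T : (a + h, P) = 1} = |T| φ(P)` and
`φ(P)/P = ∏_{p ≤ z} (1 - 1/p) ≤ 1/log z` (`Sieve.prod_one_sub_inv_le`). -/
theorem er_small (z : ℕ) (hz : 2 ≤ z) (T : Finset ℕ) :
    ∃ a < primorial z, ((T.filter (fun h => Nat.Coprime (a + h) (primorial z))).card : ℝ)
      ≤ T.card / log z := by
  classical
  set P := primorial z with hP
  have hP0 : 0 < P := primorial_pos z
  have hP0' : (0 : ℝ) < P := by exact_mod_cast hP0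
  by_contra hcon
  push Not at hcon
  have h1 : ∀ h : ℕ, ((range P).filter (fun a => Nat.Coprime (a + h) P)).card = P.totient := by
    intro h
    rw [← Nat.filter_coprime_Ico_eq_totient P h]
    apply Finset.card_bij (fun a _ => a + h)
    · intro a ha
      rw [Finset.mem_filter, Finset.mem_range] at ha
      rw [Finset.mem_filter, Finset.mem_Ico]
      exact ⟨⟨by omega, by omega⟩, ha.2.symm⟩
    · intro a _ b _ hab
      omega
    · intro b hb
      rw [Finset.mem_filter, Finset.mem_Ico] at hb
      refine ⟨b - h, ?_, by omega⟩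
      rw [Finset.mem_filter, Finset.mem_range]
      refine ⟨by omega, ?_⟩
      rw [Nat.sub_add_cancel hb.1.1]
      exact hb.2.symm
  have h2 : ∑ a ∈ range P, (T.filter (fun h => Nat.Coprime (a + h) P)).card
      = T.card * P.totient := by
    simp only [Finset.card_filter]
    rw [Finset.sum_comm]
    simp only [← Finset.card_filter]
    rw [Finset.sum_congr rfl (fun h _ => h1 h), Finset.sum_const, smul_eq_mul]
  have h3 : ∑ a ∈ range P, (T.card / log z : ℝ)
      < ∑ a ∈ range P, ((T.filter (fun h => Nat.Coprime (a + h) P)).card : ℝ) := by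
    apply Finset.sum_lt_sum_of_nonempty ⟨0, Finset.mem_range.mpr hP0⟩
    intro a ha
    exact hcon a (Finset.mem_range.mp ha)
  rw [Finset.sum_const, Finset.card_range, nsmul_eq_mul] at h3
  have h4 : ∑ a ∈ range P, ((T.filter (fun h => Nat.Coprime (a + h) P)).card : ℝ)
      = T.card * P.totient := by exact_mod_cast h2
  rw [h4] at h3
  have h5 := erc1_totient z hz
  have h6 : (T.card : ℝ) * P.totient ≤ T.card * (P / log z) :=
    mul_le_mul_of_nonneg_left h5 (by positivity)
  have h7 : (T.card : ℝ) * (P / log z) = P * (T.card / log z) := by ring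
  linarith

end Pool.Agent.Lib.H56G
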