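import Pool.Agent.Lib.H56G.Maj3
import Pool.Agent.Lib.H56G.Schur3
import Pool.Agent.Lib.H56G.Coef3
import Pool.Agent.Lib.H56G.Cher2
import Pool.Agent.Lib.H56G.Wgt2
import Pool.Agent.Lib.H56G.Vvge

/-!
# Chunk MAIN0: the suppression theorem, abstract form
-/

open Finset

namespace Pool.Agent.Lib.H56G

variable {ι J : Type} [Fintype ι] [DecidableEq ι] [Fintype J] [DecidableEq J]

theorem main0_tail (s : Sys ι J) (z D1 ε : ℝ) (hz : 1 < z) (hzD : z ≤ D1)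
    (hS : 0 < SS s z)
    (hε : (z / D1) ^ (1 / Real.log z) * (1 + 2 / (SS s z * Real.log z)) ^ (Fintype.card J) ≤ ε) :
    ∑ κ ∈ univ.filter (fun κ : ι → Option J => D1 < s.r κ * z), wt s (bw s z) κ
      ≤ ε * ZZ s (bw s z) := by
  have hlz : 0 < Real.log z := Real.log_pos hz
  have h1 := cher s (bw s z) (1 / Real.log z) z D1 (by positivity) (by linarith) (by linarith)
  refine h1.trans ?_
  have hm := bw_moment s z hz hS
  have hm0 : 0 ≤ ∑ A ∈ univ.filter (fun A : Finset ι => A ≠ ∅),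
      vv s (bw s z) A * ((s.rho A) ^ (1 / Real.log z) - 1) := by
    apply Finset.sum_nonneg
    intro A _
    apply mul_nonneg
    · unfold vv
      have := one_le_phi s A
      positivity
    · have h2 := Real.one_le_rpow (one_le_rho s A) (by positivity : (0:ℝ) ≤ 1 / Real.log z)
      linarith
  have hZ : 0 ≤ ZZ s (bw s z) := by
    have := one_le_ZZ s (bw s z)
    linarith
  have hz0 : 0 ≤ (z / D1) ^ (1 / Real.log z) := by
    apply Real.rpow_nonneg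
    apply div_nonneg <;> linarith
  apply mul_le_mul_of_nonneg_right _ hZ
  refine le_trans ?_ hε
  apply mul_le_mul_of_nonneg_left _ hz0
  apply pow_le_pow_left₀ (by linarith)
  linarith

theorem main0_sum_abs (s : Sys ι J) (W : ℕ) (hW : 1 ≤ W) (hpr : ∀ i, W < s.pr i)
    (hJ : Fintype.card J ≤ W) (c : (ι → Option J) → ℝ) (D : ℝ) (hD : 1 ≤ D)
    (hc : ∀ κ, c κ ≠ 0 → s.r κ ≤ D) (hc1 : ∀ κ, |c κ| ≤ 1) :
    ∑ κ, |c κ| ≤ 3 * D ^ 2 := by
  refine le_trans ?_ (card_le s W hW hpr hJ D hD)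
  rw [Finset.card_filter]
  push_cast
  apply Finset.sum_le_sum
  intro κ _
  by_cases h : c κ = 0
  · rw [h, abs_zero]
    positivity
  · rw [if_pos (hc κ h)]
    exact hc1 κ

/-- Abstract suppression theorem: some `t ≤ Y` makes every form divisible by one of the primes.
Proof. `c = cc s (bw s z) D1`, `L = Σ c U`. If the conclusion fails, every `t ∈ Icc 1 Y` is in one of
the sets `T_j = {t : no prime divides the form j}`, so `Σ_t L^2 ≤ Σ_j Σ_{t ∈ T_j} L^2`. The left side is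
`≥ Y Σ c^2 (2 ph - ps) - 18 D1^8 ≥ Y (2 - K) (1 - ε) Z - 18 D1^8` (`le_sum_sq`, `card_le`,
`le_sum_cc_sq`, `cher`), with `Z = ZZ ≥ 1`; the right side is
`≤ |J| (Y (K/V0) (τ^2 + ε) Z + 18 (D1 D2)^8)` (`maj`, `sum_cp_sq_le`, `cher`), where
`ε = (z/D1)^(1/log z) (1 + 2/(S log z))^|J|` (`bw_moment`) and
`τ = 2 log D1 (2/S + 1)/W` (`bw_through`, `card_supp_le`). This contradicts `hnum`. -/
theorem exists_t (s : Sys ι J) (W : ℕ) (hW : 1 ≤ W) (hpr : ∀ i, W < s.pr i)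
    (hJ : Fintype.card J ≤ W) (z D1 D2 V0 K ε τ : ℝ) (hz : 1 < z) (hzD : z ≤ D1)
    (hD2 : 1 ≤ D2) (hV0 : 1 ≤ V0) (hK0 : 1 ≤ K) (hK2 : K ≤ 2)
    (hS : 0 < SS s z)
    (hV : ∀ κ : ι → Option J, s.r κ ≤ D1 → V0 ≤ s.VV D2 κ)
    (hK : ∀ κ : ι → Option J, s.r κ ≤ D1 * D2 → s.ps κ ≤ K * s.ph κ)
    (hε : (z / D1) ^ (1 / Real.log z) * (1 + 2 / (SS s z * Real.log z)) ^ (Fintype.card J) ≤ ε)
    (hε1 : ε ≤ 1)
    (hτ : 2 * Real.log D1 * ((2 / SS s z + 1) / W) ≤ τ) (Y : ℕ)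
    (hnum : 18 * ((Fintype.card J : ℝ) + 1) * (D1 * D2) ^ 8
      < Y * ((2 - K) * (1 - ε) - Fintype.card J * (K / V0) * (τ ^ 2 + ε))) :
    ∃ t ∈ Icc 1 Y, ∀ j, ∃ i, s.pr i ∣ s.b j + s.M * t := by
  by_contra hcon
  push Not at hcon
  have hD1 : 1 ≤ D1 := by linarith
  have hlogD : 0 ≤ Real.log D1 := Real.log_nonneg hD1
  have h0 : ∀ A, 0 ≤ bw s z A := bw_nonneg s z
  have h1 : ∀ A, bw s z A ≤ 1 := bw_le_one s z hS
  have hsum := bw_sum s z hS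
  have hzr : ∀ A, bw s z A ≠ 0 → s.rho A ≤ z := bw_rho s z
  have hWr : (0:ℝ) < W := by exact_mod_cast hW
  have hτ0 : 0 ≤ τ := le_trans (by positivity) hτ
  have htail := main0_tail s z D1 ε hz hzD hS hε
  set c := cc s (bw s z) D1 with hcdef
  set Z := ZZ s (bw s z) with hZdef
  have hZ1 : 1 ≤ Z := one_le_ZZ s (bw s z)
  have hc : ∀ κ : ι → Option J, c κ ≠ 0 → s.r κ ≤ D1 := by
    intro κ h
    by_contra h'
    exact h (if_neg h')
  have hc1 : ∀ κ : ι → Option J, |c κ| ≤ 1 := abs_cc_le_one s (bw s z) h0 h1 D1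
  have hcs := main0_sum_abs s W hW hpr hJ c D1 hD1 hc hc1
  have hph : ∀ κ : ι → Option J, 0 ≤ s.ph κ := fun κ => by
    have := one_le_phi s (supp κ)
    exact le_trans zero_le_one this
  have hD12 : D1 ≤ D1 * D2 := le_mul_of_one_le_right (by linarith) hD2
  -- lower bound
  have hlow : (Y:ℝ) * ((2 - K) * ((1 - ε) * Z)) - 18 * D1 ^ 8
      ≤ ∑ t ∈ Icc 1 Y, (∑ κ, c κ * s.U κ t) ^ 2 := by
    have e1 := le_sum_sq s c D1 hD1 hc Y
    have e2 : (2 - K) * ∑ κ, (c κ) ^ 2 * s.ph κ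
        ≤ ∑ κ, (c κ) ^ 2 * (2 * s.ph κ - s.ps κ) := by
      rw [Finset.mul_sum]
      apply Finset.sum_le_sum
      intro κ _
      by_cases hk : c κ = 0
      · simp [hk]
      · have e3 := hK κ ((hc κ hk).trans hD12)
        have e4 : 0 ≤ (c κ) ^ 2 := sq_nonneg _
        nlinarith
    have e3 := le_sum_cc_sq s (bw s z) z D1 hz.le
    have e4 : (1 - ε) * Z ≤ ∑ κ, (c κ) ^ 2 * s.ph κ := by
      refine le_trans ?_ e3
      rw [← hZdef]
      linarith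
    have e5 : (2 - K) * ((1 - ε) * Z) ≤ ∑ κ, (c κ) ^ 2 * (2 * s.ph κ - s.ps κ) :=
      le_trans (mul_le_mul_of_nonneg_left e4 (by linarith)) e2
    have e6 : (Y:ℝ) * ((2 - K) * ((1 - ε) * Z))
        ≤ Y * ∑ κ, (c κ) ^ 2 * (2 * s.ph κ - s.ps κ) :=
      mul_le_mul_of_nonneg_left e5 (Nat.cast_nonneg _)
    have e7 : 2 * D1 ^ 4 * (∑ κ, |c κ|) ^ 2 ≤ 18 * D1 ^ 8 := by
      have e8 : (∑ κ, |c κ|) ^ 2 ≤ (3 * D1 ^ 2) ^ 2 :=
        pow_le_pow_left₀ (Finset.sum_nonneg fun κ _ => abs_nonneg _) hcs 2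
      calc 2 * D1 ^ 4 * (∑ κ, |c κ|) ^ 2 ≤ 2 * D1 ^ 4 * (3 * D1 ^ 2) ^ 2 := by gcongr
        _ = 18 * D1 ^ 8 := by ring
    linarith
  -- upper bound for one form
  have hτ' : ∀ κ : ι → Option J, s.r κ ≤ D1 →
      ∑ i ∈ supp κ, ∑ A ∈ univ.filter (fun A : Finset ι => i ∈ A), bw s z A ≤ τ := by
    intro κ hκ
    calc ∑ i ∈ supp κ, ∑ A ∈ univ.filter (fun A : Finset ι => i ∈ A), bw s z A
        ≤ ∑ i ∈ supp κ, (2 / SS s z + 1) / W :=
          Finset.sum_le_sum fun i _ => bw_through s W hW hpr z hS i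
      _ = (supp κ).card * ((2 / SS s z + 1) / W) := by rw [Finset.sum_const, nsmul_eq_mul]
      _ ≤ 2 * Real.log D1 * ((2 / SS s z + 1) / W) :=
          mul_le_mul_of_nonneg_right (card_supp_le s κ D1 hκ) (by positivity)
      _ ≤ τ := hτ
  have hup : ∀ j : J, ∑ t ∈ (Icc 1 Y).filter (fun t => ∀ i, ¬ s.pr i ∣ s.b j + s.M * t),
        (∑ κ, c κ * s.U κ t) ^ 2
      ≤ Y * (K / V0) * ((τ ^ 2 + ε) * Z) + 18 * (D1 * D2) ^ 8 := by
    intro j
    have f1 := maj s W hW hpr hJ c D1 D2 V0 K hD1 hD2 hV0 (by linarith) j hc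
      (fun κ hκ => (abs_cp_le s (bw s z) h0 hsum D1 j κ hκ).trans (hc1 κ))
      (fun κ _ hκ => hV κ hκ) hK Y
    have f2 := sum_cp_sq_le s (bw s z) h0 hsum z D1 τ hz.le hzr hτ0 hτ' j
    have f3 : ∑ κ ∈ noJ j, (cp j c κ) ^ 2 * s.ph κ ≤ (τ ^ 2 + ε) * Z := by
      refine f2.trans ?_
      rw [← hZdef]
      linarith
    have f4 : (Y:ℝ) * (K / V0) * ∑ κ ∈ noJ j, (cp j c κ) ^ 2 * s.ph κ
        ≤ Y * (K / V0) * ((τ ^ 2 + ε) * Z) :=
      mul_le_mul_of_nonneg_left f3 (by positivity)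
    linarith
  -- the covering
  have hcov : ∑ t ∈ Icc 1 Y, (∑ κ, c κ * s.U κ t) ^ 2
      ≤ ∑ j : J, ∑ t ∈ (Icc 1 Y).filter (fun t => ∀ i, ¬ s.pr i ∣ s.b j + s.M * t),
        (∑ κ, c κ * s.U κ t) ^ 2 := by
    simp only [Finset.sum_filter]
    rw [Finset.sum_comm]
    apply Finset.sum_le_sum
    intro t ht
    obtain ⟨j, hj⟩ := hcon t ht
    have g1 := Finset.single_le_sum (s := (univ : Finset J))
      (f := fun j => if (∀ i, ¬ s.pr i ∣ s.b j + s.M * t) then (∑ κ, c κ * s.U κ t) ^ 2 else 0)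
      (fun j _ => by split_ifs <;> positivity) (Finset.mem_univ j)
    rw [if_pos hj] at g1
    exact g1
  have hsumJ : ∑ j : J, ∑ t ∈ (Icc 1 Y).filter (fun t => ∀ i, ¬ s.pr i ∣ s.b j + s.M * t),
        (∑ κ, c κ * s.U κ t) ^ 2
      ≤ Fintype.card J * (Y * (K / V0) * ((τ ^ 2 + ε) * Z) + 18 * (D1 * D2) ^ 8) := by
    refine (Finset.sum_le_sum fun j _ => hup j).trans ?_
    rw [Finset.sum_const, nsmul_eq_mul, Finset.card_univ]
  have hfin := (hlow.trans hcov).trans hsumJ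
  have hD8 : D1 ^ 8 ≤ (D1 * D2) ^ 8 := pow_le_pow_left₀ (by linarith) hD12 8
  set X := (2 - K) * (1 - ε) - Fintype.card J * (K / V0) * (τ ^ 2 + ε) with hX
  have hpos : 0 ≤ 18 * ((Fintype.card J : ℝ) + 1) * (D1 * D2) ^ 8 := by positivity
  have k1 : (Y:ℝ) * X * Z ≤ 18 * ((Fintype.card J : ℝ) + 1) * (D1 * D2) ^ 8 := by
    have : (Y:ℝ) * X * Z = (Y:ℝ) * ((2 - K) * ((1 - ε) * Z))
      - Fintype.card J * (Y * (K / V0) * ((τ ^ 2 + ε) * Z)) := by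
      rw [hX]; ring
    rw [this]
    nlinarith [hfin, hD8]
  have k2 : (Y:ℝ) * X ≤ Y * X * Z := le_mul_of_one_le_right (by linarith) hZ1
  linarith

end Pool.Agent.Lib.H56G
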