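import Pool.Agent.Lib.H56G.Off

/-!
# Chunk MAJ1: restriction to the `t` such that no prime divides the form `j0`
-/

open Finset

namespace Pool.Agent.Lib.H56G

variable {ι J : Type} [Fintype ι] [DecidableEq ι] [Fintype J] [DecidableEq J]

/-- If no `pr i` divides `b j0 + M t`, all `u i j0 t` are `1`, and
`Σ_κ c κ U κ t = Σ_{κ' ∈ noJ j0} cp κ' U κ' t` (`sum_off`, `U_ins`). -/
theorem sum_eq_of_not_dvd (s : Sys ι J) (c : (ι → Option J) → ℝ) (j0 : J) (t : ℕ)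
    (ht : ∀ i, ¬ s.pr i ∣ s.b j0 + s.M * t) :
    ∑ κ, c κ * s.U κ t = ∑ κ ∈ noJ j0, cp j0 c κ * s.U κ t := by
  rw [sum_off j0]
  refine Finset.sum_congr rfl ?_
  intro κ _
  unfold cp
  rw [Finset.sum_mul]
  refine Finset.sum_congr rfl ?_
  intro A hA
  rw [Finset.mem_powerset] at hA
  rw [U_ins s κ j0 A hA t]
  have h1 : ∏ i ∈ A, s.u i j0 t = 1 := by
    refine Finset.prod_eq_one ?_
    intro i _
    unfold Sys.u
    rw [if_neg (ht i)]
  rw [h1, mul_one]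

/-- Coefficients of the Selberg majorant: for `κ = ins κ' j0 A`, `κ' ∈ noJ j0`, `A ⊆ free κ'`,
`A = part κ j0`: `cp κ' / (V(κ') φ(A))` if `ρ(A) ≤ D2`, else `0`. -/
noncomputable def cmaj (s : Sys ι J) (c : (ι → Option J) → ℝ) (D2 : ℝ) (j0 : J)
    (κ : ι → Option J) : ℝ :=
  let κ' : ι → Option J := fun i => if κ i = some j0 then none else κ i
  if s.rho (part κ j0) ≤ D2 then cp j0 c κ' / (s.VV D2 κ' * s.phi (part κ j0)) else 0

theorem maj1_strip_ins (j0 : J) (κ : ι → Option J) (hκ : κ ∈ noJ j0) (A : Finset ι)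
    (hA : A ⊆ free κ) :
    (fun i => if ins κ j0 A i = some j0 then none else ins κ j0 A i) = κ := by
  funext i
  simp only [ins]
  by_cases h : i ∈ A
  · have h4 := (off_mem_free κ i).1 (hA h)
    simp [h, h4]
  · have h5 := (off_mem_noJ κ j0).1 hκ i
    simp [h, h5]

/-- `cmaj` at `ins κ' j0 A`. -/
theorem cmaj_ins (s : Sys ι J) (c : (ι → Option J) → ℝ) (D2 : ℝ) (j0 : J)
    (κ : ι → Option J) (hκ : κ ∈ noJ j0) (A : Finset ι) (hA : A ⊆ free κ) :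
    cmaj s c D2 j0 (ins κ j0 A) =
      if s.rho A ≤ D2 then cp j0 c κ / (s.VV D2 κ * s.phi A) else 0 := by
  unfold cmaj
  simp only
  rw [maj1_strip_ins j0 κ hκ A hA, part_ins_same κ j0 hκ A hA]

/-- If `cp κ' ≠ 0` then `r κ' ≤ D1`. -/
theorem maj1_r_le_of_cp_ne (s : Sys ι J) (c : (ι → Option J) → ℝ) (D1 : ℝ) (j0 : J)
    (hc : ∀ κ, c κ ≠ 0 → s.r κ ≤ D1) (κ : ι → Option J) (h : cp j0 c κ ≠ 0) :
    s.r κ ≤ D1 := by
  unfold cp at h
  obtain ⟨A, hA, hne⟩ := Finset.exists_ne_zero_of_sum_ne_zero h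
  rw [Finset.mem_powerset] at hA
  have h1 := hc _ hne
  rw [r_ins s κ j0 A hA] at h1
  have h2 := one_le_rho s A
  have h3 : 1 ≤ s.r κ := one_le_rho s (supp κ)
  nlinarith

/-- At the `t` with no prime dividing the form `j0` the majorant function has the same value:
`Σ_κ cmaj κ U κ t = Σ_{κ'} cp κ' U κ' t (1/V(κ')) Σ_{A, ρ(A) ≤ D2} 1/φ(A)` and the last sum is
`V(κ')`. (`V(κ') ≥ V0 > 0` where `cp κ' ≠ 0`; `cp κ' ≠ 0` implies `r κ' ≤ D1`, because some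
`c (ins κ' j0 A) ≠ 0` and `r (ins κ' j0 A) = r κ' ρ(A) ≥ r κ'`.) -/
theorem sum_cmaj_eq (s : Sys ι J) (c : (ι → Option J) → ℝ) (D1 D2 V0 : ℝ) (j0 : J)
    (hV0 : 1 ≤ V0)
    (hc : ∀ κ, c κ ≠ 0 → s.r κ ≤ D1)
    (hV : ∀ κ ∈ noJ j0, s.r κ ≤ D1 → V0 ≤ s.VV D2 κ) (t : ℕ)
    (ht : ∀ i, ¬ s.pr i ∣ s.b j0 + s.M * t) :
    ∑ κ, cmaj s c D2 j0 κ * s.U κ t = ∑ κ, c κ * s.U κ t := by
  rw [sum_eq_of_not_dvd s c j0 t ht, sum_eq_of_not_dvd s (cmaj s c D2 j0) j0 t ht]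
  refine Finset.sum_congr rfl ?_
  intro κ hκ
  congr 1
  have h1 : cp j0 (cmaj s c D2 j0) κ =
      ∑ A ∈ (free κ).powerset, if s.rho A ≤ D2 then cp j0 c κ / (s.VV D2 κ * s.phi A) else 0 := by
    unfold cp
    refine Finset.sum_congr rfl ?_
    intro A hA
    rw [Finset.mem_powerset] at hA
    exact cmaj_ins s c D2 j0 κ hκ A hA
  rw [h1]
  by_cases h0 : cp j0 c κ = 0
  · rw [h0]
    simp
  · have h2 := maj1_r_le_of_cp_ne s c D1 j0 hc κ h0
    have h3 := hV κ hκ h2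
    have h4 : 0 < s.VV D2 κ := by linarith
    rw [← Finset.sum_filter]
    have h5 : ∑ A ∈ (free κ).powerset.filter (fun A => s.rho A ≤ D2),
        cp j0 c κ / (s.VV D2 κ * s.phi A) =
        cp j0 c κ / s.VV D2 κ * s.VV D2 κ := by
      conv_rhs => rw [Sys.VV]
      rw [Sys.VV, Finset.mul_sum]
      refine Finset.sum_congr rfl ?_
      intro A _
      rw [div_mul_div_comm, mul_one]
    rw [h5]
    field_simp

end Pool.Agent.Lib.H56G
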