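import Pool.Agent.Lib.H56G.Maj1

/-!
# Chunk MAJ2: norm of the majorant coefficients
-/

open Finset

namespace Pool.Agent.Lib.H56G

variable {ι J : Type} [Fintype ι] [DecidableEq ι] [Fintype J] [DecidableEq J]

theorem maj2_inner (s : Sys ι J) (c : (ι → Option J) → ℝ) (D1 D2 V0 K : ℝ) (j0 : J)
    (hV0 : 1 ≤ V0) (hK0 : 0 ≤ K)
    (hc : ∀ κ, c κ ≠ 0 → s.r κ ≤ D1)
    (hV : ∀ κ ∈ noJ j0, s.r κ ≤ D1 → V0 ≤ s.VV D2 κ)
    (hK : ∀ κ, s.r κ ≤ D1 * D2 → s.ps κ ≤ K * s.ph κ)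
    (κ : ι → Option J) (hκ : κ ∈ noJ j0) :
    ∑ A ∈ (free κ).powerset, (cmaj s c D2 j0 (ins κ j0 A)) ^ 2 * s.ps (ins κ j0 A)
      ≤ K / V0 * ((cp j0 c κ) ^ 2 * s.ph κ) := by
  have hphi : ∀ A : Finset ι, 1 ≤ s.phi A := one_le_phi s
  have hph : 1 ≤ s.ph κ := one_le_phi s (supp κ)
  by_cases h0 : cp j0 c κ = 0
  · have h1 : ∑ A ∈ (free κ).powerset, (cmaj s c D2 j0 (ins κ j0 A)) ^ 2 * s.ps (ins κ j0 A)
        = 0 := by
      refine Finset.sum_eq_zero ?_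
      intro A hA
      rw [Finset.mem_powerset] at hA
      rw [cmaj_ins s c D2 j0 κ hκ A hA, h0]
      simp
    rw [h1, h0]
    simp
  · have hr := maj1_r_le_of_cp_ne s c D1 j0 hc κ h0
    have hVV := hV κ hκ hr
    have hVpos : 0 < s.VV D2 κ := by linarith
    have hr1 : 1 ≤ s.r κ := one_le_rho s (supp κ)
    -- bound each term
    have h2 : ∀ A ∈ (free κ).powerset,
        (cmaj s c D2 j0 (ins κ j0 A)) ^ 2 * s.ps (ins κ j0 A) ≤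
        if s.rho A ≤ D2 then K * ((cp j0 c κ) ^ 2 * s.ph κ) / (s.VV D2 κ) ^ 2 * (1 / s.phi A)
        else 0 := by
      intro A hA
      rw [Finset.mem_powerset] at hA
      rw [cmaj_ins s c D2 j0 κ hκ A hA]
      by_cases h3 : s.rho A ≤ D2
      · rw [if_pos h3, if_pos h3]
        have h4 : s.r (ins κ j0 A) ≤ D1 * D2 := by
          rw [r_ins s κ j0 A hA]
          have h5 := one_le_rho s A
          have h6 : 0 ≤ D1 := by linarith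
          exact mul_le_mul hr h3 (by linarith) h6
        have h5 := hK _ h4
        rw [ph_ins s κ j0 A hA] at h5
        have h6 : 0 < s.phi A := by linarith [hphi A]
        have h7 : 0 ≤ (cp j0 c κ / (s.VV D2 κ * s.phi A)) ^ 2 := sq_nonneg _
        calc (cp j0 c κ / (s.VV D2 κ * s.phi A)) ^ 2 * s.ps (ins κ j0 A)
            ≤ (cp j0 c κ / (s.VV D2 κ * s.phi A)) ^ 2 * (K * (s.ph κ * s.phi A)) :=
              mul_le_mul_of_nonneg_left h5 h7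
          _ = K * ((cp j0 c κ) ^ 2 * s.ph κ) / (s.VV D2 κ) ^ 2 * (1 / s.phi A) := by
              field_simp
      · rw [if_neg h3, if_neg h3]
        simp
    refine (Finset.sum_le_sum h2).trans ?_
    rw [← Finset.sum_filter, ← Finset.mul_sum]
    have h3 : ∑ A ∈ (free κ).powerset.filter (fun A => s.rho A ≤ D2), 1 / s.phi A
        = s.VV D2 κ := rfl
    rw [h3]
    have h4 : K * ((cp j0 c κ) ^ 2 * s.ph κ) / (s.VV D2 κ) ^ 2 * s.VV D2 κ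
        = K * ((cp j0 c κ) ^ 2 * s.ph κ) / s.VV D2 κ := by
      field_simp
    rw [h4, div_mul_eq_mul_div]
    have h5 : 0 ≤ K * ((cp j0 c κ) ^ 2 * s.ph κ) := by positivity
    exact div_le_div_of_nonneg_left h5 (by linarith) hVV

/-- The norm: `Σ_κ cmaj^2 ps ≤ K Σ_κ cmaj^2 ph = K Σ_{κ'} cp^2 ph(κ') / V(κ')^2 Σ_A 1/φ(A)
= K Σ_{κ'} cp^2 ph(κ') / V(κ')`. -/
theorem norm_cmaj_le (s : Sys ι J) (c : (ι → Option J) → ℝ) (D1 D2 V0 K : ℝ) (j0 : J)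
    (hV0 : 1 ≤ V0) (hK0 : 0 ≤ K)
    (hc : ∀ κ, c κ ≠ 0 → s.r κ ≤ D1)
    (hV : ∀ κ ∈ noJ j0, s.r κ ≤ D1 → V0 ≤ s.VV D2 κ)
    (hK : ∀ κ, s.r κ ≤ D1 * D2 → s.ps κ ≤ K * s.ph κ) :
    ∑ κ, (cmaj s c D2 j0 κ) ^ 2 * s.ps κ
      ≤ K / V0 * ∑ κ ∈ noJ j0, (cp j0 c κ) ^ 2 * s.ph κ := by
  rw [sum_off j0, Finset.mul_sum]
  refine Finset.sum_le_sum ?_
  intro κ hκ
  exact maj2_inner s c D1 D2 V0 K j0 hV0 hK0 hc hV hK κ hκ

end Pool.Agent.Lib.H56G
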