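import Pool.Agent.Lib.H56G.Defs

/-!
# Chunk OFF: splitting off one form
-/

open Finset

namespace Pool.Agent.Lib.H56G

variable {ι J : Type} [Fintype ι] [DecidableEq ι] [Fintype J] [DecidableEq J]

theorem off_mem_free (κ : ι → Option J) (i : ι) : i ∈ free κ ↔ κ i = none := by
  simp [free]

theorem off_mem_supp (κ : ι → Option J) (i : ι) : i ∈ supp κ ↔ κ i ≠ none := by
  simp [supp, Option.isSome_iff_ne_none]

theorem off_mem_part (κ : ι → Option J) (j : J) (i : ι) : i ∈ part κ j ↔ κ i = some j := by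
  simp [part]

theorem off_mem_noJ (κ : ι → Option J) (j : J) : κ ∈ noJ j ↔ ∀ i, κ i ≠ some j := by
  simp [noJ]

theorem supp_ins (κ : ι → Option J) (j0 : J) (A : Finset ι) (hA : A ⊆ free κ) :
    supp (ins κ j0 A) = supp κ ∪ A := by
  ext i
  rw [mem_union, off_mem_supp, off_mem_supp]
  unfold ins
  by_cases h : i ∈ A
  · simp [h]
  · simp [h]

theorem disjoint_supp_free (κ : ι → Option J) : Disjoint (supp κ) (free κ) := by
  rw [Finset.disjoint_left]
  intro i h1 h2
  rw [off_mem_supp] at h1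
  rw [off_mem_free] at h2
  exact h1 h2

theorem part_ins_same (κ : ι → Option J) (j0 : J) (hκ : κ ∈ noJ j0) (A : Finset ι)
    (hA : A ⊆ free κ) : part (ins κ j0 A) j0 = A := by
  ext i
  rw [off_mem_part]
  rw [off_mem_noJ] at hκ
  unfold ins
  by_cases h : i ∈ A
  · simp [h]
  · simp [h, hκ i]

theorem part_ins_other (κ : ι → Option J) (j0 j : J) (hj : j ≠ j0) (A : Finset ι)
    (hA : A ⊆ free κ) : part (ins κ j0 A) j = part κ j := by
  ext i
  rw [off_mem_part, off_mem_part]
  unfold ins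
  by_cases h : i ∈ A
  · have h1 := (off_mem_free κ i).1 (hA h)
    simp [h, h1, Ne.symm hj]
  · simp [h]

theorem part_noJ (κ : ι → Option J) (j0 : J) (hκ : κ ∈ noJ j0) : part κ j0 = ∅ := by
  ext i
  rw [off_mem_noJ] at hκ
  simp [off_mem_part, hκ i]

/-- Every `κ` is `ins κ' j0 A` for exactly one pair `κ' ∈ noJ j0`, `A ⊆ free κ'`: `A = part κ j0`,
`κ' = κ` with `some j0` replaced by `none`. (`Finset.sum_sigma'` and `Finset.sum_bij'`.) -/
theorem sum_off (j0 : J) (F : (ι → Option J) → ℝ) :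
    ∑ κ, F κ = ∑ κ ∈ noJ j0, ∑ A ∈ (free κ).powerset, F (ins κ j0 A) := by
  rw [Finset.sum_sigma']
  refine Finset.sum_bij' (fun κ _ => ⟨fun i => if κ i = some j0 then none else κ i, part κ j0⟩)
    (fun x _ => ins x.1 j0 x.2) ?_ ?_ ?_ ?_ ?_
  · intro κ _
    rw [Finset.mem_sigma, Finset.mem_powerset]
    refine ⟨?_, ?_⟩
    · rw [off_mem_noJ]
      intro i
      by_cases h : κ i = some j0
      · simp [h]
      · simp [h]
    · intro i hi
      rw [off_mem_part] at hi
      rw [off_mem_free]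
      simp [hi]
  · intro x _
    exact Finset.mem_univ _
  · intro κ _
    funext i
    simp only [ins, off_mem_part]
    by_cases h : κ i = some j0
    · simp [h]
    · simp [h]
  · rintro ⟨κ, A⟩ hx
    rw [Finset.mem_sigma, Finset.mem_powerset] at hx
    obtain ⟨h1, h2⟩ := hx
    simp only at h1 h2
    have h3 := part_ins_same κ j0 h1 A h2
    refine Sigma.ext ?_ (heq_of_eq h3)
    funext i
    simp only [ins]
    by_cases h : i ∈ A
    · have h4 := (off_mem_free κ i).1 (h2 h)
      simp [h, h4]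
    · have h5 := (off_mem_noJ κ j0).1 h1 i
      simp [h, h5]
  · intro κ _
    congr 1
    funext i
    simp only [ins, off_mem_part]
    by_cases h : κ i = some j0
    · simp [h]
    · simp [h]

theorem r_ins (s : Sys ι J) (κ : ι → Option J) (j0 : J) (A : Finset ι) (hA : A ⊆ free κ) :
    s.r (ins κ j0 A) = s.r κ * s.rho A := by
  unfold Sys.r
  rw [supp_ins κ j0 A hA]
  unfold Sys.rho
  rw [Finset.prod_union]
  exact Finset.disjoint_of_subset_right hA (disjoint_supp_free κ)

theorem ph_ins (s : Sys ι J) (κ : ι → Option J) (j0 : J) (A : Finset ι) (hA : A ⊆ free κ) :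
    s.ph (ins κ j0 A) = s.ph κ * s.phi A := by
  unfold Sys.ph
  rw [supp_ins κ j0 A hA]
  unfold Sys.phi
  rw [Finset.prod_union]
  exact Finset.disjoint_of_subset_right hA (disjoint_supp_free κ)

theorem U_ins (s : Sys ι J) (κ : ι → Option J) (j0 : J) (A : Finset ι) (hA : A ⊆ free κ)
    (t : ℕ) : s.U (ins κ j0 A) t = s.U κ t * ∏ i ∈ A, s.u i j0 t := by
  unfold Sys.U
  have h1 : ∏ i ∈ A, s.u i j0 t = ∏ i, if i ∈ A then s.u i j0 t else 1 := by
    rw [Finset.prod_ite_mem]
    simp
  rw [h1, ← Finset.prod_mul_distrib]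
  refine Finset.prod_congr rfl ?_
  intro i _
  unfold ins
  by_cases h : i ∈ A
  · have h4 := (off_mem_free κ i).1 (hA h)
    simp [h, h4]
  · simp [h]

theorem off_supp_eq_biUnion (κ : ι → Option J) :
    supp κ = (univ : Finset J).biUnion (fun j => part κ j) := by
  ext i
  rw [Finset.mem_biUnion, off_mem_supp]
  constructor
  · intro h
    obtain ⟨j, hj⟩ := Option.ne_none_iff_exists'.1 h
    exact ⟨j, Finset.mem_univ _, (off_mem_part κ j i).2 hj⟩
  · rintro ⟨j, _, hj⟩
    rw [off_mem_part] at hj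
    rw [hj]
    simp

theorem off_part_pairwise (κ : ι → Option J) :
    ∀ j ∈ (univ : Finset J), ∀ j' ∈ (univ : Finset J), j ≠ j' →
      Disjoint (part κ j) (part κ j') := by
  intro j _ j' _ hne
  rw [Finset.disjoint_left]
  intro i h1 h2
  rw [off_mem_part] at h1 h2
  rw [h1] at h2
  exact hne (Option.some.inj h2)

theorem r_eq_prod_part (s : Sys ι J) (κ : ι → Option J) :
    s.r κ = ∏ j, s.rho (part κ j) := by
  unfold Sys.r Sys.rho
  rw [off_supp_eq_biUnion κ, Finset.prod_biUnion (off_part_pairwise κ)]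

theorem ph_eq_prod_part (s : Sys ι J) (κ : ι → Option J) :
    s.ph κ = ∏ j, s.phi (part κ j) := by
  unfold Sys.ph Sys.phi
  rw [off_supp_eq_biUnion κ, Finset.prod_biUnion (off_part_pairwise κ)]

/-- `rho`, `phi` are at least `1` (all primes are `≥ 2`). -/
theorem one_le_rho (s : Sys ι J) (A : Finset ι) : 1 ≤ s.rho A := by
  unfold Sys.rho
  induction A using Finset.induction_on with
  | empty => simp
  | insert a A ha ih =>
    rw [Finset.prod_insert ha]
    have h1 : (1 : ℝ) ≤ (s.pr a : ℝ) := by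
      exact_mod_cast (s.prime a).one_lt.le
    nlinarith

theorem one_le_phi (s : Sys ι J) (A : Finset ι) : 1 ≤ s.phi A := by
  unfold Sys.phi
  induction A using Finset.induction_on with
  | empty => simp
  | insert a A ha ih =>
    rw [Finset.prod_insert ha]
    have h1 : (2 : ℝ) ≤ (s.pr a : ℝ) := by
      exact_mod_cast (s.prime a).two_le
    nlinarith

end Pool.Agent.Lib.H56G
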