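import Mathlib

/-!
# Chunk PARNUM: the parameters of the suppression theorem (pure asymptotics)
-/

open Finset Real

namespace Pool.Agent.Lib.H56G

/-- The parameters `N = ⌊x^(1/40)⌋`, `W = ⌈(log x)^4⌉`, `z = exp (log x/(240 logloglog x))`. -/
noncomputable def NN (x : ℝ) : ℕ := ⌊x ^ (1 / 40 : ℝ)⌋₊
noncomputable def WW (x : ℝ) : ℕ := ⌈(log x) ^ 4⌉₊
noncomputable def zz (x : ℝ) : ℝ := exp (log x / (240 * log (log (log x))))

/-- the numerical core -/
theorem parnum_core (x L l2 l3 : ℝ) (hx : 0 < x) (hL : log x = L) (h2 : log L = l2)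
    (h3 : log l2 = l3) (C1 : 10 ^ 6 ≤ L) (C2 : 4 ≤ l3)
    (C3 : log 1968000 + 2 * l3 ≤ 0.18 * l2) (C4 : 240 * l3 ≤ L) (C5 : 328000 * l2 ≤ L)
    (C6 : l2 ^ 2 ≤ L) (C7 : 72 * L < exp (0.1 * L)) (R : ℕ)
    (hR : (R : ℝ) ≤ 10 ^ (-7 : ℤ) * log x) (S : ℝ)
    (hS : log (log (zz x) / (2000 * log (WW x))) / (2000 * log (WW x)) ≤ S) :
    2 ≤ WW x ∧ R ≤ WW x ∧ 1 < zz x ∧ zz x ≤ NN x ∧ 1 ≤ (NN x : ℝ) ∧
    2000 * log (WW x) ≤ log (zz x) ∧ 0 < S ∧
    1 ≤ log (NN x) / (1000 * log (WW x)) ∧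
    2 * log (NN x) / WW x ≤ 1 / 2 ∧
    exp (4 * (R + 1) * log (NN x) / WW x) ≤ 2 ∧
    ∃ ε τ : ℝ, ε ≤ 1 ∧
      (zz x / NN x) ^ (1 / log (zz x)) * (1 + 2 / (S * log (zz x))) ^ R ≤ ε ∧
      2 * log (NN x) * ((2 / S + 1) / WW x) ≤ τ ∧
      18 * ((R : ℝ) + 1) * ((NN x : ℝ) * NN x) ^ 8
        < (⌊x ^ (1 / 2 : ℝ)⌋₊ : ℝ) * ((2 - exp (4 * (R + 1) * log (NN x) / WW x)) * (1 - ε) -
          R * (exp (4 * (R + 1) * log (NN x) / WW x) / (log (NN x) / (1000 * log (WW x)))) *
            (τ ^ 2 + ε)) := by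
  have hL0 : 0 < L := by linarith
  have hl2pos : 0 < l2 := by
    by_contra hneg
    push Not at hneg
    have h5 : 0 ≤ log (1968000 : ℝ) := log_nonneg (by norm_num)
    linarith only [C2, C3, hneg, h5]
  have hl2 : 40 ≤ l2 := by
    have h5 : 0 ≤ log (1968000 : ℝ) := log_nonneg (by norm_num)
    linarith only [C2, C3, h5]
  have hl3 : l3 = log l2 := h3.symm
  have hexp2 : exp l2 = L := by rw [← h2, exp_log hL0]
  have hexp3 : exp l3 = l2 := by rw [← h3, exp_log hl2pos]
  -- x = exp L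
  have hxe : ∀ y : ℝ, x ^ y = exp (L * y) := fun y => by rw [rpow_def_of_pos hx, hL]
  -- WW
  have hW1 : L ^ 4 ≤ (WW x : ℝ) := by unfold WW; rw [hL]; exact Nat.le_ceil _
  have hW2 : (WW x : ℝ) ≤ 2 * L ^ 4 := by
    unfold WW
    rw [hL]
    have h := (Nat.ceil_lt_add_one (show 0 ≤ L ^ 4 by positivity)).le
    have h1 : (1 : ℝ) ≤ L ^ 4 := one_le_pow₀ (by linarith)
    linarith
  have hL4 : (10 ^ 6 : ℝ) ≤ L ^ 4 := by
    have : L ≤ L ^ 4 := le_self_pow₀ (by linarith) (by norm_num)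
    linarith
  have hWpos : (0 : ℝ) < WW x := by linarith
  have hlogW1 : 4 * l2 ≤ log (WW x) := by
    rw [← h2, ← log_rpow hL0 4]
    apply log_le_log (by positivity)
    have : L ^ (4 : ℝ) = L ^ 4 := by exact_mod_cast rpow_natCast L 4
    rw [this]; exact hW1
  have hlogW2 : log (WW x) ≤ 4.1 * l2 := by
    have h5 : log (WW x) ≤ log (2 * L ^ 4) := log_le_log hWpos hW2
    rw [log_mul (by norm_num) (by positivity), log_pow, h2] at h5
    have h6 : log 2 ≤ 1 := by
      have := log_two_lt_d9; linarith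
    push_cast at h5
    linarith
  have hlogWpos : 0 < log (WW x) := by linarith
  -- zz
  have hl3pos : 0 < l3 := by linarith
  have hlz : log (zz x) = L / (240 * l3) := by
    unfold zz; rw [log_exp, hL, h2, h3]
  have hlzpos : 0 < log (zz x) := by rw [hlz]; positivity
  have hlz2 : log (zz x) ≤ L / 960 := by
    rw [hlz]
    apply div_le_div_of_nonneg_left hL0.le (by norm_num) (by linarith)
  -- NN
  have hX40 : x ^ (1 / 40 : ℝ) = exp (L / 40) := by rw [hxe]; congr 1; ring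
  have hN1 : (NN x : ℝ) ≤ exp (L / 40) := by
    unfold NN; rw [hX40]; exact Nat.floor_le (exp_pos _).le
  have hN2 : exp (L / 40) - 1 < (NN x : ℝ) := by
    unfold NN; rw [hX40]; exact Nat.sub_one_lt_floor _
  have he40 : (2 : ℝ) ≤ exp (L / 40) := by
    have := add_one_le_exp (L / 40)
    have : (10 ^ 6 : ℝ) / 40 ≤ L / 40 := by linarith
    norm_num at this ⊢
    linarith
  have hN3 : exp (L / 40) / 2 ≤ (NN x : ℝ) := by linarith
  have hN0 : (0 : ℝ) < NN x := by linarith
  have hN1' : (1 : ℝ) ≤ NN x := by linarith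
  have hlN1 : log (NN x) ≤ L / 40 := by
    have := log_le_log hN0 hN1
    rwa [log_exp] at this
  have hlN2 : L / 40 - 1 ≤ log (NN x) := by
    have h5 := log_le_log (by positivity) hN3
    rw [log_div (exp_pos _).ne' (by norm_num), log_exp] at h5
    have h6 : log 2 ≤ 1 := by
      have := log_two_lt_d9; linarith
    linarith
  have hlN3 : L / 80 ≤ log (NN x) := by linarith
  have hlNpos : 0 < log (NN x) := by linarith
  -- S lower bound
  have hA : 0.82 * l2 ≤ log (log (zz x) / (2000 * log (WW x))) := by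
    have hA0 : exp (0.82 * l2) ≤ log (zz x) / (2000 * log (WW x)) := by
      rw [le_div_iff₀ (by positivity), hlz]
      rw [le_div_iff₀ (by positivity)]
      have h5 : exp (0.82 * l2) * (2000 * log (WW x)) * (240 * l3)
          ≤ exp (0.82 * l2) * (2000 * (4.1 * l2)) * (240 * l2) := by
        have h6 : l3 ≤ l2 := by
          rw [hl3]; exact (log_le_sub_one_of_pos hl2pos).trans (by linarith)
        have h7 : 0 < exp (0.82 * l2) := exp_pos _
        gcongr
      refine h5.trans ?_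
      have h8 : exp (0.82 * l2) * (2000 * (4.1 * l2)) * (240 * l2)
          = exp (0.82 * l2) * exp (log 1968000 + 2 * l3) := by
        rw [exp_add, exp_log (by norm_num), two_mul l3, exp_add, hexp3]
        ring
      rw [h8, ← exp_add]
      calc exp (0.82 * l2 + (log 1968000 + 2 * l3)) ≤ exp l2 := exp_le_exp.mpr (by linarith)
        _ = L := hexp2
    have := log_le_log (exp_pos _) hA0
    rwa [log_exp] at this
  have hSlow : 1 / 10000 ≤ S := by
    refine le_trans ?_ hS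
    rw [le_div_iff₀ (by positivity)]
    linarith only [hA, hlogW2]
  have hSpos : 0 < S := by linarith
  have hR' : (R : ℝ) ≤ L / 10 ^ 7 := by
    rw [hL] at hR
    have : (10 : ℝ) ^ (-7 : ℤ) = 1 / 10 ^ 7 := by norm_num
    rw [this] at hR
    linarith
  have hR1 : (R : ℝ) + 1 ≤ L / 2 := by linarith
  have hR0 : (0 : ℝ) ≤ R := Nat.cast_nonneg R
  -- exponent of K
  have hKe : 4 * ((R : ℝ) + 1) * log (NN x) / WW x ≤ 1 / 20 := by
    rw [div_le_iff₀ hWpos]
    have h5 : 4 * ((R : ℝ) + 1) * log (NN x) ≤ 4 * (L / 2) * (L / 40) := by gcongr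
    have h7 : L ^ 2 ≤ L ^ 4 := pow_le_pow_right₀ (by linarith) (by norm_num)
    have h8 : 4 * (L / 2) * (L / 40) = L ^ 2 / 20 := by ring
    linarith only [h5, h7, h8, hW1]
  have hK1 : exp (4 * ((R : ℝ) + 1) * log (NN x) / WW x) ≤ 1.1 := by
    refine le_trans (exp_le_exp.mpr hKe) ?_
    have h5 : exp (1 / 20 : ℝ) ≤ 1 / (1 - 1 / 20) := by
      have h6 := one_sub_le_exp_neg (1 / 20 : ℝ)
      rw [exp_neg] at h6
      rw [le_div_iff₀ (by norm_num)]
      have h7 : 0 < exp (1 / 20 : ℝ) := exp_pos _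
      calc exp (1 / 20) * (1 - 1 / 20) ≤ exp (1 / 20) * (exp (1 / 20))⁻¹ := by gcongr
        _ = 1 := mul_inv_cancel₀ h7.ne'
    refine h5.trans (by norm_num)
  have hKpos : 0 < exp (4 * ((R : ℝ) + 1) * log (NN x) / WW x) := exp_pos _
  set K := exp (4 * ((R : ℝ) + 1) * log (NN x) / WW x) with hKdef
  -- V0
  have hV1 : L / 80 / (1000 * (4.1 * l2)) ≤ log (NN x) / (1000 * log (WW x)) := by
    gcongr
  have hV2 : 1 ≤ L / 80 / (1000 * (4.1 * l2)) := by
    rw [le_div_iff₀ (by positivity)]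
    linarith
  set V0 := log (NN x) / (1000 * log (WW x)) with hV0def
  have hV0pos : 0 < V0 := by linarith
  -- ε
  have hε : (zz x / NN x) ^ (1 / log (zz x)) * (1 + 2 / (S * log (zz x))) ^ R
      ≤ exp (-5 * l3) := by
    have hzpos : 0 < zz x := exp_pos _
    have h5 : (zz x / NN x) ^ (1 / log (zz x)) ≤ exp (2 - 6 * l3) := by
      rw [rpow_def_of_pos (by positivity)]
      apply exp_le_exp.mpr
      rw [log_div hzpos.ne' hN0.ne', mul_one_div, div_le_iff₀ hlzpos]
      have h6 : (6 * l3 - 1) * log (zz x) ≤ L / 40 - 1 := by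
        rw [hlz]
        have h7 : (6 * l3 - 1) * (L / (240 * l3)) = L / 40 - L / (240 * l3) := by
          field_simp
          ring
        rw [h7]
        have h8 : 1 ≤ L / (240 * l3) := by
          rw [le_div_iff₀ (by positivity)]; linarith
        linarith
      have h9 : (2 - 6 * l3) * log (zz x) = log (zz x) - (6 * l3 - 1) * log (zz x) := by ring
      rw [h9]
      linarith only [h6, hlN2]
    have h9 : (1 + 2 / (S * log (zz x))) ^ R ≤ exp (0.48 * l3) := by
      have h10 : 1 + 2 / (S * log (zz x)) ≤ exp (2 / (S * log (zz x))) := by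
        have := add_one_le_exp (2 / (S * log (zz x)))
        linarith
      calc (1 + 2 / (S * log (zz x))) ^ R ≤ (exp (2 / (S * log (zz x)))) ^ R := by gcongr
        _ = exp (R * (2 / (S * log (zz x)))) := by rw [← exp_nat_mul]
        _ ≤ exp (0.48 * l3) := by
          apply exp_le_exp.mpr
          rw [mul_div_assoc', div_le_iff₀ (by positivity), hlz]
          have h11 : 0.48 * l3 * (1 / 10000 * (L / (240 * l3))) ≤
              0.48 * l3 * (S * (L / (240 * l3))) := by gcongr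
          refine le_trans ?_ h11
          have h12 : 0.48 * l3 * (1 / 10000 * (L / (240 * l3))) = 2 * (L / 10 ^ 7) := by
            field_simp
            ring
          rw [h12]
          linarith
    calc (zz x / NN x) ^ (1 / log (zz x)) * (1 + 2 / (S * log (zz x))) ^ R
        ≤ exp (2 - 6 * l3) * exp (0.48 * l3) := by
          apply mul_le_mul h5 h9 _ (exp_pos _).le
          positivity
      _ = exp (2 - 6 * l3 + 0.48 * l3) := by rw [← exp_add]
      _ ≤ exp (-5 * l3) := exp_le_exp.mpr (by linarith)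
  have hε2 : exp (-5 * l3) = (l2 ^ 5)⁻¹ := by
    have : -5 * l3 = -(((5 : ℕ) : ℝ) * l3) := by push_cast; ring
    rw [this, exp_neg, exp_nat_mul, hexp3]
  -- τ
  have hτ : 2 * log (NN x) * ((2 / S + 1) / WW x) ≤ (L ^ 2)⁻¹ := by
    have h5 : 2 / S + 1 ≤ 20001 := by
      have : 2 / S ≤ 20000 := by
        rw [div_le_iff₀ hSpos]; linarith
      linarith
    calc 2 * log (NN x) * ((2 / S + 1) / WW x) ≤ 2 * (L / 40) * (20001 / L ^ 4) := by
          gcongr
      _ ≤ (L ^ 2)⁻¹ := by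
          rw [← one_div, le_div_iff₀ (by positivity)]
          have : 2 * (L / 40) * (20001 / L ^ 4) * L ^ 2 = (20001 / 20) / L := by
            field_simp
            ring
          rw [this, div_le_one hL0]
          linarith
  refine ⟨?_, ?_, ?_, ?_, hN1', ?_, hSpos, by linarith, ?_, ?_, exp (-5 * l3), (L ^ 2)⁻¹,
    ?_, hε, hτ, ?_⟩
  · have : (2 : ℝ) ≤ WW x := by linarith
    exact_mod_cast this
  · have : (R : ℝ) ≤ WW x := by
      have h1 : L ≤ L ^ 4 := le_self_pow₀ (by linarith) (by norm_num)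
      linarith
    exact_mod_cast this
  · unfold zz
    rw [hL, h2, h3]
    exact one_lt_exp_iff.mpr (by positivity)
  · have h5 : zz x = exp (log (zz x)) := (exp_log (exp_pos _)).symm
    have h6 : zz x ≤ exp (L / 40) / 2 := by
      rw [h5]
      have h7 : exp (log (zz x)) ≤ exp (L / 40 - 1) := exp_le_exp.mpr (by linarith)
      have h8 : exp (L / 40 - 1) ≤ exp (L / 40) / 2 := by
        rw [exp_sub]
        have := exp_one_gt_d9
        gcongr
        linarith
      linarith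
    linarith
  · have h5 : 1 ≤ log (zz x) / (2000 * log (WW x)) := by
      by_contra hneg
      push Not at hneg
      have h6 : log (log (zz x) / (2000 * log (WW x))) ≤ 0 :=
        log_nonpos (by positivity) hneg.le
      linarith
    rwa [le_div_iff₀ (by positivity), one_mul] at h5
  · rw [div_le_iff₀ hWpos]
    have h1 : L ≤ L ^ 4 := le_self_pow₀ (by linarith) (by norm_num)
    linarith
  · linarith
  · rw [hε2]
    apply inv_le_one_of_one_le₀
    exact one_le_pow₀ (by linarith)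
  · -- main inequality
    have hY : exp (L / 2) / 2 ≤ (⌊x ^ (1 / 2 : ℝ)⌋₊ : ℝ) := by
      have h5 : x ^ (1 / 2 : ℝ) = exp (L / 2) := by rw [hxe]; congr 1; ring
      rw [h5]
      have h6 := Nat.sub_one_lt_floor (exp (L / 2))
      have h7 : (2 : ℝ) ≤ exp (L / 2) := by
        have := add_one_le_exp (L / 2)
        linarith
      linarith
    have hεs : exp (-5 * l3) ≤ 0.01 := by
      rw [hε2]
      have h5 : (100 : ℝ) ≤ l2 ^ 5 := by
        calc (100 : ℝ) ≤ 40 ^ 5 := by norm_num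
          _ ≤ l2 ^ 5 := by gcongr
      rw [inv_le_comm₀ (by positivity) (by norm_num)]
      norm_num
      linarith
    have hε0 : 0 < exp (-5 * l3) := exp_pos _
    have hτs : ((L ^ 2)⁻¹) ^ 2 ≤ exp (-5 * l3) := by
      rw [hε2, ← inv_pow, ← inv_pow, ← pow_mul]
      have h5 : L⁻¹ ≤ (l2 ^ 2)⁻¹ := by
        apply inv_anti₀ (by positivity) C6
      calc (L⁻¹) ^ (2 * 2) ≤ ((l2 ^ 2)⁻¹) ^ (2 * 2) := by gcongr
        _ = (l2⁻¹) ^ 8 := by rw [← inv_pow, ← pow_mul]
        _ ≤ (l2⁻¹) ^ 5 := by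
          apply pow_le_pow_of_le_one (by positivity) (inv_le_one_of_one_le₀ (by linarith))
            (by norm_num)
    have hsecond : (R : ℝ) * (K / V0) * (((L ^ 2)⁻¹) ^ 2 + exp (-5 * l3)) ≤ 0.1 := by
      have h5 : K / V0 ≤ 1.1 / (L / 80 / (1000 * (4.1 * l2))) := by
        gcongr
      have h6 : ((L ^ 2)⁻¹) ^ 2 + exp (-5 * l3) ≤ 2 * exp (-5 * l3) := by linarith
      calc (R : ℝ) * (K / V0) * (((L ^ 2)⁻¹) ^ 2 + exp (-5 * l3))
          ≤ (L / 10 ^ 7) * (1.1 / (L / 80 / (1000 * (4.1 * l2)))) * (2 * exp (-5 * l3)) := by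
            gcongr
        _ = (1.1 * 80 * 4100 * 2 / 10 ^ 7) * (l2 * (l2 ^ 5)⁻¹) := by
            rw [hε2]
            field_simp
            ring
        _ ≤ 0.1 := by
            have h7 : l2 * (l2 ^ 5)⁻¹ ≤ 1 := by
              rw [← div_eq_mul_inv, div_le_one (by positivity)]
              exact le_self_pow₀ (by linarith) (by norm_num)
            norm_num
            linarith
    have hbr : 1 / 2 ≤ (2 - K) * (1 - exp (-5 * l3)) -
        R * (K / V0) * (((L ^ 2)⁻¹) ^ 2 + exp (-5 * l3)) := by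
      have h5 : 0.9 * 0.99 ≤ (2 - K) * (1 - exp (-5 * l3)) := by
        apply mul_le_mul <;> linarith
      linarith
    have hNN : ((NN x : ℝ) * NN x) ^ 8 ≤ exp (0.4 * L) := by
      have h5 : ((NN x : ℝ) * NN x) ^ 8 ≤ (exp (L / 40) * exp (L / 40)) ^ 8 := by gcongr
      refine h5.trans (le_of_eq ?_)
      rw [← exp_add, ← exp_nat_mul]
      congr 1
      push_cast
      ring
    calc 18 * ((R : ℝ) + 1) * ((NN x : ℝ) * NN x) ^ 8
        ≤ 18 * (L / 2) * exp (0.4 * L) := by gcongr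
      _ < exp (0.1 * L) * exp (0.4 * L) * (1 / 4) := by
          have h5 : 0 < exp (0.4 * L) := exp_pos _
          have h6 : 18 * (L / 2) < exp (0.1 * L) * (1 / 4) := by
            have := exp_pos (0.1 * L)
            linarith only [C7, this, hL0]
          calc 18 * (L / 2) * exp (0.4 * L) < exp (0.1 * L) * (1 / 4) * exp (0.4 * L) :=
                mul_lt_mul_of_pos_right h6 h5
            _ = exp (0.1 * L) * exp (0.4 * L) * (1 / 4) := by ring
      _ = exp (L / 2) / 2 * (1 / 2) := by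
          rw [← exp_add]
          have : 0.1 * L + 0.4 * L = L / 2 := by ring
          rw [this]; ring
      _ ≤ _ := by
          apply mul_le_mul hY hbr (by norm_num)
          exact le_trans (by positivity) hY

/-- All numerical conditions of `exists_t` for large `x`, with `D1 = D2 = N`,
`V0 = log N/(1000 log W)`, `K = exp (4 (R+1) log N / W)`, `ε = (logloglog... )`.
Proof. `log W ~ 4 loglog x`, `log z = log x/(240 logloglog x)`, so the lower bound for `S` tends to
`1/8000 · (1 + o(1))`: `S ≥ 1/10000` for large `x`. Take `c0 = 10^-7`. Then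
`(z/N)^(1/log z) = exp (1 - log N/log z)`, `log N / log z = 6 logloglog x + o(1)`;
`(1 + 2/(S log z))^R ≤ exp (2 R/(S log z)) ≤ exp (2 c0 · 10^4 · 240 logloglog x)
≤ exp (0.48 logloglog x)`; take `ε = (loglog x)^-5`. `τ = 2 log N (2/S + 1)/W ≤ (log x)^-2`.
`K → 1`, `R/V0 ≤ C loglog x`. So `(2 - K)(1 - ε) - R (K/V0) (τ^2 + ε) → 1`, and
`(N^2)^8 = N^16 ≤ x^0.4` is much smaller than `⌊x^(1/2)⌋`. -/
theorem par_num : ∃ c0 : ℝ, 0 < c0 ∧ ∃ x0 : ℝ, ∀ x : ℝ, x0 ≤ x → ∀ R : ℕ,
    (R : ℝ) ≤ c0 * log x → ∀ S : ℝ,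
    log (log (zz x) / (2000 * log (WW x))) / (2000 * log (WW x)) ≤ S →
    2 ≤ WW x ∧ R ≤ WW x ∧ 1 < zz x ∧ zz x ≤ NN x ∧ 1 ≤ (NN x : ℝ) ∧
    2000 * log (WW x) ≤ log (zz x) ∧ 0 < S ∧
    1 ≤ log (NN x) / (1000 * log (WW x)) ∧
    2 * log (NN x) / WW x ≤ 1 / 2 ∧
    exp (4 * (R + 1) * log (NN x) / WW x) ≤ 2 ∧
    ∃ ε τ : ℝ, ε ≤ 1 ∧
      (zz x / NN x) ^ (1 / log (zz x)) * (1 + 2 / (S * log (zz x))) ^ R ≤ ε ∧
      2 * log (NN x) * ((2 / S + 1) / WW x) ≤ τ ∧
      18 * ((R : ℝ) + 1) * ((NN x : ℝ) * NN x) ^ 8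
        < (⌊x ^ (1 / 2 : ℝ)⌋₊ : ℝ) * ((2 - exp (4 * (R + 1) * log (NN x) / WW x)) * (1 - ε) -
          R * (exp (4 * (R + 1) * log (NN x) / WW x) / (log (NN x) / (1000 * log (WW x)))) *
            (τ ^ 2 + ε)) := by
  refine ⟨10 ^ (-7 : ℤ), by positivity, ?_⟩
  have T1 : Filter.Tendsto log Filter.atTop Filter.atTop := tendsto_log_atTop
  have T2 : Filter.Tendsto (fun x => log (log x)) Filter.atTop Filter.atTop := T1.comp T1
  have T3 : Filter.Tendsto (fun x => log (log (log x))) Filter.atTop Filter.atTop := T1.comp T2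
  have hlo : ∀ c : ℝ, 0 < c → ∀ᶠ y : ℝ in Filter.atTop, log y ≤ c * y := by
    intro c hc
    filter_upwards [isLittleO_log_id_atTop.def hc, Filter.eventually_ge_atTop 1] with y hy hy1
    simp only [id_eq, norm_eq_abs] at hy
    rw [abs_of_nonneg (log_nonneg hy1), abs_of_nonneg (by linarith)] at hy
    exact hy
  have E1 : ∀ᶠ x : ℝ in Filter.atTop, (10 : ℝ) ^ 6 ≤ log x := T1.eventually_ge_atTop _
  have E2 : ∀ᶠ x : ℝ in Filter.atTop, (4 : ℝ) ≤ log (log (log x)) := T3.eventually_ge_atTop _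
  have E3a : ∀ᶠ x : ℝ in Filter.atTop, log (log (log x)) ≤ 0.01 * log (log x) :=
    T2.eventually (hlo 0.01 (by norm_num))
  have E3b : ∀ᶠ x : ℝ in Filter.atTop, log 1968000 / 0.1 ≤ log (log x) :=
    T2.eventually_ge_atTop _
  have E5 : ∀ᶠ x : ℝ in Filter.atTop, log (log x) ≤ (1 / 328000) * log x :=
    T1.eventually (hlo (1 / 328000) (by norm_num))
  have E6 : ∀ᶠ x : ℝ in Filter.atTop, (log (log x)) ^ 2 ≤ log x := by
    have h : ∀ᶠ y : ℝ in Filter.atTop, (log y) ^ 2 ≤ y := by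
      filter_upwards [(isLittleO_pow_log_id_atTop (n := 2)).def (c := 1) one_pos,
        Filter.eventually_ge_atTop 1] with y hy hy1
      simp only [id_eq, norm_eq_abs, one_mul] at hy
      rw [abs_of_nonneg (by positivity), abs_of_nonneg (by linarith)] at hy
      exact hy
    exact T1.eventually h
  have E7 : ∀ᶠ x : ℝ in Filter.atTop, 72 * log x < exp (0.1 * log x) := by
    have h : ∀ᶠ y : ℝ in Filter.atTop, 72 * y < exp (0.1 * y) := by
      filter_upwards [Filter.eventually_ge_atTop (20000 : ℝ)] with y hy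
      have h5 := quadratic_le_exp_of_nonneg (show 0 ≤ 0.1 * y by linarith)
      nlinarith
    exact T1.eventually h
  have hall := ((E1.and E2).and (E3a.and E3b)).and ((E5.and E6).and
    (E7.and (Filter.eventually_gt_atTop 0)))
  obtain ⟨x0, hx0⟩ := Filter.eventually_atTop.mp hall
  refine ⟨x0, fun x hx R hR S hS => ?_⟩
  obtain ⟨⟨⟨h1, h2⟩, h3a, h3b⟩, ⟨h5, h6⟩, h7, h8⟩ := hx0 x hx
  have h3b' : log 1968000 ≤ 0.1 * log (log x) := by
    rw [div_le_iff₀ (by norm_num)] at h3b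
    linarith
  refine parnum_core x (log x) (log (log x)) (log (log (log x))) h8 rfl rfl rfl h1 h2
    (by linarith) ?_ (by linarith) h6 h7 R hR S hS
  linarith

end Pool.Agent.Lib.H56G
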