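import Pool.Agent.Lib.H56G.Main0
import Pool.Agent.Lib.H56G.Slow
import Pool.Agent.Lib.H56G.ParNum

/-!
# Chunk SUPP: the suppression theorem
-/

open Finset

namespace Pool.Agent.Lib.H56G

/-- The primes in `(W, N]`. -/
def primeSet (W N : ℕ) : Finset ℕ := (Ioc W N).filter Nat.Prime

/-- The system of the forms `b + M t`, `b ∈ B`, and the primes in `(W, N]`. -/
def mkSys (W N M : ℕ) (B : Finset ℕ) (hM : ∀ p, p.Prime → W < p → ¬ p ∣ M)
    (hB : ∀ b ∈ B, ∀ b' ∈ B, b ≤ b' + W) :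
    Sys {p // p ∈ primeSet W N} {b // b ∈ B} where
  pr i := i.1
  prime i := (mem_filter.mp i.2).2
  inj := Subtype.val_injective
  M := M
  b j := j.1
  copM i := hM i.1 (mem_filter.mp i.2).2 (mem_Ioc.mp (mem_filter.mp i.2).1).1
  dist i j j' hj h := by
    have h1 := hB j.1 j.2 j'.1 j'.2
    have h2 := hB j'.1 j'.2 j.1 j.2
    have h3 := (mem_Ioc.mp (mem_filter.mp i.2).1).1
    rcases le_total j.1 j'.1 with hle | hle
    · have h4 := (Nat.modEq_iff_dvd' hle).mp h
      have h5 : 0 < j'.1 - j.1 := by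
        rcases Nat.eq_zero_or_pos (j'.1 - j.1) with h0 | h0
        · exact absurd (Subtype.ext (by omega)) hj
        · exact h0
      have h6 := Nat.le_of_dvd h5 h4
      omega
    · have h4 := (Nat.modEq_iff_dvd' hle).mp h.symm
      have h5 : 0 < j.1 - j'.1 := by
        rcases Nat.eq_zero_or_pos (j.1 - j'.1) with h0 | h0
        · exact absurd (Subtype.ext (by omega)) hj
        · exact h0
      have h6 := Nat.le_of_dvd h5 h4
      omega

/-- The suppression theorem: if `M` has no prime factor `> W = ⌈(log x)^4⌉` and `B` is a set of at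
most `c0 log x` integers `> x^(1/40)` whose differences are at most `W`, then there is
`t ≤ x^(1/2)` such that no `b + M t` (`b ∈ B`) is prime.
Proof: `par_num`, `exists_t` for `mkSys W N M B` with `D1 = D2 = N`, `V0 = log N/(1000 log W)`,
`K = exp (4 (|B|+1) log N/W)`, `Y = ⌊x^(1/2)⌋`: `vlow` and `VV_ge` (`card_supp_le`) give `hV`,
`ps_le` gives `hK` (`log (N * N) = 2 log N`), `slow` gives the bound for `S`. A prime `pr i ≤ N < b`
dividing `b + M t` shows that `b + M t` is not prime. -/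
theorem suppress : ∃ c0 : ℝ, 0 < c0 ∧ ∃ x0 : ℝ, ∀ x : ℝ, x0 ≤ x → ∀ (M : ℕ) (B : Finset ℕ),
    (∀ p, p.Prime → WW x < p → ¬ p ∣ M) → ((B.card : ℝ) ≤ c0 * Real.log x) →
    (∀ b ∈ B, x ^ (1 / 40 : ℝ) < b) → (∀ b ∈ B, ∀ b' ∈ B, b ≤ b' + WW x) →
    ∃ t ∈ Icc 1 ⌊x ^ (1 / 2 : ℝ)⌋₊, ∀ b ∈ B, ¬ (b + M * t).Prime := by
  obtain ⟨c0, hc0, x0, hpar⟩ := par_num
  refine ⟨c0, hc0, max x0 1, fun x hx M B hM hB1 hB2 hB3 => ?_⟩
  have hx0 : x0 ≤ x := (le_max_left _ _).trans hx
  have hx1 : 1 ≤ x := (le_max_right _ _).trans hx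
  set s := mkSys (WW x) (NN x) M B hM hB3 with hs
  have hcard : Fintype.card {b // b ∈ B} = B.card := Fintype.card_coe B
  have hpr : ∀ i, WW x < s.pr i := fun i => (mem_Ioc.mp (mem_filter.mp i.2).1).1
  have hprN : ∀ i, s.pr i ≤ NN x := fun i => (mem_Ioc.mp (mem_filter.mp i.2).1).2
  have hall : ∀ p, p.Prime → WW x < p → p ≤ NN x → ∃ i, s.pr i = p := fun p hp h1 h2 =>
    ⟨⟨p, mem_filter.mpr ⟨mem_Ioc.mpr ⟨h1, h2⟩, hp⟩⟩, rfl⟩
  -- the bound for `S`
  obtain ⟨hW2, hRW, hz1, hzN, hN1, hWz, -, hV1, hNW, hK2, -⟩ :=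
    hpar x hx0 B.card hB1 _ le_rfl
  have hS := slow s (WW x) (NN x) hW2 hpr hall (zz x) hzN (by linarith) hWz
  obtain ⟨-, -, -, -, -, -, hS0, -, -, -, ε, τ, hε1, hε, hτ, hnum⟩ :=
    hpar x hx0 B.card hB1 _ hS
  have hW1 : 1 ≤ WW x := by omega
  have hWpos : (0 : ℝ) < WW x := by exact_mod_cast (by omega : 0 < WW x)
  have hlogN : 0 ≤ Real.log (NN x) := Real.log_nonneg hN1
  have hlogW : 0 < Real.log (WW x) := Real.log_pos (by exact_mod_cast (by omega : 1 < WW x))
  obtain ⟨t, ht, htj⟩ := exists_t s (WW x) hW1 hpr (by rw [hcard]; exact hRW) (zz x)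
    (NN x) (NN x) (Real.log (NN x) / (1000 * Real.log (WW x)))
    (Real.exp (4 * ((B.card : ℝ) + 1) * Real.log (NN x) / WW x)) ε τ hz1 hzN hN1 hV1
    (Real.one_le_exp (by positivity)) hK2 hS0 (by
      intro κ hκ
      have h1 := VV_ge s (WW x) hW1 hpr (NN x) κ
      have h2 := card_supp_le s κ (NN x) hκ
      have h3 := vlow s (WW x) (NN x) hW2 hpr hall (NN x) hN1 le_rfl
      set V := ∑ A ∈ univ.filter (fun A : Finset _ => s.rho A ≤ (NN x : ℝ)), 1 / s.phi A with hV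
      have h4 : ((supp κ).card : ℝ) / WW x ≤ 1 / 2 := by
        refine le_trans ?_ hNW
        gcongr
      have h5 : Real.log (NN x) / (500 * Real.log (WW x)) ≤ V := by
        rw [div_le_iff₀ (by positivity)]
        linarith
      have h6 : 0 ≤ Real.log (NN x) / (500 * Real.log (WW x)) := by positivity
      have h7 : (1 / 2 : ℝ) * V ≤ (1 - ((supp κ).card : ℝ) / WW x) * V :=
        mul_le_mul_of_nonneg_right (by linarith) (by linarith)
      have h8 : Real.log (NN x) / (1000 * Real.log (WW x)) =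
          1 / 2 * (Real.log (NN x) / (500 * Real.log (WW x))) := by
        field_simp
        ring
      rw [h8]
      linarith) (by
      intro κ hκ
      have h1 := ps_le s (WW x) hW1 hpr κ _ hκ
      refine h1.trans (le_of_eq ?_)
      congr 2
      rw [hcard, Real.log_mul (by positivity) (by positivity)]
      ring) (by rw [hcard]; exact hε) hε1 hτ ⌊x ^ (1 / 2 : ℝ)⌋₊ (by
      rw [hcard]
      exact hnum)
  refine ⟨t, ht, fun b hb hprime => ?_⟩
  obtain ⟨i, hi⟩ := htj ⟨b, hb⟩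
  have h1 : s.pr i = b + M * t := (Nat.prime_dvd_prime_iff_eq (s.prime i) hprime).1 hi
  have h2 := hprN i
  have h3 := hB2 b hb
  have h4 : (NN x : ℝ) ≤ x ^ (1 / 40 : ℝ) := Nat.floor_le (by positivity)
  have h5 : (b : ℝ) ≤ NN x := by
    have : b ≤ NN x := by omega
    exact_mod_cast this
  linarith

end Pool.Agent.Lib.H56G
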