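import Pool.Agent.Lib.H56G.Defs
import Pool.Agent.Lib.Helper57.Mertens

/-!
# Chunk VLOW: `Σ_{ρ(A) ≤ D} 1/φ(A) ≥ log D / (500 log W)`
-/

open Finset

namespace Pool.Agent.Lib.H56G

variable {ι J : Type} [Fintype ι] [DecidableEq ι] [Fintype J] [DecidableEq J]

/-- the function `n ↦ 1/n` as a monoid homomorphism -/
noncomputable def vlow_inv : ℕ →* ℝ where
  toFun n := (n : ℝ)⁻¹
  map_one' := by simp
  map_mul' a b := by push_cast; rw [mul_inv]

theorem vlow_inv_apply (n : ℕ) : vlow_inv n = (n : ℝ)⁻¹ := rfl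

/-- a finite sum of `1/m` over integers with all prime factors in `S` -/
theorem vlow_sum_le (S : Finset ℕ) (hS : ∀ p ∈ S, p.Prime) (G : Finset ℕ)
    (hG : ∀ m ∈ G, m ∈ Nat.factoredNumbers S) :
    ∑ m ∈ G, ((m : ℕ) : ℝ)⁻¹ ≤ ∏ p ∈ S, (1 - 1 / (p : ℝ))⁻¹ := by
  have h1 := (EulerProduct.summable_and_hasSum_factoredNumbers_prod_filter_prime_geometric
    (f := vlow_inv) (by
      intro p hp
      rw [vlow_inv_apply, norm_inv, Real.norm_natCast]
      exact inv_lt_one_of_one_lt₀ (by exact_mod_cast hp.one_lt)) S).2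
  have h2 : HasSum (Set.indicator (Nat.factoredNumbers S) (fun m : ℕ => ((m : ℕ) : ℝ)⁻¹))
      (∏ p ∈ S with p.Prime, (1 - vlow_inv p)⁻¹) := by
    rw [← hasSum_subtype_iff_indicator]
    exact h1
  have h3 := sum_le_hasSum G (fun m _ => Set.indicator_nonneg
    (fun m _ => by positivity) m) h2
  have h4 : ∑ m ∈ G, Set.indicator (Nat.factoredNumbers S) (fun m : ℕ => ((m : ℕ) : ℝ)⁻¹) m =
      ∑ m ∈ G, ((m : ℕ) : ℝ)⁻¹ := by
    apply Finset.sum_congr rfl
    intro m hm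
    rw [Set.indicator_of_mem (hG m hm)]
  rw [h4, Finset.filter_true_of_mem hS] at h3
  refine h3.trans (le_of_eq ?_)
  apply Finset.prod_congr rfl
  intro p _
  rw [vlow_inv_apply, one_div]

/-- `s` contains all the primes in `(W, N]`. For `n ≤ D` let `A(n) = {i : W < pr i, pr i ∣ n}`;
`ρ(A(n)) ≤ n ≤ D`. For fixed `A` the sum of `1/n` over the `n ≤ D` with `A(n) = A` is at most
`∏_{i ∈ A} (p^-1 + p^-2 + ..) ∏_{p ≤ W} (1 - 1/p)^-1 = (1/φ(A)) ∏_{p ≤ W} (1 - 1/p)^-1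
≤ 500 log W / φ(A)` (`Helper57.prod_one_sub_inv_inv_le`). Sum over `A`:
`log D ≤ Σ_{n ≤ D} 1/n ≤ 500 log W Σ_A 1/φ(A)`. (Euler products in Mathlib:
`EulerProduct.summable_and_hasSum_factoredNumbers_prod_filter_prime_geometric`; or induction.) -/
theorem vlow (s : Sys ι J) (W N : ℕ) (hW : 2 ≤ W) (hpr : ∀ i, W < s.pr i)
    (hall : ∀ p, p.Prime → W < p → p ≤ N → ∃ i, s.pr i = p) (D : ℝ) (hD1 : 1 ≤ D)
    (hDN : D ≤ N) :
    Real.log D ≤ 500 * Real.log W *
      ∑ A ∈ univ.filter (fun A : Finset ι => s.rho A ≤ D), 1 / s.phi A := by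
  classical
  set P : ℝ := ∏ p ∈ Sieve.primesUpTo W, (1 - 1 / (p : ℝ))⁻¹ with hP
  have hPle : P ≤ 500 * Real.log W := Helper57.prod_one_sub_inv_inv_le W hW
  have hphi_pos : ∀ A : Finset ι, 0 < s.phi A := by
    intro A
    unfold Sys.phi
    apply Finset.prod_pos
    intro i _
    have : (1 : ℝ) < s.pr i := by exact_mod_cast (s.prime i).one_lt
    linarith
  -- the natural number product
  let R : Finset ι → ℕ := fun A => ∏ i ∈ A, s.pr i
  have hR : ∀ A, ((R A : ℕ) : ℝ) = s.rho A := by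
    intro A
    simp only [R, Sys.rho]
    push_cast
    rfl
  have hRpos : ∀ A, 0 < R A := fun A => Finset.prod_pos (fun i _ => (s.prime i).pos)
  let T : ℕ → Finset ι := fun n => univ.filter (fun i => s.pr i ∣ n)
  have hRdvd : ∀ n, R (T n) ∣ n := by
    intro n
    have h1 : R (T n) = ∏ p ∈ (T n).image s.pr, p := by
      rw [Finset.prod_image (fun a _ b _ h => s.inj h)]
    rw [h1]
    apply Finset.prod_primes_dvd
    · intro p hp
      obtain ⟨i, _, rfl⟩ := Finset.mem_image.1 hp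
      exact (s.prime i).prime
    · intro p hp
      obtain ⟨i, hi, rfl⟩ := Finset.mem_image.1 hp
      exact (Finset.mem_filter.1 hi).2
  -- the inner sum
  have hinner : ∀ A : Finset ι,
      ∑ n ∈ (Icc 1 ⌊D⌋₊).filter (fun n => T n = A), ((n : ℕ) : ℝ)⁻¹ ≤ P * (1 / s.phi A) := by
    intro A
    set F := (Icc 1 ⌊D⌋₊).filter (fun n => T n = A) with hF
    set S : Finset ℕ := Sieve.primesUpTo W ∪ A.image s.pr with hS
    have hSprime : ∀ p ∈ S, p.Prime := by
      intro p hp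
      rcases Finset.mem_union.1 hp with h | h
      · exact (Sieve.mem_primesUpTo.1 h).1
      · obtain ⟨i, _, rfl⟩ := Finset.mem_image.1 h
        exact s.prime i
    have hFd : ∀ n ∈ F, R A ∣ n := by
      intro n hn
      have h1 := (Finset.mem_filter.1 hn).2
      rw [← h1]
      exact hRdvd n
    have hinj : Set.InjOn (fun n => n / R A) (F : Set ℕ) := by
      intro a ha b hb hab
      have h1 := Nat.div_mul_cancel (hFd a ha)
      have h2 := Nat.div_mul_cancel (hFd b hb)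
      simp only at hab
      rw [← h1, ← h2, hab]
    have hsum : ∑ n ∈ F, ((n : ℕ) : ℝ)⁻¹ =
        (s.rho A)⁻¹ * ∑ m ∈ F.image (fun n => n / R A), ((m : ℕ) : ℝ)⁻¹ := by
      rw [Finset.sum_image hinj, Finset.mul_sum]
      apply Finset.sum_congr rfl
      intro n hn
      rw [← hR, ← mul_inv]
      congr 1
      rw [← Nat.cast_mul, Nat.mul_div_cancel' (hFd n hn)]
    have hfac : ∀ m ∈ F.image (fun n => n / R A), m ∈ Nat.factoredNumbers S := by
      intro m hm
      obtain ⟨n, hn, rfl⟩ := Finset.mem_image.1 hm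
      have hn1 := (Finset.mem_filter.1 hn).1
      rw [Finset.mem_Icc] at hn1
      have hn0 : n ≠ 0 := by omega
      rw [Nat.mem_factoredNumbers']
      intro p hp hpn
      have hpn' : p ∣ n := hpn.trans (Nat.div_dvd_of_dvd (hFd n hn))
      have hple : p ≤ ⌊D⌋₊ := (Nat.le_of_dvd (by omega) hpn').trans hn1.2
      have hpN : p ≤ N := by
        have h1 : (⌊D⌋₊ : ℝ) ≤ D := Nat.floor_le (by linarith)
        have h2 : (p : ℝ) ≤ N := by
          calc (p : ℝ) ≤ (⌊D⌋₊ : ℝ) := by exact_mod_cast hple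
            _ ≤ D := h1
            _ ≤ N := hDN
        exact_mod_cast h2
      rw [hS, Finset.mem_union]
      by_cases hpW : p ≤ W
      · left
        exact Sieve.mem_primesUpTo.2 ⟨hp, hpW⟩
      · right
        obtain ⟨i, hi⟩ := hall p hp (by omega) hpN
        rw [Finset.mem_image]
        refine ⟨i, ?_, hi⟩
        rw [← (Finset.mem_filter.1 hn).2]
        exact Finset.mem_filter.2 ⟨Finset.mem_univ _, by rw [hi]; exact hpn'⟩
    rw [hsum]
    have hle := vlow_sum_le S hSprime _ hfac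
    have hdisj : Disjoint (Sieve.primesUpTo W) (A.image s.pr) := by
      rw [Finset.disjoint_left]
      intro p hp hp'
      obtain ⟨i, _, rfl⟩ := Finset.mem_image.1 hp'
      have h1 := (Sieve.mem_primesUpTo.1 hp).2
      have h2 := hpr i
      omega
    rw [hS, Finset.prod_union hdisj, Finset.prod_image (fun a _ b _ h => s.inj h)] at hle
    have hrpos : 0 < s.rho A := by rw [← hR]; exact_mod_cast hRpos A
    have hkey : (s.rho A)⁻¹ * ∏ i ∈ A, (1 - 1 / ((s.pr i : ℕ) : ℝ))⁻¹ = 1 / s.phi A := by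
      unfold Sys.rho Sys.phi
      rw [← Finset.prod_inv_distrib, ← Finset.prod_mul_distrib, one_div,
        ← Finset.prod_inv_distrib]
      apply Finset.prod_congr rfl
      intro i _
      have h1 : (1 : ℝ) < s.pr i := by exact_mod_cast (s.prime i).one_lt
      have h2 : ((s.pr i : ℕ) : ℝ) ≠ 0 := by linarith
      rw [← mul_inv]
      congr 1
      field_simp
    calc (s.rho A)⁻¹ * ∑ m ∈ F.image (fun n => n / R A), ((m : ℕ) : ℝ)⁻¹
        ≤ (s.rho A)⁻¹ * (P * ∏ i ∈ A, (1 - 1 / ((s.pr i : ℕ) : ℝ))⁻¹) :=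
          mul_le_mul_of_nonneg_left hle (inv_pos.2 hrpos).le
      _ = P * ((s.rho A)⁻¹ * ∏ i ∈ A, (1 - 1 / ((s.pr i : ℕ) : ℝ))⁻¹) := by ring
      _ = P * (1 / s.phi A) := by rw [hkey]
  -- harmonic sum
  have hharm : Real.log D ≤ ∑ n ∈ Icc 1 ⌊D⌋₊, ((n : ℕ) : ℝ)⁻¹ := by
    have h1 := log_le_harmonic_floor D (by linarith)
    refine h1.trans (le_of_eq ?_)
    rw [harmonic_eq_sum_Icc]
    push_cast
    rfl
  have hfib : ∑ n ∈ Icc 1 ⌊D⌋₊, ((n : ℕ) : ℝ)⁻¹ =
      ∑ A ∈ univ.filter (fun A : Finset ι => s.rho A ≤ D),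
        ∑ n ∈ (Icc 1 ⌊D⌋₊).filter (fun n => T n = A), ((n : ℕ) : ℝ)⁻¹ := by
    rw [Finset.sum_fiberwise_of_maps_to]
    intro n hn
    rw [Finset.mem_filter]
    refine ⟨Finset.mem_univ _, ?_⟩
    rw [Finset.mem_Icc] at hn
    rw [← hR]
    have h1 : R (T n) ≤ n := Nat.le_of_dvd (by omega) (hRdvd n)
    calc ((R (T n) : ℕ) : ℝ) ≤ (n : ℝ) := by exact_mod_cast h1
      _ ≤ (⌊D⌋₊ : ℝ) := by exact_mod_cast hn.2
      _ ≤ D := Nat.floor_le (by linarith)
  calc Real.log D ≤ ∑ n ∈ Icc 1 ⌊D⌋₊, ((n : ℕ) : ℝ)⁻¹ := hharm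
    _ = ∑ A ∈ univ.filter (fun A : Finset ι => s.rho A ≤ D),
        ∑ n ∈ (Icc 1 ⌊D⌋₊).filter (fun n => T n = A), ((n : ℕ) : ℝ)⁻¹ := hfib
    _ ≤ ∑ A ∈ univ.filter (fun A : Finset ι => s.rho A ≤ D), P * (1 / s.phi A) :=
        Finset.sum_le_sum (fun A _ => hinner A)
    _ = P * ∑ A ∈ univ.filter (fun A : Finset ι => s.rho A ≤ D), 1 / s.phi A := by
        rw [Finset.mul_sum]
    _ ≤ 500 * Real.log W *
        ∑ A ∈ univ.filter (fun A : Finset ι => s.rho A ≤ D), 1 / s.phi A := by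
        apply mul_le_mul_of_nonneg_right hPle
        apply Finset.sum_nonneg
        intro A _
        exact (one_div_pos.2 (hphi_pos A)).le

end Pool.Agent.Lib.H56G
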