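import Pool.Agent.Lib.H56G.Off

/-!
# Chunk WGT1: the weight `bw A = 1/(S φ(A) log ρ(A))`
-/

open Finset

namespace Pool.Agent.Lib.H56G

variable {ι J : Type} [Fintype ι] [DecidableEq ι] [Fintype J] [DecidableEq J]

theorem wgt1_term_nonneg (s : Sys ι J) (A : Finset ι) :
    0 ≤ s.phi A * Real.log (s.rho A) :=
  mul_nonneg (zero_le_one.trans (one_le_phi s A)) (Real.log_nonneg (one_le_rho s A))

theorem wgt1_SS_nonneg (s : Sys ι J) (z : ℝ) : 0 ≤ SS s z := by
  unfold SS
  apply Finset.sum_nonneg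
  intro A _
  exact div_nonneg zero_le_one (wgt1_term_nonneg s A)

theorem bw_nonneg (s : Sys ι J) (z : ℝ) (A : Finset ι) : 0 ≤ bw s z A := by
  unfold bw
  split_ifs with h
  · exact div_nonneg zero_le_one (mul_nonneg (wgt1_SS_nonneg s z) (wgt1_term_nonneg s A))
  · exact le_refl _

theorem bw_rho (s : Sys ι J) (z : ℝ) (A : Finset ι) (h : bw s z A ≠ 0) : s.rho A ≤ z := by
  unfold bw at h
  split_ifs at h with h1
  · exact h1.2
  · exact absurd rfl h

theorem bw_sum (s : Sys ι J) (z : ℝ) (hS : 0 < SS s z) :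
    ∑ A ∈ univ.filter (fun A : Finset ι => A ≠ ∅), bw s z A = 1 := by
  have h1 : ∑ A ∈ univ.filter (fun A : Finset ι => A ≠ ∅), bw s z A
      = ∑ A ∈ (univ : Finset (Finset ι)).filter (fun A => A ≠ ∅ ∧ s.rho A ≤ z),
        (1 / SS s z) * (1 / (s.phi A * Real.log (s.rho A))) := by
    rw [Finset.sum_filter, Finset.sum_filter]
    apply Finset.sum_congr rfl
    intro A _
    by_cases hA : A ≠ ∅
    · by_cases hz : s.rho A ≤ z
      · rw [if_pos hA, if_pos ⟨hA, hz⟩]
        unfold bw
        rw [if_pos ⟨hA, hz⟩, one_div_mul_one_div]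
      · rw [if_pos hA, if_neg (fun h => hz h.2)]
        unfold bw
        rw [if_neg (fun h => hz h.2)]
    · rw [if_neg hA, if_neg (fun h => hA h.1)]
  rw [h1, ← Finset.mul_sum]
  change 1 / SS s z * SS s z = 1
  rw [one_div_mul_cancel hS.ne']

theorem bw_le_one (s : Sys ι J) (z : ℝ) (hS : 0 < SS s z) (A : Finset ι) : bw s z A ≤ 1 := by
  by_cases hA : A = ∅
  · unfold bw
    rw [if_neg (fun h => h.1 hA)]
    exact zero_le_one
  · rw [← bw_sum s z hS]
    apply Finset.single_le_sum (f := fun A => bw s z A) (fun B _ => bw_nonneg s z B)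
    rw [Finset.mem_filter]
    exact ⟨Finset.mem_univ _, hA⟩

theorem wgt1_one_lt_rho (s : Sys ι J) (A : Finset ι) (hA : A ≠ ∅) : 1 < s.rho A := by
  obtain ⟨i, hi⟩ := Finset.nonempty_iff_ne_empty.mpr hA
  have h1 : s.rho A = (s.pr i : ℝ) * s.rho (A.erase i) := by
    unfold Sys.rho
    rw [Finset.mul_prod_erase A (fun i => (s.pr i : ℝ)) hi]
  have h2 : (2 : ℝ) ≤ (s.pr i : ℝ) := by exact_mod_cast (s.prime i).two_le
  have h3 := one_le_rho s (A.erase i)
  rw [h1]
  nlinarith

/-- `Σ_{A ≠ ∅} bw^2 φ (ρ^σ - 1) ≤ 2/(S log z)` for `σ = 1/log z`: for `ρ = ρ(A) ≤ z` we have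
`ρ^σ - 1 = exp (log ρ/log z) - 1 ≤ 2 log ρ / log z`, and `Σ bw^2 φ log ρ = 1/S`. -/
theorem bw_moment (s : Sys ι J) (z : ℝ) (hz : 1 < z) (hS : 0 < SS s z) :
    ∑ A ∈ univ.filter (fun A : Finset ι => A ≠ ∅),
        vv s (bw s z) A * ((s.rho A) ^ (1 / Real.log z) - 1) ≤ 2 / (SS s z * Real.log z) := by
  have hlz : 0 < Real.log z := Real.log_pos hz
  have key : ∀ A ∈ univ.filter (fun A : Finset ι => A ≠ ∅),
      vv s (bw s z) A * ((s.rho A) ^ (1 / Real.log z) - 1)
        ≤ 2 / (SS s z * Real.log z) * bw s z A := by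
    intro A hA
    rw [Finset.mem_filter] at hA
    have hA := hA.2
    have hr := wgt1_one_lt_rho s A hA
    have hlr : 0 < Real.log (s.rho A) := Real.log_pos hr
    have hph : 0 < s.phi A := lt_of_lt_of_le zero_lt_one (one_le_phi s A)
    have hvv : vv s (bw s z) A = (bw s z A) ^ 2 * s.phi A := by
      unfold vv gam
      rw [if_neg hA, neg_sq]
    by_cases hzA : s.rho A ≤ z
    · have hx0 : 0 ≤ Real.log (s.rho A) / Real.log z := div_nonneg hlr.le hlz.le
      have hx1 : Real.log (s.rho A) / Real.log z ≤ 1 := by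
        rw [div_le_one hlz]
        exact Real.log_le_log (zero_lt_one.trans hr) hzA
      have hexp : (s.rho A) ^ (1 / Real.log z) - 1 ≤ 2 * (Real.log (s.rho A) / Real.log z) := by
        have h1 := Real.abs_exp_sub_one_le (x := Real.log (s.rho A) / Real.log z)
          (by rw [abs_of_nonneg hx0]; exact hx1)
        rw [abs_of_nonneg hx0] at h1
        have h2 : (s.rho A) ^ (1 / Real.log z) = Real.exp (Real.log (s.rho A) / Real.log z) := by
          rw [Real.rpow_def_of_pos (zero_lt_one.trans hr)]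
          congr 1
          ring
        rw [h2]
        exact (le_abs_self _).trans h1
      have hbw : bw s z A = 1 / (SS s z * (s.phi A * Real.log (s.rho A))) := by
        unfold bw
        rw [if_pos ⟨hA, hzA⟩]
      have hb0 := bw_nonneg s z A
      rw [hvv]
      calc (bw s z A) ^ 2 * s.phi A * ((s.rho A) ^ (1 / Real.log z) - 1)
          ≤ (bw s z A) ^ 2 * s.phi A * (2 * (Real.log (s.rho A) / Real.log z)) := by
            apply mul_le_mul_of_nonneg_left hexp
            positivity
        _ = bw s z A * (bw s z A * (s.phi A * Real.log (s.rho A))) * (2 / Real.log z) := by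
            ring
        _ = 2 / (SS s z * Real.log z) * bw s z A := by
            have h3 : bw s z A * (s.phi A * Real.log (s.rho A)) = 1 / SS s z := by
              rw [hbw]
              field_simp
            rw [h3]
            field_simp
    · have hbw : bw s z A = 0 := by
        unfold bw
        rw [if_neg (fun h => hzA h.2)]
      rw [hvv, hbw]
      simp
  calc ∑ A ∈ univ.filter (fun A : Finset ι => A ≠ ∅),
        vv s (bw s z) A * ((s.rho A) ^ (1 / Real.log z) - 1)
      ≤ ∑ A ∈ univ.filter (fun A : Finset ι => A ≠ ∅),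
        2 / (SS s z * Real.log z) * bw s z A := Finset.sum_le_sum key
    _ = 2 / (SS s z * Real.log z) := by
      rw [← Finset.mul_sum, bw_sum s z hS, mul_one]

end Pool.Agent.Lib.H56G
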